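import Pool.Agent.LC.AbsDefs

namespace Pool.Agent.LC

open SimpleGraph

section rot

variable {m : ℕ}

/-- the position map of the rotation at `i` -/
def tauFun (i j : Fin (m + 1)) : Fin (m + 1) :=
  if h : j ≤ i then j else ⟨m + 1 + i - j, by
    have := j.2
    have h' : i.val < j.val := by
      rw [← Fin.lt_def]
      exact not_le.1 h
    omega⟩

theorem tauFun_of_le {i j : Fin (m + 1)} (h : j ≤ i) : tauFun i j = j := by
  rw [tauFun, dif_pos h]

theorem tauFun_val {i j : Fin (m + 1)} (h : i < j) : (tauFun i j).val = m + 1 + i - j := by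
  rw [tauFun, dif_neg (not_le.2 h)]

theorem lt_tauFun {i j : Fin (m + 1)} (h : i < j) : i < tauFun i j := by
  rw [Fin.lt_def, tauFun_val h]
  have := j.2
  omega

theorem tauFun_tauFun (i j : Fin (m + 1)) : tauFun i (tauFun i j) = j := by
  rcases le_or_gt j i with h | h
  · rw [tauFun_of_le h, tauFun_of_le h]
  · apply Fin.ext
    rw [tauFun_val (lt_tauFun h), tauFun_val h]
    have := j.2
    have h' : i.val < j.val := h
    omega

/-- the position map of the rotation at `i`, as a permutation -/
def tau (i : Fin (m + 1)) : Equiv.Perm (Fin (m + 1)) :=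
  Function.Involutive.toPerm (tauFun i) (tauFun_tauFun i)

theorem tau_of_le {i j : Fin (m + 1)} (h : j ≤ i) : tau i j = j := tauFun_of_le h

theorem tau_val {i j : Fin (m + 1)} (h : i < j) : (tau i j).val = m + 1 + i - j := tauFun_val h

theorem lt_tau {i j : Fin (m + 1)} (h : i < j) : i < tau i j := lt_tauFun h

theorem tau_tau (i j : Fin (m + 1)) : tau i (tau i j) = j := tauFun_tauFun i j

theorem tau_symm (i j : Fin (m + 1)) : (tau i).symm j = tau i j := rfl

theorem tau_mul_self (i : Fin (m + 1)) : tau i * tau i = 1 := by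
  ext j
  rw [Equiv.Perm.mul_apply, tau_tau]
  rfl

variable (π : Fin (m + 1) → Fin (m + 1) → ZMod 2)

theorem pre_succ (q : Equiv.Perm (Fin (m + 1))) (j : Fin m) :
    pre π q j.succ = pre π q j.castSucc + π (q j.castSucc) (q j.succ) := by
  unfold pre
  have h1 : π (q j.castSucc) (q j.succ) =
      ∑ l : Fin m, if l = j then π (q l.castSucc) (q l.succ) else 0 := by
    rw [Finset.sum_ite_eq' Finset.univ j]
    simp
  rw [h1, ← Finset.sum_add_distrib]
  refine Finset.sum_congr rfl fun l _ => ?_
  rcases lt_trichotomy l j with h | h | h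
  · have h2 : l.castSucc < j.succ := by
      rw [Fin.lt_def, Fin.val_castSucc, Fin.val_succ]
      have : l.val < j.val := h
      omega
    have h3 : l.castSucc < j.castSucc := by
      rw [Fin.lt_def, Fin.val_castSucc, Fin.val_castSucc]
      exact h
    rw [if_pos h2, if_pos h3, if_neg (ne_of_lt h), add_zero]
  · subst h
    have h2 : l.castSucc < l.succ := by
      rw [Fin.lt_def, Fin.val_castSucc, Fin.val_succ]
      omega
    rw [if_pos h2, if_neg (lt_irrefl _), if_pos rfl, zero_add]
  · have h2 : ¬ l.castSucc < j.succ := by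
      rw [Fin.lt_def, Fin.val_castSucc, Fin.val_succ]
      have : j.val < l.val := h
      omega
    have h3 : ¬ l.castSucc < j.castSucc := by
      rw [Fin.lt_def, Fin.val_castSucc, Fin.val_castSucc]
      have : j.val < l.val := h
      omega
    rw [if_neg h2, if_neg h3, if_neg (ne_of_gt h), add_zero]

theorem pre_rot_le (q : Equiv.Perm (Fin (m + 1))) {i k : Fin (m + 1)} (h : k ≤ i) :
    pre π (q * tau i) k = pre π q k := by
  unfold pre
  refine Finset.sum_congr rfl fun j _ => ?_
  by_cases hj : j.castSucc < k
  · rw [if_pos hj, if_pos hj]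
    have h1 : j.castSucc ≤ i := (le_of_lt hj).trans h
    have h2 : j.succ ≤ i := by
      have : j.castSucc.val < k.val := hj
      have h' : k.val ≤ i.val := h
      rw [Fin.le_def, Fin.val_succ]
      rw [Fin.val_castSucc] at this
      omega
    rw [Equiv.Perm.mul_apply, Equiv.Perm.mul_apply, tau_of_le h1, tau_of_le h2]
  · rw [if_neg hj, if_neg hj]

theorem zmod2_add_self (x : ZMod 2) : x + x = 0 := CharTwo.add_self_eq_zero x

theorem pre_rot_gt (hsym : ∀ x y, π x y = π y x) (q : Equiv.Perm (Fin (m + 1)))
    (i : Fin (m + 1)) : ∀ (k : ℕ) (hk : k < m + 1), i.val < k →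
      pre π (q * tau i) ⟨k, hk⟩ = loopSum π q i + pre π q (tau i ⟨k, hk⟩) := by
  intro k
  induction k with
  | zero => exact fun _ h => absurd h (Nat.not_lt_zero _)
  | succ k ih =>
    intro hk hik
    have hkm : k < m := by omega
    have e1 : (⟨k + 1, hk⟩ : Fin (m + 1)) = (⟨k, hkm⟩ : Fin m).succ := rfl
    have e2 : (⟨k, by omega⟩ : Fin (m + 1)) = (⟨k, hkm⟩ : Fin m).castSucc := rfl
    rw [e1, pre_succ, ← e1, ← e2]
    rcases Nat.lt_or_ge i.val k with h | h
    · rw [ih (by omega) h]
      -- the position `s = tau (k + 1)`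
      have hs : (tau i ⟨k + 1, hk⟩).val = m + i - k := by
        rw [tau_val (show i < ⟨k + 1, hk⟩ from hik)]
        show m + 1 + i.val - (k + 1) = _
        omega
      have hs' : (tau i ⟨k, by omega⟩).val = m + i - k + 1 := by
        rw [tau_val (show i < ⟨k, by omega⟩ from h)]
        show m + 1 + i.val - k = _
        omega
      have hsm : m + i.val - k < m := by omega
      have e3 : tau i ⟨k + 1, hk⟩ = (⟨m + i.val - k, hsm⟩ : Fin m).castSucc := Fin.ext hs
      have e4 : tau i ⟨k, by omega⟩ = (⟨m + i.val - k, hsm⟩ : Fin m).succ := Fin.ext hs'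
      rw [Equiv.Perm.mul_apply, Equiv.Perm.mul_apply, e3, e4, pre_succ,
        hsym (q (Fin.succ _)) (q (Fin.castSucc _))]
      have h0 := zmod2_add_self (π (q (⟨m + i.val - k, hsm⟩ : Fin m).castSucc)
        (q (⟨m + i.val - k, hsm⟩ : Fin m).succ))
      linear_combination h0
    · have hki : k = i.val := by omega
      have e5 : (⟨k, by omega⟩ : Fin (m + 1)) = i := Fin.ext hki
      have e6 : tau i ⟨k + 1, hk⟩ = Fin.last m := by
        apply Fin.ext
        rw [tau_val (show i < ⟨k + 1, hk⟩ from hik), Fin.val_last]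
        show m + 1 + i.val - (k + 1) = _
        omega
      rw [e5, pre_rot_le π q le_rfl, Equiv.Perm.mul_apply, Equiv.Perm.mul_apply, e6,
        tau_of_le le_rfl, loopSum, hsym (q (Fin.last m)) (q i)]
      have h0 := zmod2_add_self (pre π q (Fin.last m))
      linear_combination -h0

theorem symm_rot (q : Equiv.Perm (Fin (m + 1))) (i x : Fin (m + 1)) :
    (q * tau i).symm x = tau i (q.symm x) := rfl

theorem pre_symm_rot (hsym : ∀ x y, π x y = π y x) (q : Equiv.Perm (Fin (m + 1)))
    (i x : Fin (m + 1)) : pre π (q * tau i) ((q * tau i).symm x) =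
      pre π q (q.symm x) + if i < q.symm x then loopSum π q i else 0 := by
  rw [symm_rot]
  by_cases h : i < q.symm x
  · have h1 := pre_rot_gt π hsym q i (tau i (q.symm x)).val (tau i (q.symm x)).2 (lt_tau h)
    rw [Fin.eta, tau_tau] at h1
    rw [h1, if_pos h, add_comm]
  · rw [if_neg h, add_zero, tau_of_le (not_lt.1 h), pre_rot_le π q (not_lt.1 h)]

theorem omega_rot (hsym : ∀ x y, π x y = π y x) (b d : Fin (m + 1)) (c : ZMod 2)
    (q : Equiv.Perm (Fin (m + 1))) (i : Fin (m + 1)) :
    omega π b d c (q * tau i) = omega π b d c q + (if i < q.symm b then loopSum π q i else 0) +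
      (if i < q.symm d then loopSum π q i else 0) := by
  rw [omega, pre_symm_rot π hsym, pre_symm_rot π hsym, omega]
  ring

end rot

section

variable {m : ℕ} {A : SimpleGraph (Fin (m + 1))}

/-- allowed rotations -/
def Allow (A : SimpleGraph (Fin (m + 1))) (q : Equiv.Perm (Fin (m + 1))) (i : Fin (m + 1)) : Prop :=
  i.val + 1 < m ∧ A.Adj (q (Fin.last m)) (q i)

theorem tau_last {i : Fin (m + 1)} (h : i.val + 1 < m) :
    (tau i (Fin.last m)).val = i.val + 1 := by
  rw [tau_val (show i < Fin.last m by rw [Fin.lt_def, Fin.val_last]; omega), Fin.val_last]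
  omega

theorem ham_rot {q : Equiv.Perm (Fin (m + 1))} (hq : Ham A q) {i : Fin (m + 1)}
    (hi : Allow A q i) : Ham A (q * tau i) := by
  refine ⟨?_, fun j => ?_⟩
  · rw [Equiv.Perm.mul_apply, tau_of_le (Fin.zero_le i), hq.1]
  · rw [Equiv.Perm.mul_apply, Equiv.Perm.mul_apply]
    have hj := j.2
    rcases lt_trichotomy j.val i.val with h | h | h
    · have h1 : j.castSucc ≤ i := by
        rw [Fin.le_def, Fin.val_castSucc]
        omega
      have h2 : j.succ ≤ i := by
        rw [Fin.le_def, Fin.val_succ]
        omega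
      rw [tau_of_le h1, tau_of_le h2]
      exact hq.2 j
    · have h1 : j.castSucc = i := Fin.ext h
      have h2 : tau i j.succ = Fin.last m := by
        apply Fin.ext
        rw [tau_val (show i < j.succ by rw [Fin.lt_def, Fin.val_succ]; omega), Fin.val_succ,
          Fin.val_last]
        omega
      rw [h1, h2, tau_of_le le_rfl]
      exact hi.2.symm
    · have hs : m + i.val - j.val < m := by omega
      have h1 : tau i j.castSucc = (⟨m + i.val - j.val, hs⟩ : Fin m).succ := by
        apply Fin.ext
        rw [tau_val (show i < j.castSucc by rw [Fin.lt_def, Fin.val_castSucc]; omega),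
          Fin.val_castSucc, Fin.val_succ]
        show _ = m + i.val - j.val + 1
        omega
      have h2 : tau i j.succ = (⟨m + i.val - j.val, hs⟩ : Fin m).castSucc := by
        apply Fin.ext
        rw [tau_val (show i < j.succ by rw [Fin.lt_def, Fin.val_succ]; omega),
          Fin.val_succ, Fin.val_castSucc]
        show _ = m + i.val - j.val
        omega
      rw [h1, h2]
      exact (hq.2 _).symm

theorem ham_adj {q : Equiv.Perm (Fin (m + 1))} (hq : Ham A q) {i j : Fin (m + 1)}
    (h : i.val + 1 = j.val) : A.Adj (q i) (q j) := by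
  have hj := j.2
  have h1 := hq.2 ⟨i.val, by omega⟩
  have h2 : (⟨i.val, by omega⟩ : Fin m).castSucc = i := Fin.ext rfl
  have h3 : (⟨i.val, by omega⟩ : Fin m).succ = j := Fin.ext h
  rwa [h2, h3] at h1

theorem allow_rot {q : Equiv.Perm (Fin (m + 1))} (hq : Ham A q) {i : Fin (m + 1)}
    (hi : Allow A q i) : Allow A (q * tau i) i := by
  refine ⟨hi.1, ?_⟩
  rw [Equiv.Perm.mul_apply, Equiv.Perm.mul_apply, tau_of_le (le_refl i)]
  exact (ham_adj hq (tau_last hi.1).symm).symm

theorem mul_tau_tau (q : Equiv.Perm (Fin (m + 1))) (i : Fin (m + 1)) :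
    q * tau i * tau i = q := by
  rw [mul_assoc, tau_mul_self, mul_one]

/-- the number of allowed rotations -/
theorem card_allow (hm : 2 ≤ m) {q : Equiv.Perm (Fin (m + 1))} (hq : Ham A q)
    (F : Finset (Fin (m + 1))) (hF : ∀ i, i ∈ F ↔ Allow A q i) :
    F.card + 1 = (A.neighborSet (q (Fin.last m))).ncard := by
  classical
  have hm1 : m - 1 < m + 1 := by omega
  have h0 : (⟨m - 1, hm1⟩ : Fin (m + 1)) ∉ F := by
    rw [hF]
    intro h
    have := h.1
    have h1 : m - 1 + 1 < m := this
    omega
  have h1 : A.neighborSet (q (Fin.last m)) =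
      q '' ((insert (⟨m - 1, hm1⟩ : Fin (m + 1)) F : Finset (Fin (m + 1))) : Set (Fin (m + 1))) := by
    ext x
    rw [mem_neighborSet, Set.mem_image]
    constructor
    · intro hx
      refine ⟨q.symm x, ?_, Equiv.apply_symm_apply q x⟩
      rw [Finset.mem_coe, Finset.mem_insert, hF]
      have h2 : q.symm x ≠ Fin.last m := by
        intro h2
        have h3 : x = q (Fin.last m) := by rw [← h2, Equiv.apply_symm_apply]
        rw [h3] at hx
        exact A.irrefl hx
      have h3 : (q.symm x).val ≠ m := fun h3 => h2 (Fin.ext h3)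
      have h4 := (q.symm x).2
      by_cases h5 : (q.symm x).val = m - 1
      · exact Or.inl (Fin.ext h5)
      · refine Or.inr ⟨by omega, ?_⟩
        rw [Equiv.apply_symm_apply]
        exact hx
    · rintro ⟨i, hi, rfl⟩
      rw [Finset.mem_coe, Finset.mem_insert, hF] at hi
      rcases hi with rfl | hi
      · refine (ham_adj hq ?_).symm
        show m - 1 + 1 = m
        omega
      · exact hi.2
  rw [h1, Set.ncard_image_of_injective _ q.injective, Set.ncard_coe_finset,
    Finset.card_insert_of_notMem h0]

end

theorem abs_parity {m : ℕ} (hm : 2 ≤ m) (A : SimpleGraph (Fin (m + 1)))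
    {T : Type} [Fintype T] (a b d : T → Fin (m + 1))
    (π : T → Fin (m + 1) → Fin (m + 1) → ZMod 2) (c : T → ZMod 2)
    (hsym : ∀ t x y, π t x y = π t y x)
    (hab : ∀ t, A.Adj (a t) (b t)) (had : ∀ t, A.Adj (a t) (d t)) (hbd : ∀ t, b t ≠ d t)
    (hinj : Function.Injective a)
    (hb : ∀ t t', b t ≠ a t') (hd : ∀ t t', d t ≠ a t')
    (hb0 : ∀ t, b t ≠ 0) (hd0 : ∀ t, d t ≠ 0) (hal : ∀ t, a t ≠ Fin.last m)
    (hdl : (A.neighborSet (Fin.last m)).ncard = 2)
    (hda : ∀ t, a t ≠ 0 → (A.neighborSet (a t)).ncard = 4)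
    (hdx : ∀ x, x ≠ 0 → x ≠ Fin.last m → (∀ t, a t ≠ x) → (A.neighborSet x).ncard = 3)
    (P1 : ∀ q, Ham A q → ∀ i : Fin (m + 1), i.val + 1 < m → A.Adj (q (Fin.last m)) (q i) →
      ∀ t x, (x = b t ∨ x = d t) → q.symm x < i → loopSum (π t) q i = 0)
    (P2 : ∀ q, Ham A q → ∀ i : Fin (m + 1), i.val + 1 < m → A.Adj (q (Fin.last m)) (q i) →
      ∀ t, (q i = b t ∨ q i = d t) → (q.symm (a t)).val + 1 = i.val → loopSum (π t) q i = 0)
    (P3 : ∀ q, Ham A q → ∀ t x x', ((x = b t ∧ x' = d t) ∨ (x = d t ∧ x' = b t)) →
      (q.symm x).val + 1 = (q.symm (a t)).val → q.symm (a t) < q.symm x' →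
      omega (π t) (b t) (d t) (c t) q = 0) :
    Even (Nat.card {q : Equiv.Perm (Fin (m + 1)) // Ham A q ∧
      (∀ t, omega (π t) (b t) (d t) (c t) q = 1) ∧ q (Fin.last m) = Fin.last m}) := by
  classical
  -- the class
  obtain ⟨Cl, hCl⟩ : ∃ Cl : Equiv.Perm (Fin (m + 1)) → Prop, ∀ q, Cl q ↔ Ham A q ∧
    ∀ t, omega (π t) (b t) (d t) (c t) q = 1 := ⟨_, fun _ => Iff.rfl⟩
  have h01 : (0 : ZMod 2) ≠ 1 := by decide
  -- no exception: the rotation stays in the class
  have stay : ∀ q, Cl q → ∀ i, Allow A q i →
      (∀ t, a t = q (Fin.last m) → ¬ ((q i = b t ∧ i < q.symm (d t)) ∨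
        (q i = d t ∧ i < q.symm (b t)))) → Cl (q * tau i) := by
    intro q hq i hi hex
    obtain ⟨hH, hom⟩ := (hCl q).1 hq
    refine (hCl _).2 ⟨ham_rot hH hi, fun t => ?_⟩
    have key : ∀ x x', ((x = b t ∧ x' = d t) ∨ (x = d t ∧ x' = b t)) → ¬ i < q.symm x →
        i < q.symm x' → loopSum (π t) q i = 0 := by
      intro x x' hxx h1 h2
      have hx : x = b t ∨ x = d t := by
        rcases hxx with ⟨h, -⟩ | ⟨h, -⟩
        · exact Or.inl h
        · exact Or.inr h
      rcases lt_or_eq_of_le (not_lt.1 h1) with h3 | h3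
      · exact P1 q hH i hi.1 hi.2 t x hx h3
      · have hqi : q i = x := by rw [← h3, Equiv.apply_symm_apply]
        have hx0 : x ≠ 0 := by
          rcases hx with rfl | rfl
          · exact hb0 t
          · exact hd0 t
        have hxa : ∀ t', a t' ≠ x := by
          rcases hx with rfl | rfl
          · exact fun t' => (hb t t').symm
          · exact fun t' => (hd t t').symm
        have hx'a : x' ≠ a t := by
          rcases hxx with ⟨-, rfl⟩ | ⟨-, rfl⟩
          · exact hd t t
          · exact hb t t
        have hax : A.Adj (a t) x := by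
          rcases hx with rfl | rfl
          · exact hab t
          · exact had t
        have hi0 : i.val ≠ 0 := by
          intro h
          have h4 : i = 0 := Fin.ext h
          rw [h4, hH.1] at hqi
          exact hx0 hqi.symm
        have him := hi.1
        have hi2 := i.2
        obtain ⟨ip, hip⟩ : ∃ ip : Fin (m + 1), ip.val + 1 = i.val :=
          ⟨⟨i.val - 1, by omega⟩, by show i.val - 1 + 1 = i.val; omega⟩
        obtain ⟨is, his⟩ : ∃ is : Fin (m + 1), i.val + 1 = is.val :=
          ⟨⟨i.val + 1, by omega⟩, rfl⟩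
        have n1 : A.Adj x (q ip) := by
          rw [← hqi]
          exact (ham_adj hH hip).symm
        have n2 : A.Adj x (q is) := by
          rw [← hqi]
          exact ham_adj hH his
        have n3 : A.Adj x (q (Fin.last m)) := by
          rw [← hqi]
          exact hi.2.symm
        have hl : (Fin.last m).val = m := Fin.val_last m
        have e1 : q ip ≠ q is := fun h => by
          have := congrArg Fin.val (q.injective h)
          omega
        have e2 : q ip ≠ q (Fin.last m) := fun h => by
          have := congrArg Fin.val (q.injective h)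
          omega
        have e3 : q is ≠ q (Fin.last m) := fun h => by
          have := congrArg Fin.val (q.injective h)
          omega
        have hc3 : ({q ip, q is, q (Fin.last m)} : Set (Fin (m + 1))).ncard = 3 :=
          Set.ncard_eq_three.2 ⟨_, _, _, e1, e2, e3, rfl⟩
        have hsub : ({q ip, q is, q (Fin.last m)} : Set (Fin (m + 1))) ⊆ A.neighborSet x := by
          intro y hy
          rcases hy with rfl | rfl | rfl
          · exact n1
          · exact n2
          · exact n3
        have hle3 : (A.neighborSet x).ncard ≤ 3 := by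
          by_cases hxl : x = Fin.last m
          · rw [hxl, hdl]
            norm_num
          · rw [hdx x hx0 hxl hxa]
        have heq := Set.eq_of_subset_of_ncard_le hsub (by rw [hc3]; exact hle3)
        have hmem : a t ∈ A.neighborSet x := hax.symm
        rw [← heq] at hmem
        rcases hmem with h5 | h5 | h5
        · refine P2 q hH i hi.1 hi.2 t ?_ ?_
          · rw [hqi]
            exact hx
          · rw [h5, Equiv.symm_apply_apply]
            exact hip
        · have h6 : omega (π t) (b t) (d t) (c t) q = 0 := by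
            refine P3 q hH t x x' hxx ?_ ?_
            · rw [h5, Equiv.symm_apply_apply, h3]
              exact his
            · rw [Fin.lt_def]
              have h7 : q.symm (a t) ≠ q.symm x' := fun h => hx'a (q.symm.injective h).symm
              have h8 : (q.symm (a t)).val = is.val := by rw [h5, Equiv.symm_apply_apply]
              have h9 : i.val < (q.symm x').val := h2
              have h10 : (q.symm (a t)).val ≠ (q.symm x').val := fun h => h7 (Fin.ext h)
              omega
          rw [hom t] at h6
          exact absurd h6.symm h01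
        · exfalso
          have h6 : a t = q (Fin.last m) := h5
          refine hex t h6 ?_
          rcases hxx with ⟨rfl, rfl⟩ | ⟨rfl, rfl⟩
          · exact Or.inl ⟨hqi, h2⟩
          · exact Or.inr ⟨hqi, h2⟩
    rw [omega_rot (π t) (hsym t), hom t]
    by_cases h1 : i < q.symm (b t)
    · by_cases h2 : i < q.symm (d t)
      · rw [if_pos h1, if_pos h2, add_assoc, zmod2_add_self, add_zero]
      · rw [if_pos h1, if_neg h2, key (d t) (b t) (Or.inr ⟨rfl, rfl⟩) h2 h1, add_zero, add_zero]
    · by_cases h2 : i < q.symm (d t)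
      · rw [if_neg h1, if_pos h2, key (b t) (d t) (Or.inl ⟨rfl, rfl⟩) h1 h2, add_zero, add_zero]
      · rw [if_neg h1, if_neg h2, add_zero, add_zero]
  -- the exception: the rotation leaves the class
  have leave : ∀ q, Ham A q → ∀ i, Allow A q i → ∀ t, a t = q (Fin.last m) → ∀ x x',
      ((x = b t ∧ x' = d t) ∨ (x = d t ∧ x' = b t)) → q i = x → i < q.symm x' →
      ¬ Cl (q * tau i) := by
    intro q hH i hi t ht x x' hxx hqi h2 hcl
    obtain ⟨hH', hom'⟩ := (hCl _).1 hcl
    have hx'a : x' ≠ a t := by
      rcases hxx with ⟨-, rfl⟩ | ⟨-, rfl⟩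
      · exact hd t t
      · exact hb t t
    have h3 : (q * tau i).symm x = i := by
      rw [symm_rot, ← hqi, Equiv.symm_apply_apply, tau_of_le le_rfl]
    have h4 : ((q * tau i).symm (a t)).val = i.val + 1 := by
      rw [symm_rot, ht, Equiv.symm_apply_apply, tau_last hi.1]
    have h6 : omega (π t) (b t) (d t) (c t) (q * tau i) = 0 := by
      refine P3 _ hH' t x x' hxx ?_ ?_
      · rw [h3, h4]
      · have h5 : i < (q * tau i).symm x' := by
          rw [symm_rot]
          exact lt_tau h2
        have h7 : (q * tau i).symm (a t) ≠ (q * tau i).symm x' :=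
          fun h => hx'a ((q * tau i).symm.injective h).symm
        have h8 : ((q * tau i).symm (a t)).val ≠ ((q * tau i).symm x').val :=
          fun h => h7 (Fin.ext h)
        rw [Fin.lt_def] at h5 ⊢
        omega
    rw [hom' t] at h6
    exact h01 h6.symm
  -- the graph on the class
  let Γ : SimpleGraph {q // Cl q} :=
    { Adj := fun p q => ∃ i, Allow A p.1 i ∧ q.1 = p.1 * tau i
      symm := ⟨by
        rintro p q ⟨i, hi, h⟩
        refine ⟨i, ?_, ?_⟩
        · rw [h]
          exact allow_rot ((hCl _).1 p.2).1 hi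
        · rw [h, mul_tau_tau]⟩
      loopless := ⟨by
        rintro p ⟨i, hi, h⟩
        have h1 : p.1 (Fin.last m) = p.1 (tau i (Fin.last m)) := by
          conv_lhs => rw [h]
          rw [Equiv.Perm.mul_apply]
        have h2 := congrArg Fin.val (p.1.injective h1)
        rw [tau_last hi.1, Fin.val_last] at h2
        have := hi.1
        omega⟩ }
  have hdeg : ∀ q : {q // Cl q}, Odd (Γ.degree q) ↔ q.1 (Fin.last m) = Fin.last m := by
    intro q
    obtain ⟨hH, hom⟩ := (hCl _).1 q.2
    obtain ⟨F, hF⟩ : ∃ F : Finset (Fin (m + 1)), ∀ i, i ∈ F ↔ Allow A q.1 i :=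
      ⟨Finset.univ.filter fun i => Allow A q.1 i, fun i => by simp⟩
    obtain ⟨F', hF'⟩ : ∃ F' : Finset (Fin (m + 1)), ∀ i, i ∈ F' ↔
      Allow A q.1 i ∧ Cl (q.1 * tau i) :=
      ⟨Finset.univ.filter fun i => Allow A q.1 i ∧ Cl (q.1 * tau i), fun i => by simp⟩
    have hcard := card_allow hm hH F hF
    have hd1 : Γ.degree q = F'.card := by
      rw [← card_neighborFinset_eq_degree]
      symm
      refine Finset.card_bij (fun i hi => (⟨q.1 * tau i, ((hF' i).1 hi).2⟩ : {q // Cl q}))
        ?_ ?_ ?_
      · intro i hi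
        rw [mem_neighborFinset]
        exact ⟨i, ((hF' i).1 hi).1, rfl⟩
      · intro i hi j hj h
        have h1 : q.1 * tau i = q.1 * tau j := congrArg Subtype.val h
        have h2 : tau i (Fin.last m) = tau j (Fin.last m) := by
          rw [mul_left_cancel h1]
        have h3 := congrArg Fin.val h2
        rw [tau_last ((hF' i).1 hi).1.1, tau_last ((hF' j).1 hj).1.1] at h3
        exact Fin.ext (by omega)
      · intro r hr
        rw [mem_neighborFinset] at hr
        obtain ⟨i, hi, h⟩ := hr
        have h1 : Cl (q.1 * tau i) := by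
          rw [← h]
          exact r.2
        exact ⟨i, (hF' i).2 ⟨hi, h1⟩, Subtype.ext h.symm⟩
    have hsub : F' ⊆ F := fun i hi => (hF i).2 ((hF' i).1 hi).1
    have hq0 : q.1 (Fin.last m) ≠ 0 := by
      intro h
      rw [← hH.1] at h
      have h1 := congrArg Fin.val (q.1.injective h)
      rw [Fin.val_last] at h1
      have h2 : m = 0 := h1
      omega
    rw [hd1]
    by_cases hT : ∃ t, a t = q.1 (Fin.last m)
    · -- the exceptional end vertex
      obtain ⟨t, ht⟩ := hT
      have hne : q.1 (Fin.last m) ≠ Fin.last m := by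
        rw [← ht]
        exact hal t
      have h4 : F.card + 1 = 4 := by
        rw [hcard, ← ht]
        refine hda t ?_
        rw [ht]
        exact hq0
      -- the two positions
      have hpb : (q.1.symm (b t)).val ≠ m := by
        intro h
        have h1 : q.1.symm (b t) = Fin.last m := Fin.ext h
        have h2 : b t = q.1 (Fin.last m) := by rw [← h1, Equiv.apply_symm_apply]
        exact hb t t (h2.trans ht.symm)
      have hpd : (q.1.symm (d t)).val ≠ m := by
        intro h
        have h1 : q.1.symm (d t) = Fin.last m := Fin.ext h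
        have h2 : d t = q.1 (Fin.last m) := by rw [← h1, Equiv.apply_symm_apply]
        exact hd t t (h2.trans ht.symm)
      have hpbd : (q.1.symm (b t)).val ≠ (q.1.symm (d t)).val :=
        fun h => hbd t (q.1.symm.injective (Fin.ext h))
      have hb2 := (q.1.symm (b t)).2
      have hd2 := (q.1.symm (d t)).2
      obtain ⟨i₀, x, x', hxx, hi₀, hlt⟩ : ∃ i₀ x x',
          ((x = b t ∧ x' = d t) ∨ (x = d t ∧ x' = b t)) ∧ q.1 i₀ = x ∧ i₀ < q.1.symm x' := by
        rcases Nat.lt_or_ge (q.1.symm (b t)).val (q.1.symm (d t)).val with h | h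
        · exact ⟨q.1.symm (b t), b t, d t, Or.inl ⟨rfl, rfl⟩, Equiv.apply_symm_apply _ _, h⟩
        · refine ⟨q.1.symm (d t), d t, b t, Or.inr ⟨rfl, rfl⟩, Equiv.apply_symm_apply _ _, ?_⟩
          rw [Fin.lt_def]
          omega
      have hlt' : i₀.val < (q.1.symm x').val := hlt
      have hx'm : (q.1.symm x').val < m := by
        have := (q.1.symm x').2
        rcases hxx with ⟨-, rfl⟩ | ⟨-, rfl⟩
        · omega
        · omega
      have hallow : Allow A q.1 i₀ := by
        refine ⟨by omega, ?_⟩
        rw [hi₀, ← ht]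
        rcases hxx with ⟨rfl, -⟩ | ⟨rfl, -⟩
        · exact hab t
        · exact had t
      have hF'e : F' = F.erase i₀ := by
        ext i
        rw [Finset.mem_erase, hF, hF']
        constructor
        · rintro ⟨h1, h2⟩
          refine ⟨?_, h1⟩
          rintro rfl
          exact leave q.1 hH i hallow t ht x x' hxx hi₀ hlt h2
        · rintro ⟨h1, h2⟩
          refine ⟨h2, stay q.1 q.2 i h2 ?_⟩
          intro t' ht' h3
          have h4 : t' = t := hinj (ht'.trans ht.symm)
          subst h4
          apply h1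
          apply q.1.injective
          rw [hi₀]
          rcases h3 with ⟨h5, h6⟩ | ⟨h5, h6⟩
          · rcases hxx with ⟨h7, h8⟩ | ⟨h7, h8⟩
            · rw [h5, h7]
            · exfalso
              -- `i` is the position of `b`, before `d`; `i₀` is the position of `d`, before `b`
              have h9 : q.1.symm (b t') = i := by rw [← h5, Equiv.symm_apply_apply]
              have h10 : q.1.symm (d t') = i₀ := by rw [← h7, ← hi₀, Equiv.symm_apply_apply]
              rw [h10] at h6
              rw [h8, h9] at hlt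
              exact absurd h6 (not_lt.2 (le_of_lt hlt))
          · rcases hxx with ⟨h7, h8⟩ | ⟨h7, h8⟩
            · exfalso
              have h9 : q.1.symm (d t') = i := by rw [← h5, Equiv.symm_apply_apply]
              have h10 : q.1.symm (b t') = i₀ := by rw [← h7, ← hi₀, Equiv.symm_apply_apply]
              rw [h10] at h6
              rw [h8, h9] at hlt
              exact absurd h6 (not_lt.2 (le_of_lt hlt))
            · rw [h5, h7]
      have hc : F'.card = 2 := by
        rw [hF'e, Finset.card_erase_of_mem ((hF _).2 hallow)]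
        omega
      rw [hc]
      constructor
      · intro h
        exact absurd h (by decide)
      · intro h
        exact absurd h hne
    · have hT' : ∀ t, a t ≠ q.1 (Fin.last m) := fun t ht => hT ⟨t, ht⟩
      have hFF : F' = F := by
        refine Finset.Subset.antisymm hsub fun i hi => ?_
        exact (hF' i).2 ⟨(hF i).1 hi, stay q.1 q.2 i ((hF i).1 hi) fun t ht => absurd ht (hT' t)⟩
      rw [hFF]
      by_cases hl : q.1 (Fin.last m) = Fin.last m
      · have h2 : F.card + 1 = 2 := by rw [hcard, hl, hdl]
        have h3 : F.card = 1 := by omega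
        rw [h3]
        exact ⟨fun _ => hl, fun _ => by decide⟩
      · have h2 : F.card + 1 = 3 := by rw [hcard, hdx _ hq0 hl hT']
        have h3 : F.card = 2 := by omega
        rw [h3]
        constructor
        · intro h
          exact absurd h (by decide)
        · intro h
          exact absurd h hl
  have hfin := Γ.even_card_odd_degree_vertices
  have hset : (Finset.univ.filter fun q : {q // Cl q} => Odd (Γ.degree q)).card =
      Nat.card {q : Equiv.Perm (Fin (m + 1)) // Ham A q ∧
      (∀ t, omega (π t) (b t) (d t) (c t) q = 1) ∧ q (Fin.last m) = Fin.last m} := by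
    rw [Nat.card_eq_fintype_card, Fintype.card_subtype]
    refine Finset.card_bij (fun q _ => q.1) ?_ ?_ ?_
    · intro q hq
      rw [Finset.mem_filter] at hq ⊢
      obtain ⟨h1, h2⟩ := (hCl _).1 q.2
      exact ⟨Finset.mem_univ _, h1, h2, (hdeg q).1 hq.2⟩
    · intro q _ r _ h
      exact Subtype.ext h
    · intro r hr
      rw [Finset.mem_filter] at hr
      refine ⟨⟨r, (hCl r).2 ⟨hr.2.1, hr.2.2.1⟩⟩, ?_, rfl⟩
      rw [Finset.mem_filter]
      exact ⟨Finset.mem_univ _, (hdeg _).2 hr.2.2.2⟩
  rw [← hset]
  exact hfin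

end Pool.Agent.LC
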