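import Mathlib

namespace Pool.Agent.LC

open SimpleGraph

/-- Hamiltonian paths of `A` that start at `0`, written as permutations of the vertex set. -/
def Ham {m : ℕ} (A : SimpleGraph (Fin (m + 1))) (q : Equiv.Perm (Fin (m + 1))) : Prop :=
  q 0 = 0 ∧ ∀ j : Fin m, A.Adj (q j.castSucc) (q j.succ)

/-- Sum of the weights of the steps of `q` before position `k`. -/
def pre {m : ℕ} (π : Fin (m + 1) → Fin (m + 1) → ZMod 2) (q : Equiv.Perm (Fin (m + 1)))
    (k : Fin (m + 1)) : ZMod 2 :=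
  ∑ j : Fin m, if j.castSucc < k then π (q j.castSucc) (q j.succ) else 0

def omega {m : ℕ} (π : Fin (m + 1) → Fin (m + 1) → ZMod 2) (b d : Fin (m + 1)) (c : ZMod 2)
    (q : Equiv.Perm (Fin (m + 1))) : ZMod 2 :=
  pre π q (q.symm b) + pre π q (q.symm d) + c

def loopSum {m : ℕ} (π : Fin (m + 1) → Fin (m + 1) → ZMod 2) (q : Equiv.Perm (Fin (m + 1)))
    (i : Fin (m + 1)) : ZMod 2 :=
  pre π q i + pre π q (Fin.last m) + π (q (Fin.last m)) (q i)

end Pool.Agent.LC
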