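import Mathlib

namespace Pool.Agent.LC

open SimpleGraph

/-- A rotation system (combinatorial embedding) of a simple graph: a permutation of the darts
(oriented edges) that keeps the tail of every dart and permutes the darts with a given tail
in one cycle. -/
structure Rotation {V : Type*} (G : SimpleGraph V) where
  next : Equiv.Perm G.Dart
  fst_next : ∀ d : G.Dart, (next d).fst = d.fst
  cyclic : ∀ d d' : G.Dart, d.fst = d'.fst → next.SameCycle d d'

/-- The face permutation: reverse the dart, then take the next dart at its new tail. -/
def Rotation.face {V : Type*} {G : SimpleGraph V} (R : Rotation G) : Equiv.Perm G.Dart :=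
  (Function.Involutive.toPerm (SimpleGraph.Dart.symm : G.Dart → G.Dart)
    SimpleGraph.Dart.symm_symm).trans R.next

theorem Rotation.face_apply {V : Type*} {G : SimpleGraph V} (R : Rotation G) (d : G.Dart) :
    R.face d = R.next d.symm := rfl

end Pool.Agent.LC
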