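import Pool.Agent.LC.SetupDefs

namespace Pool.Agent.LC

open SimpleGraph

variable {V : Type*} {G : SimpleGraph V}

namespace Setup

theorem rel_refl (s : Setup G) (i : Fin (s.m + 1)) : s.rel i i := SimpleGraph.Reachable.refl _

theorem rel_symm (s : Setup G) {i j : Fin (s.m + 1)} (h : s.rel i j) : s.rel j i :=
  SimpleGraph.Reachable.symm h

theorem rel_trans (s : Setup G) {i j k : Fin (s.m + 1)} (h : s.rel i j) (h' : s.rel j k) :
    s.rel i k := SimpleGraph.Reachable.trans h h'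

theorem a_lt_b (s : Setup G) (t : s.T) : s.a t < s.b t := t.2.1

theorem b_lt_d (s : Setup G) (t : s.T) : s.b t < s.d t := t.2.2.1

theorem rel_ab (s : Setup G) (t : s.T) : s.rel (s.a t) (s.b t) := t.2.2.2.1

theorem rel_ad (s : Setup G) (t : s.T) : s.rel (s.a t) (s.d t) := t.2.2.2.2

theorem a_lt_d (s : Setup G) (t : s.T) : s.a t < s.d t := (s.a_lt_b t).trans (s.b_lt_d t)

/-- the members of the block of a triple -/
theorem rel_triple (s : Setup G) (t : s.T) (k : Fin (s.m + 1)) :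
    s.rel (s.a t) k ↔ (k = s.a t ∨ k = s.b t ∨ k = s.d t) := by
  constructor
  · intro h
    by_contra hk
    rw [not_or, not_or] at hk
    exact s.three (s.a t) (s.b t) (s.d t) k (ne_of_lt (s.a_lt_b t)) (ne_of_lt (s.a_lt_d t))
      (Ne.symm hk.1) (ne_of_lt (s.b_lt_d t)) (Ne.symm hk.2.1) (Ne.symm hk.2.2) (s.rel_ab t)
      (s.rel_ad t) h
  · rintro (h | h | h)
    · rw [h]
      exact s.rel_refl _
    · rw [h]
      exact s.rel_ab t
    · rw [h]
      exact s.rel_ad t

theorem isMin_a (s : Setup G) (t : s.T) : s.isMin (s.a t) := by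
  intro j hj
  rcases (s.rel_triple t j).1 hj with h | h | h
  · exact le_of_eq h.symm
  · rw [h]
    exact le_of_lt (s.a_lt_b t)
  · rw [h]
    exact le_of_lt (s.a_lt_d t)

theorem a_inj (s : Setup G) : Function.Injective s.a := by
  intro t t' h
  have h1 : s.rel (s.a t) (s.b t') := by
    rw [h]
    exact s.rel_ab t'
  have h2 : s.rel (s.a t) (s.d t') := by
    rw [h]
    exact s.rel_ad t'
  have ha := s.a_lt_b t
  have ha' := s.a_lt_b t'
  have hb := s.b_lt_d t
  have hb' := s.b_lt_d t'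
  have e1 := (s.rel_triple t _).1 h1
  have e2 := (s.rel_triple t _).1 h2
  have e3 : s.b t' = s.b t := by
    rcases e1 with e | e | e
    · rw [e, h] at ha'
      exact absurd ha' (lt_irrefl _)
    · exact e
    · exfalso
      rcases e2 with e' | e' | e'
      · rw [e', h] at hb'
        exact absurd (ha'.trans hb') (lt_irrefl _)
      · rw [e, e'] at hb'
        exact absurd (hb.trans hb') (lt_irrefl _)
      · rw [e, e'] at hb'
        exact absurd hb' (lt_irrefl _)
  have e4 : s.d t' = s.d t := by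
    rcases e2 with e' | e' | e'
    · rw [e', h] at hb'
      exact absurd (ha'.trans hb') (lt_irrefl _)
    · rw [e', e3] at hb'
      exact absurd hb' (lt_irrefl _)
    · exact e'
  refine Subtype.ext (Prod.ext h (Prod.ext e3.symm e4.symm))

theorem adj_ab (s : Setup G) (t : s.T) : s.A.Adj (s.a t) (s.b t) :=
  Or.inr ⟨ne_of_lt (s.a_lt_b t), s.rel_ab t, Or.inl (s.isMin_a t)⟩

theorem adj_ad (s : Setup G) (t : s.T) : s.A.Adj (s.a t) (s.d t) :=
  Or.inr ⟨ne_of_lt (s.a_lt_d t), s.rel_ad t, Or.inl (s.isMin_a t)⟩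

theorem b_ne_d (s : Setup G) (t : s.T) : s.b t ≠ s.d t := ne_of_lt (s.b_lt_d t)

theorem b_ne_a (s : Setup G) (t t' : s.T) : s.b t ≠ s.a t' := by
  intro h
  have h1 := s.isMin_a t' (s.a t) (by rw [← h]; exact s.rel_symm (s.rel_ab t))
  rw [← h] at h1
  exact absurd (s.a_lt_b t) (not_lt.2 h1)

theorem d_ne_a (s : Setup G) (t t' : s.T) : s.d t ≠ s.a t' := by
  intro h
  have h1 := s.isMin_a t' (s.a t) (by rw [← h]; exact s.rel_symm (s.rel_ad t))
  rw [← h] at h1
  exact absurd (s.a_lt_d t) (not_lt.2 h1)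

theorem b_ne_zero (s : Setup G) (t : s.T) : s.b t ≠ 0 := by
  intro h
  have h1 := s.a_lt_b t
  rw [h] at h1
  exact absurd h1 (Fin.not_lt_zero _)

theorem d_ne_zero (s : Setup G) (t : s.T) : s.d t ≠ 0 := by
  intro h
  have h1 := s.a_lt_d t
  rw [h] at h1
  exact absurd h1 (Fin.not_lt_zero _)

theorem a_ne_last (s : Setup G) (t : s.T) : s.a t ≠ Fin.last s.m := by
  intro h
  have h1 := s.a_lt_b t
  rw [h] at h1
  exact absurd h1 (not_lt.2 (Fin.le_last _))

theorem not_cons_blk (s : Setup G) {i j : Fin (s.m + 1)} (h : s.cons i j) : ¬ s.rel i j := by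
  have key : ∀ i j : Fin (s.m + 1), i.val + 1 = j.val → ¬ s.rel i j := by
    intro i j h
    have hj := j.2
    have h1 := s.nc ⟨i.val, by omega⟩
    have h2 : (⟨i.val, by omega⟩ : Fin s.m).castSucc = i := Fin.ext rfl
    have h3 : (⟨i.val, by omega⟩ : Fin s.m).succ = j := Fin.ext h
    rwa [h2, h3] at h1
  rcases h with h | h
  · exact key i j h
  · exact fun h' => key j i h (s.rel_symm h')

/-- three vertices of one block, one of them the first one -/
theorem exists_triple (s : Setup G) {i j k : Fin (s.m + 1)} (hi : s.isMin i) (hj : s.rel i j)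
    (hk : s.rel i k) (hji : j ≠ i) (hki : k ≠ i) (hjk : j ≠ k) :
    ∃ t, s.a t = i ∧ ((j = s.b t ∧ k = s.d t) ∨ (j = s.d t ∧ k = s.b t)) := by
  have h1 : i < j := lt_of_le_of_ne (hi j hj) hji.symm
  have h2 : i < k := lt_of_le_of_ne (hi k hk) hki.symm
  rcases lt_or_gt_of_ne hjk with h | h
  · exact ⟨⟨(i, j, k), h1, h, hj, hk⟩, rfl, Or.inl ⟨rfl, rfl⟩⟩
  · exact ⟨⟨(i, k, j), h2, h, hk, hj⟩, rfl, Or.inr ⟨rfl, rfl⟩⟩

/-- the first vertex of a block -/
theorem exists_min (s : Setup G) (i : Fin (s.m + 1)) : ∃ k, s.rel i k ∧ s.isMin k := by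
  classical
  obtain ⟨k, hk, hmin⟩ := Finset.exists_min_image (Finset.univ.filter fun k => s.rel i k) id
    ⟨i, Finset.mem_filter.2 ⟨Finset.mem_univ _, s.rel_refl i⟩⟩
  have hk' := (Finset.mem_filter.1 hk).2
  refine ⟨k, hk', fun j hj => ?_⟩
  exact hmin j (Finset.mem_filter.2 ⟨Finset.mem_univ _, s.rel_trans hk' hj⟩)

theorem min_unique (s : Setup G) {i j k : Fin (s.m + 1)} (hj : s.rel i j) (hk : s.rel i k)
    (mj : s.isMin j) (mk : s.isMin k) : j = k :=
  le_antisymm (mj k (s.rel_trans (s.rel_symm hj) hk)) (mk j (s.rel_trans (s.rel_symm hk) hj))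

/-- a vertex which is not the first one of a triple has only one neighbour by a block edge -/
theorem blk_unique (s : Setup G) (x : Fin (s.m + 1)) (h : ∀ t, s.a t ≠ x) :
    ∃ j, ∀ k, s.blk x k ↔ k = j := by
  by_cases hx : s.isMin x
  · obtain ⟨j, hjx, hj⟩ := s.good x
    refine ⟨j, fun k => ⟨?_, ?_⟩⟩
    · rintro ⟨h1, h2, -⟩
      by_contra hne
      obtain ⟨t, ht, -⟩ := s.exists_triple hx h2 hj h1.symm hjx hne
      exact h t ht
    · rintro rfl
      exact ⟨hjx.symm, hj, Or.inl hx⟩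
  · obtain ⟨j, hj, hjm⟩ := s.exists_min x
    refine ⟨j, fun k => ⟨?_, ?_⟩⟩
    · rintro ⟨-, h2, h3 | h3⟩
      · exact absurd h3 hx
      · exact s.min_unique h2 hj h3 hjm
    · rintro rfl
      refine ⟨?_, hj, Or.inr hjm⟩
      rintro rfl
      exact hx hjm

theorem deg_last (s : Setup G) : (s.A.neighborSet (Fin.last s.m)).ncard = 2 := by
  obtain ⟨j, hj⟩ := s.blk_unique (Fin.last s.m) s.a_ne_last
  have hm := s.hm
  have hl : (Fin.last s.m).val = s.m := Fin.val_last _
  obtain ⟨p, hp⟩ : ∃ p : Fin (s.m + 1), p.val = s.m - 1 := ⟨⟨s.m - 1, by omega⟩, rfl⟩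
  have hpj : p ≠ j := by
    rintro rfl
    have h1 : s.cons (Fin.last s.m) p := Or.inr (by rw [hp, hl]; omega)
    exact s.not_cons_blk h1 ((hj p).2 rfl).2.1
  have heq : s.A.neighborSet (Fin.last s.m) = {p, j} := by
    ext k
    rw [mem_neighborSet, Set.mem_insert_iff, Set.mem_singleton_iff]
    have hk := k.2
    constructor
    · rintro (h | h)
      · left
        apply Fin.ext
        rcases h with h | h
        · omega
        · omega
      · exact Or.inr ((hj k).1 h)
    · rintro (h | h)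
      · refine Or.inl (Or.inr ?_)
        rw [h, hp, hl]
        omega
      · exact Or.inr ((hj k).2 h)
  rw [heq, Set.ncard_pair hpj]

/-- the two neighbours on the path -/
theorem exists_pred_succ (s : Setup G) (x : Fin (s.m + 1)) (h0 : x ≠ 0) (hl : x ≠ Fin.last s.m) :
    ∃ p n : Fin (s.m + 1), p ≠ n ∧ ∀ k, s.cons x k ↔ (k = p ∨ k = n) := by
  have h0' : x.val ≠ 0 := fun h => h0 (Fin.ext h)
  have hl' : x.val ≠ s.m := fun h => hl (Fin.ext h)
  have hx := x.2
  obtain ⟨p, hp⟩ : ∃ p : Fin (s.m + 1), p.val = x.val - 1 := ⟨⟨x.val - 1, by omega⟩, rfl⟩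
  obtain ⟨n, hn⟩ : ∃ n : Fin (s.m + 1), n.val = x.val + 1 := ⟨⟨x.val + 1, by omega⟩, rfl⟩
  refine ⟨p, n, ?_, fun k => ⟨?_, ?_⟩⟩
  · intro h
    have := congrArg Fin.val h
    omega
  · rintro (h | h)
    · exact Or.inr (Fin.ext (by omega))
    · exact Or.inl (Fin.ext (by omega))
  · rintro (h | h)
    · right
      rw [h]
      omega
    · left
      rw [h]
      omega

theorem deg_a (s : Setup G) (t : s.T) (h : s.a t ≠ 0) :
    (s.A.neighborSet (s.a t)).ncard = 4 := by
  obtain ⟨p, n, hpn, hpn'⟩ := s.exists_pred_succ (s.a t) h (s.a_ne_last t)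
  have hp : s.cons (s.a t) p := (hpn' p).2 (Or.inl rfl)
  have hn : s.cons (s.a t) n := (hpn' n).2 (Or.inr rfl)
  have hpb : p ≠ s.b t := by
    rintro rfl
    exact s.not_cons_blk hp (s.rel_ab t)
  have hpd : p ≠ s.d t := by
    rintro rfl
    exact s.not_cons_blk hp (s.rel_ad t)
  have hnb : n ≠ s.b t := by
    rintro rfl
    exact s.not_cons_blk hn (s.rel_ab t)
  have hnd : n ≠ s.d t := by
    rintro rfl
    exact s.not_cons_blk hn (s.rel_ad t)
  have heq : s.A.neighborSet (s.a t) =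
      (({p, n, s.b t, s.d t} : Finset (Fin (s.m + 1))) : Set (Fin (s.m + 1))) := by
    ext k
    rw [mem_neighborSet, Finset.mem_coe, Finset.mem_insert, Finset.mem_insert, Finset.mem_insert,
      Finset.mem_singleton]
    constructor
    · rintro (h1 | ⟨h1, h2, -⟩)
      · rcases (hpn' k).1 h1 with h3 | h3
        · exact Or.inl h3
        · exact Or.inr (Or.inl h3)
      · rcases (s.rel_triple t k).1 h2 with h3 | h3 | h3
        · exact absurd h3.symm h1
        · exact Or.inr (Or.inr (Or.inl h3))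
        · exact Or.inr (Or.inr (Or.inr h3))
    · rintro (h1 | h1 | h1 | h1)
      · rw [h1]
        exact Or.inl hp
      · rw [h1]
        exact Or.inl hn
      · rw [h1]
        exact s.adj_ab t
      · rw [h1]
        exact s.adj_ad t
  rw [heq, Set.ncard_coe_finset, Finset.card_insert_of_notMem, Finset.card_insert_of_notMem,
    Finset.card_pair (s.b_ne_d t)]
  · rw [Finset.mem_insert, Finset.mem_singleton, not_or]
    exact ⟨hnb, hnd⟩
  · rw [Finset.mem_insert, Finset.mem_insert, Finset.mem_singleton, not_or, not_or]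
    exact ⟨hpn, hpb, hpd⟩

theorem deg_x (s : Setup G) (x : Fin (s.m + 1)) (h0 : x ≠ 0) (hl : x ≠ Fin.last s.m)
    (ht : ∀ t, s.a t ≠ x) : (s.A.neighborSet x).ncard = 3 := by
  obtain ⟨p, n, hpn, hpn'⟩ := s.exists_pred_succ x h0 hl
  obtain ⟨j, hj⟩ := s.blk_unique x ht
  have hp : s.cons x p := (hpn' p).2 (Or.inl rfl)
  have hn : s.cons x n := (hpn' n).2 (Or.inr rfl)
  have hb := (hj j).2 rfl
  have hpj : p ≠ j := by
    rintro rfl
    exact s.not_cons_blk hp hb.2.1
  have hnj : n ≠ j := by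
    rintro rfl
    exact s.not_cons_blk hn hb.2.1
  refine Set.ncard_eq_three.2 ⟨p, n, j, hpn, hpj, hnj, ?_⟩
  ext k
  rw [mem_neighborSet, Set.mem_insert_iff, Set.mem_insert_iff, Set.mem_singleton_iff]
  constructor
  · rintro (h1 | h1)
    · rcases (hpn' k).1 h1 with h3 | h3
      · exact Or.inl h3
      · exact Or.inr (Or.inl h3)
    · exact Or.inr (Or.inr ((hj k).1 h1))
  · rintro (h1 | h1 | h1)
    · rw [h1]
      exact Or.inl hp
    · rw [h1]
      exact Or.inl hn
    · exact Or.inr ((hj k).2 h1)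

/-- a block edge is either a pair, or one of the two edges of a triple -/
theorem blk_cases (s : Setup G) {i j : Fin (s.m + 1)} (h : s.blk i j) :
    (∀ k, s.rel i k ↔ (k = i ∨ k = j)) ∨
    (∃ t, (i = s.a t ∧ (j = s.b t ∨ j = s.d t)) ∨ (j = s.a t ∧ (i = s.b t ∨ i = s.d t))) := by
  obtain ⟨hij, hr, hmin⟩ := h
  by_cases hex : ∃ k, s.rel i k ∧ k ≠ i ∧ k ≠ j
  · right
    obtain ⟨k, hk, hki, hkj⟩ := hex
    rcases hmin with hi | hj
    · obtain ⟨t, ht, h1⟩ := s.exists_triple hi hr hk hij.symm hki hkj.symm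
      refine ⟨t, Or.inl ⟨ht.symm, ?_⟩⟩
      rcases h1 with h1 | h1
      · exact Or.inl h1.1
      · exact Or.inr h1.1
    · obtain ⟨t, ht, h1⟩ := s.exists_triple hj (s.rel_symm hr)
        (s.rel_trans (s.rel_symm hr) hk) hij hkj hki.symm
      refine ⟨t, Or.inr ⟨ht.symm, ?_⟩⟩
      rcases h1 with h1 | h1
      · exact Or.inl h1.1
      · exact Or.inr h1.1
  · left
    intro k
    constructor
    · intro hk
      by_contra h1
      rw [not_or] at h1
      exact hex ⟨k, hk, h1.1, h1.2⟩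
    · rintro (rfl | rfl)
      · exact s.rel_refl _
      · exact hr

end Setup

end Pool.Agent.LC
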