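import Pool.Agent.LC.MkSetup

/-!
From the new path to a second cycle through a given edge, and to three longest cycles.
-/

namespace Pool.Agent.LC

open SimpleGraph

theorem fin_last_or {m : ℕ} (i : Fin (m + 1)) : (i = Fin.last m ∧ i + 1 = 0) ∨
    ∃ j : Fin m, i = j.castSucc ∧ i + 1 = j.succ := by
  induction i using Fin.lastCases with
  | last => exact Or.inl ⟨rfl, Fin.last_add_one m⟩
  | cast j => exact Or.inr ⟨j, rfl, Fin.coeSucc_eq_succ⟩

/-- a listing of a cycle with a prescribed closing edge -/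
theorem cycle_listing_edge {V : Type*} [DecidableEq V] (G : SimpleGraph V) {u : V} (C : G.Walk u u)
    (hC : C.IsCycle) (e : Sym2 V) (he : e ∈ C.edges) :
    ∃ (m : ℕ) (_ : 2 ≤ m) (vtx : Fin (m + 1) → V), Function.Injective vtx ∧
      (∀ j : Fin m, G.Adj (vtx j.castSucc) (vtx j.succ)) ∧ G.Adj (vtx (Fin.last m)) (vtx 0) ∧
      C.length = m + 1 ∧ (∀ x, x ∈ C.support ↔ ∃ i, vtx i = x) ∧
      (∀ f, f ∈ C.edges ↔ (f = s(vtx (Fin.last m), vtx 0) ∨
        ∃ j : Fin m, f = s(vtx j.castSucc, vtx j.succ))) ∧ e = s(vtx (Fin.last m), vtx 0) := by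
  obtain ⟨m, hm, vtx, inj, adj, adj0, hlen, hs, hE⟩ := cycle_listing G C hC
  have cyc : ∀ i, G.Adj (vtx i) (vtx (i + 1)) := by
    intro i
    rcases fin_last_or i with ⟨h1, h2⟩ | ⟨j, h1, h2⟩
    · rw [h2, h1]; exact adj0
    · rw [h2, h1]; exact adj j
  have key : ∀ (w : Fin (m + 1) → V) (f : Sym2 V), (f = s(w (Fin.last m), w 0) ∨
      ∃ j : Fin m, f = s(w j.castSucc, w j.succ)) ↔ ∃ i, f = s(w i, w (i + 1)) := by
    intro w f
    constructor
    · rintro (h | ⟨j, h⟩)
      · exact ⟨Fin.last m, by rw [Fin.last_add_one]; exact h⟩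
      · exact ⟨j.castSucc, by rw [Fin.coeSucc_eq_succ]; exact h⟩
    · rintro ⟨i, h⟩
      rcases fin_last_or i with ⟨h1, h2⟩ | ⟨j, h1, h2⟩
      · left; rw [h, h2, h1]
      · right; exact ⟨j, by rw [h, h2, h1]⟩
  obtain ⟨c, hc⟩ := (key vtx e).1 ((hE e).1 he)
  refine ⟨m, hm, fun i => vtx (i + (c + 1)), ?_, ?_, ?_, hlen, ?_, ?_, ?_⟩
  · intro i j hij
    exact add_right_cancel (inj hij)
  · intro j
    have h := cyc (j.castSucc + (c + 1))
    have e1 : j.castSucc + (c + 1) + 1 = j.succ + (c + 1) := by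
      rw [← Fin.coeSucc_eq_succ]; abel
    rw [e1] at h
    exact h
  · have h := cyc (Fin.last m + (c + 1))
    have e1 : Fin.last m + (c + 1) + 1 = 0 + (c + 1) := by
      rw [← Fin.last_add_one m]; abel
    rw [e1] at h
    exact h
  · intro x
    rw [hs x]
    constructor
    · rintro ⟨i, hi⟩
      exact ⟨i - (c + 1), by simp only [sub_add_cancel]; exact hi⟩
    · rintro ⟨i, hi⟩
      exact ⟨_, hi⟩
  · intro f
    rw [hE f, key vtx f, key (fun i => vtx (i + (c + 1))) f]
    constructor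
    · rintro ⟨i, hi⟩
      refine ⟨i - (c + 1), ?_⟩
      have e1 : i - (c + 1) + 1 + (c + 1) = i + 1 := by abel
      simp only [sub_add_cancel, e1]
      exact hi
    · rintro ⟨i, hi⟩
      refine ⟨i + (c + 1), ?_⟩
      have e1 : i + (c + 1) + 1 = i + 1 + (c + 1) := by abel
      simp only [e1]
      exact hi
  · have e1 : Fin.last m + (c + 1) = c := by
      have : Fin.last m + (c + 1) = (Fin.last m + 1) + c := by abel
      rw [this, Fin.last_add_one, zero_add]
    simp only [e1, zero_add]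
    exact hc

/-- Every cycle of a 2-connected cubic planar graph and each of its edges: there is a second cycle
through that edge covering the vertices of the first. -/
theorem second_cycle_edge {V : Type*} [Fintype V] [DecidableEq V] (G : SimpleGraph V)
    [DecidableRel G.Adj] (h3 : G.IsRegularOfDegree 3) (h2 : TwoConnected G)
    (hnew : ∀ s : Setup G, ∃ W : G.Walk (s.vtx 0) (s.vtx (Fin.last s.m)), W.IsPath ∧
      (∀ i, s.vtx i ∈ W.support) ∧ s(s.vtx (Fin.last s.m), s.vtx 0) ∉ W.edges ∧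
      ∃ e ∈ W.edges, e ≠ s(s.vtx (Fin.last s.m), s.vtx 0) ∧
        ∀ j : Fin s.m, e ≠ s(s.vtx j.castSucc, s.vtx j.succ))
    {u : V} (C : G.Walk u u) (hC : C.IsCycle) (e : Sym2 V) (he : e ∈ C.edges) :
    ∃ (w : V) (C' : G.Walk w w), C'.IsCycle ∧ e ∈ C'.edges ∧
      (∀ x, x ∈ C.support → x ∈ C'.support) ∧ ∃ f ∈ C'.edges, f ∉ C.edges := by
  obtain ⟨m, hm, vtx, inj, adj, adj0, hlen, hs, hE, heq⟩ := cycle_listing_edge G C hC e he
  have main : ∃ W : G.Walk (vtx 0) (vtx (Fin.last m)), W.IsPath ∧ (∀ i, vtx i ∈ W.support) ∧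
      s(vtx (Fin.last m), vtx 0) ∉ W.edges ∧
      ∃ e ∈ W.edges, e ≠ s(vtx (Fin.last m), vtx 0) ∧
        ∀ j : Fin m, e ≠ s(vtx j.castSucc, vtx j.succ) := by
    rcases setup_or_detour G h3 h2 C hC m hm vtx inj adj adj0 hs hE with h | ⟨s, hsm, hv⟩
    · exact h
    · subst hsm
      have e1 : s.vtx = vtx := by
        funext i
        exact hv i
      subst e1
      exact hnew s
  obtain ⟨W, hW, hcov, hnot, f, hf, hf1, hf2⟩ := main
  refine ⟨vtx (Fin.last m), Walk.cons adj0 W, ?_, ?_, ?_, f, ?_, ?_⟩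
  · rw [Walk.cons_isCycle_iff]
    exact ⟨hW, hnot⟩
  · rw [Walk.edges_cons, heq]
    exact List.mem_cons_self
  · intro x hx
    obtain ⟨i, rfl⟩ := (hs x).1 hx
    rw [Walk.support_cons]
    exact List.mem_cons_of_mem _ (hcov i)
  · rw [Walk.edges_cons]
    exact List.mem_cons_of_mem _ hf
  · rw [hE f]
    rintro (h | ⟨j, h⟩)
    · exact hf1 h
    · exact hf2 j h


/-- `C` is a longest cycle of `G`. -/
def IsLongest {V : Type*} (G : SimpleGraph V) {u : V} (C : G.Walk u u) : Prop :=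
  C.IsCycle ∧ ∀ (w : V) (C' : G.Walk w w), C'.IsCycle → C'.length ≤ C.length

theorem length_eq_card {V : Type*} [DecidableEq V] {G : SimpleGraph V} {u : V} (C : G.Walk u u)
    (hC : C.IsCycle) : C.length = C.support.toFinset.card := by
  have h1 : C.support.toFinset = C.support.tail.toFinset := by
    ext x
    rw [List.mem_toFinset, List.mem_toFinset]
    constructor
    · intro hx
      rw [Walk.mem_support_iff] at hx
      rcases hx with rfl | hx
      · exact Walk.end_mem_tail_support hC.not_nil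
      · exact hx
    · exact fun hx => List.mem_of_mem_tail hx
  rw [h1, List.toFinset_card_of_nodup hC.support_nodup, List.length_tail, Walk.length_support]
  simp

theorem longest_second {V : Type*} [Fintype V] [DecidableEq V] {G : SimpleGraph V}
    (hsec : ∀ (u : V) (C : G.Walk u u), C.IsCycle → ∀ e ∈ C.edges, ∃ (w : V) (C' : G.Walk w w),
      C'.IsCycle ∧ e ∈ C'.edges ∧ (∀ x, x ∈ C.support → x ∈ C'.support) ∧
      ∃ f ∈ C'.edges, f ∉ C.edges)
    {u : V} (C : G.Walk u u) (hC : IsLongest G C) (e : Sym2 V) (he : e ∈ C.edges) :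
    ∃ (w : V) (C' : G.Walk w w), IsLongest G C' ∧ C'.length = C.length ∧
      (∀ x, x ∈ C'.support ↔ x ∈ C.support) ∧ e ∈ C'.edges ∧ ∃ f ∈ C'.edges, f ∉ C.edges := by
  obtain ⟨w, C', hC', he', hcov, hf⟩ := hsec u C hC.1 e he
  have h1 : C'.length ≤ C.length := hC.2 w C' hC'
  have h2 : C.support.toFinset ⊆ C'.support.toFinset := fun x hx => by
    rw [List.mem_toFinset] at hx ⊢
    exact hcov x hx
  have h3 : C'.support.toFinset.card ≤ C.support.toFinset.card := by
    rw [← length_eq_card C hC.1, ← length_eq_card C' hC']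
    exact h1
  have h4 := Finset.eq_of_subset_of_card_le h2 h3
  have h5 : C'.length = C.length := by
    rw [length_eq_card C hC.1, length_eq_card C' hC', h4]
  refine ⟨w, C', ⟨hC', fun w' C'' h'' => by rw [h5]; exact hC.2 w' C'' h''⟩, h5, fun x => ?_,
    he', hf⟩
  rw [← List.mem_toFinset, ← h4, List.mem_toFinset]

theorem three_longest {V : Type*} [Fintype V] [DecidableEq V] {G : SimpleGraph V}
    (hsec : ∀ (u : V) (C : G.Walk u u), C.IsCycle → ∀ e ∈ C.edges, ∃ (w : V) (C' : G.Walk w w),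
      C'.IsCycle ∧ e ∈ C'.edges ∧ (∀ x, x ∈ C.support → x ∈ C'.support) ∧
      ∃ f ∈ C'.edges, f ∉ C.edges)
    {u : V} (C : G.Walk u u) (hC : IsLongest G C) :
    3 ≤ {E : Set (Sym2 V) | ∃ (w : V) (C' : G.Walk w w), IsLongest G C' ∧
      (∀ x, x ∈ C'.support ↔ x ∈ C.support) ∧ E = {e | e ∈ C'.edges}}.ncard := by
  obtain ⟨e0, he0⟩ : ∃ e, e ∈ C.edges := by
    have h := hC.1.three_le_length
    rw [← Walk.length_edges] at h
    exact List.exists_mem_of_length_pos (by omega)
  obtain ⟨w1, C1, hC1, hl1, hs1, -, f1, hf1, hf1'⟩ := longest_second hsec C hC e0 he0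
  obtain ⟨e1, he1, he1'⟩ : ∃ e ∈ C.edges, e ∉ C1.edges := by
    by_contra hcon
    push Not at hcon
    have h2 : C.edges.toFinset ⊆ C1.edges.toFinset := fun x hx => by
      rw [List.mem_toFinset] at hx ⊢
      exact hcon x hx
    have h3 : C1.edges.toFinset.card ≤ C.edges.toFinset.card := by
      rw [List.toFinset_card_of_nodup hC1.1.edges_nodup, List.toFinset_card_of_nodup hC.1.edges_nodup,
        Walk.length_edges, Walk.length_edges, hl1]
    have h4 := Finset.eq_of_subset_of_card_le h2 h3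
    apply hf1'
    rw [← List.mem_toFinset, h4, List.mem_toFinset]
    exact hf1
  obtain ⟨w2, C2, hC2, -, hs2, he2, f2, hf2, hf2'⟩ := longest_second hsec C hC e1 he1
  have n01 : ({e | e ∈ C.edges} : Set (Sym2 V)) ≠ {e | e ∈ C1.edges} := fun h => by
    have : f1 ∈ ({e | e ∈ C.edges} : Set (Sym2 V)) := by rw [h]; exact hf1
    exact hf1' this
  have n02 : ({e | e ∈ C.edges} : Set (Sym2 V)) ≠ {e | e ∈ C2.edges} := fun h => by
    have : f2 ∈ ({e | e ∈ C.edges} : Set (Sym2 V)) := by rw [h]; exact hf2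
    exact hf2' this
  have n12 : ({e | e ∈ C1.edges} : Set (Sym2 V)) ≠ {e | e ∈ C2.edges} := fun h => by
    have : e1 ∈ ({e | e ∈ C1.edges} : Set (Sym2 V)) := by rw [h]; exact he2
    exact he1' this
  have hsub : ({{e | e ∈ C.edges}, {e | e ∈ C1.edges}, {e | e ∈ C2.edges}} : Set (Set (Sym2 V))) ⊆
      {E : Set (Sym2 V) | ∃ (w : V) (C' : G.Walk w w), IsLongest G C' ∧
      (∀ x, x ∈ C'.support ↔ x ∈ C.support) ∧ E = {e | e ∈ C'.edges}} := by
    rintro E (rfl | rfl | rfl)
    · exact ⟨u, C, hC, fun _ => Iff.rfl, rfl⟩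
    · exact ⟨w1, C1, hC1, hs1, rfl⟩
    · exact ⟨w2, C2, hC2, hs2, rfl⟩
  have hcard : ({{e | e ∈ C.edges}, {e | e ∈ C1.edges}, {e | e ∈ C2.edges}} :
      Set (Set (Sym2 V))).ncard = 3 := by
    rw [Set.ncard_eq_three]
    exact ⟨_, _, _, n01, n02, n12, rfl⟩
  rw [← hcard]
  exact Set.ncard_le_ncard hsub (Set.toFinite _)

theorem exists_cycle {V : Type*} [Fintype V] [DecidableEq V] (G : SimpleGraph V)
    [DecidableRel G.Adj] (h3 : G.IsRegularOfDegree 3) (hc : G.Connected) :
    ∃ (u : V) (C : G.Walk u u), C.IsCycle := by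
  by_contra hcon
  push Not at hcon
  have hac : G.IsAcyclic := fun u C => hcon u C
  have htree : G.IsTree := ⟨hc, hac⟩
  have h1 := htree.card_edgeFinset
  have h2 := G.sum_degrees_eq_twice_card_edges
  have h4 : ∑ v : V, G.degree v = 3 * Fintype.card V := by
    rw [Finset.sum_congr rfl fun v _ => h3 v, Finset.sum_const, Finset.card_univ, smul_eq_mul,
      mul_comm]
  omega

theorem exists_longest {V : Type*} [Fintype V] [DecidableEq V] (G : SimpleGraph V)
    [DecidableRel G.Adj] (h3 : G.IsRegularOfDegree 3) (hc : G.Connected) :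
    ∃ (u : V) (C : G.Walk u u), IsLongest G C := by
  classical
  obtain ⟨u, C, hC⟩ := exists_cycle G h3 hc
  set P : ℕ → Prop := fun k => ∃ (u : V) (C : G.Walk u u), C.IsCycle ∧ C.length = k with hP
  have hb : ∀ (w : V) (C' : G.Walk w w), C'.IsCycle → C'.length ≤ Fintype.card V := by
    intro w C' h
    rw [length_eq_card C' h]
    exact Finset.card_le_univ _
  have h1 : P (Nat.findGreatest P (Fintype.card V)) :=
    Nat.findGreatest_spec (hb u C hC) ⟨u, C, hC, rfl⟩
  obtain ⟨w, C', hC', hl⟩ := h1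
  refine ⟨w, C', hC', fun w' C'' h => ?_⟩
  rw [hl]
  exact Nat.le_findGreatest (hb w' C'' h) ⟨w', C'', h, rfl⟩

end Pool.Agent.LC
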