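import Pool.Agent.LC.SetupDefs
import Pool.Agent.LC.Deg
import Pool.Agent.LC.Abs

namespace Pool.Agent.LC

open SimpleGraph

set_option linter.unusedSectionVars false

variable {V : Type*} [Fintype V] [DecidableEq V] {G : SimpleGraph V} {s : Setup G}
  (D : RealData s)

namespace RealData

open Classical in
/-- weights of the edges of `A` -/
noncomputable def piOf (wt : Sym2 V → ZMod 2) (x y : Fin (s.m + 1)) : ZMod 2 :=
  if h : s.A.Adj x y then ((D.r x y h).edges.map wt).sum else 0

theorem piOf_eq (wt : Sym2 V → ZMod 2) {x y : Fin (s.m + 1)} (h : s.A.Adj x y) :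
    D.piOf wt x y = ((D.r x y h).edges.map wt).sum := by
  rw [piOf, dif_pos h]

theorem piOf_symm (wt : Sym2 V → ZMod 2) (x y : Fin (s.m + 1)) :
    D.piOf wt x y = D.piOf wt y x := by
  by_cases h : s.A.Adj x y
  · rw [piOf_eq D wt h, piOf_eq D wt h.symm, D.r_symm x y h, List.map_reverse, List.sum_reverse]
  · have h' : ¬ s.A.Adj y x := fun h' => h h'.symm
    rw [piOf, dif_neg h, piOf, dif_neg h']

/-- (g2) the real walk of a piece of a Hamiltonian path of `A` -/
theorem exists_seg (q : Equiv.Perm (Fin (s.m + 1))) (hq : Ham s.A q) (i j : Fin (s.m + 1))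
    (hij : i ≤ j) :
    ∃ W : G.Walk (s.vtx (q i)) (s.vtx (q j)),
      (∀ wt : Sym2 V → ZMod 2,
        (W.edges.map wt).sum = pre (D.piOf wt) q i + pre (D.piOf wt) q j) ∧
      (∀ p ∈ W.support, p = s.vtx (q i) ∨ ∃ l : Fin s.m, i ≤ l.castSucc ∧ l.castSucc < j ∧
        p ∈ (D.r _ _ (hq.2 l)).support) ∧
      (∀ e ∈ W.edges, ∃ l : Fin s.m, i ≤ l.castSucc ∧ l.castSucc < j ∧
        e ∈ (D.r _ _ (hq.2 l)).edges) := by
  have base : ∃ W : G.Walk (s.vtx (q i)) (s.vtx (q i)),
      (∀ wt : Sym2 V → ZMod 2,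
        (W.edges.map wt).sum = pre (D.piOf wt) q i + pre (D.piOf wt) q i) ∧
      (∀ p ∈ W.support, p = s.vtx (q i) ∨ ∃ l : Fin s.m, i ≤ l.castSucc ∧ l.castSucc < i ∧
        p ∈ (D.r _ _ (hq.2 l)).support) ∧
      (∀ e ∈ W.edges, ∃ l : Fin s.m, i ≤ l.castSucc ∧ l.castSucc < i ∧
        e ∈ (D.r _ _ (hq.2 l)).edges) := by
    refine ⟨SimpleGraph.Walk.nil, fun wt => ?_, fun p hp => Or.inl ?_, fun e he => ?_⟩
    · rw [SimpleGraph.Walk.edges_nil, List.map_nil, List.sum_nil, CharTwo.add_self_eq_zero]
    · simpa using hp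
    · simp at he
  induction j using Fin.induction with
  | zero =>
    obtain rfl : i = 0 := le_antisymm hij (Fin.zero_le _)
    exact base
  | succ j ih =>
    rcases hij.eq_or_lt with h | h
    · subst h
      exact base
    · have h' : i ≤ j.castSucc := Fin.le_castSucc_iff.2 h
      obtain ⟨W, h1, h2, h3⟩ := ih h'
      have hlt : j.castSucc < j.succ := Fin.castSucc_lt_succ
      refine ⟨W.append (D.r _ _ (hq.2 j)), fun wt => ?_, fun p hp => ?_, fun e he => ?_⟩
      · rw [SimpleGraph.Walk.edges_append, List.map_append, List.sum_append, h1 wt, pre_succ,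
          D.piOf_eq wt (hq.2 j), add_assoc]
      · rw [SimpleGraph.Walk.mem_support_append_iff] at hp
        rcases hp with hp | hp
        · rcases h2 p hp with h4 | ⟨l, h4, h5, h6⟩
          · exact Or.inl h4
          · exact Or.inr ⟨l, h4, h5.trans hlt, h6⟩
        · exact Or.inr ⟨j, h', hlt, hp⟩
      · rw [SimpleGraph.Walk.edges_append, List.mem_append] at he
        rcases he with he | he
        · obtain ⟨l, h4, h5, h6⟩ := h3 e he
          exact ⟨l, h4, h5.trans hlt, h6⟩
        · exact ⟨j, h', hlt, he⟩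

/-- a vertex of a walk is the first one or an end of an edge -/
theorem mem_support_cases {G' : SimpleGraph V} {x y : V} (w : G'.Walk x y) {p : V}
    (hp : p ∈ w.support) : p = x ∨ ∃ e ∈ w.edges, p ∈ e := by
  induction w with
  | nil =>
    rw [Walk.support_nil, List.mem_singleton] at hp
    exact Or.inl hp
  | @cons a b c h w ih =>
    rw [Walk.support_cons, List.mem_cons] at hp
    rcases hp with hp | hp
    · exact Or.inl hp
    · right
      rcases ih hp with h1 | ⟨e, he, hpe⟩
      · refine ⟨s(a, b), ?_, ?_⟩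
        · rw [Walk.edges_cons]
          exact List.mem_cons_self
        · rw [h1]
          exact Sym2.mem_mk_right a b
      · refine ⟨e, ?_, hpe⟩
        rw [Walk.edges_cons]
        exact List.mem_cons_of_mem _ he

/-- the ends of an edge of a walk are on the walk -/
theorem mem_support_of_edge {G' : SimpleGraph V} {x y : V} (w : G'.Walk x y) {p : V} {e : Sym2 V}
    (he : e ∈ w.edges) (hp : p ∈ e) : p ∈ w.support := by
  induction w with
  | nil =>
    rw [Walk.edges_nil] at he
    exact absurd he List.not_mem_nil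
  | @cons a b c h w ih =>
    rw [Walk.edges_cons, List.mem_cons] at he
    rw [Walk.support_cons, List.mem_cons]
    rcases he with he | he
    · rw [he, Sym2.mem_iff] at hp
      rcases hp with hp | hp
      · exact Or.inl hp
      · right
        rw [hp]
        exact w.start_mem_support
    · exact Or.inr (ih he)

/-- a walk all of whose edges are in `H` -/
theorem reach_of_edges {G' H' : SimpleGraph V} {x y : V} (w : G'.Walk x y)
    (hw : ∀ e ∈ w.edges, e ∈ H'.edgeSet) {p : V} (hp : p ∈ w.support) : H'.Reachable x p := by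
  induction w with
  | nil =>
    rw [Walk.support_nil, List.mem_singleton] at hp
    rw [hp]
  | @cons a b c h w ih =>
    rw [Walk.support_cons, List.mem_cons] at hp
    rcases hp with hp | hp
    · rw [hp]
    · have h1 : H'.Adj a b := by
        have := hw s(a, b) (by rw [Walk.edges_cons]; exact List.mem_cons_self)
        rwa [mem_edgeSet] at this
      refine h1.reachable.trans (ih (fun e he => hw e ?_) hp)
      rw [Walk.edges_cons]
      exact List.mem_cons_of_mem _ he

theorem reach_support {H' : SimpleGraph V} {x y : V} (w : H'.Walk x y) {p : V}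
    (hp : p ∈ w.support) : H'.Reachable x p :=
  reach_of_edges w (fun _ he => w.edges_subset_edgeSet he) hp

/-- (g3) the vertices of the real walk of an edge of `A` -/
theorem r_supp_cases {i j : Fin (s.m + 1)} (h : s.A.Adj i j) {p : V}
    (hp : p ∈ (D.r i j h).support) :
    p = s.vtx i ∨ p = s.vtx j ∨
      (s.blk i j ∧ (∀ k, p ≠ s.vtx k) ∧ s.H.Reachable (s.vtx i) p) := by
  by_cases hv : ∃ k, p = s.vtx k
  · obtain ⟨k, hk⟩ := hv
    rw [hk] at hp
    rcases D.r_supp i j h k hp with h1 | h1
    · exact Or.inl (by rw [hk, h1])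
    · exact Or.inr (Or.inl (by rw [hk, h1]))
  · rw [not_exists] at hv
    rcases h with hc | hb
    · exfalso
      have he := D.r_cons i j (Or.inl hc) hc
      rcases mem_support_cases _ hp with h1 | ⟨e, h1, h2⟩
      · exact hv i h1
      · rw [he, List.mem_singleton] at h1
        rw [h1, Sym2.mem_iff] at h2
        rcases h2 with h2 | h2
        · exact hv i h2
        · exact hv j h2
    · exact Or.inr (Or.inr ⟨hb, hv, reach_of_edges _ (D.r_blk i j (Or.inr hb) hb) hp⟩)

theorem r_disjoint {i j k l : Fin (s.m + 1)} (h : s.A.Adj i j) (h' : s.A.Adj k l)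
    (hik : i ≠ k) (hil : i ≠ l) (hjk : j ≠ k) (hjl : j ≠ l) {p : V}
    (hp : p ∈ (D.r i j h).support) : p ∉ (D.r k l h').support := by
  intro hp'
  rcases D.r_supp_cases h hp with h1 | h1 | ⟨hb, hv, hr⟩
  · rw [h1] at hp'
    rcases D.r_supp k l h' i hp' with h2 | h2
    · exact hik h2
    · exact hil h2
  · rw [h1] at hp'
    rcases D.r_supp k l h' j hp' with h2 | h2
    · exact hjk h2
    · exact hjl h2
  · rcases D.r_supp_cases h' hp' with h1 | h1 | ⟨hb', -, hr'⟩
    · exact hv _ h1
    · exact hv _ h1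
    · exact s.three i j k l h.ne hik hil hjk hjl h'.ne hb.2.1 (hr.trans hr'.symm)
        ((hr.trans hr'.symm).trans hb'.2.1)

/-- the legs are in the component of the triple -/
theorem leg_reach (t : s.T) {p : V}
    (hp : p ∈ (D.la t).support ∨ p ∈ (D.lb t).support ∨ p ∈ (D.ld t).support) :
    s.H.Reachable (s.vtx (s.a t)) p := by
  have h1 : s.H.Reachable (s.vtx (s.a t)) (D.z t) := ⟨(D.la t).reverse⟩
  rcases hp with hp | hp | hp
  · exact h1.trans (reach_support _ hp)
  · exact h1.trans (reach_support _ hp)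
  · exact h1.trans (reach_support _ hp)

/-- a real walk with at most one end in the block of `t` does not meet the legs of `t` off the
ends -/
theorem leg_out (t : s.T) {p : V}
    (hp : p ∈ (D.la t).support ∨ p ∈ (D.lb t).support ∨ p ∈ (D.ld t).support)
    (hv : ∀ k, p ≠ s.vtx k)
    {i j : Fin (s.m + 1)} (h : s.A.Adj i j)
    (hi : ¬ s.rel (s.a t) i ∨ ¬ s.rel (s.a t) j) :
    p ∉ (D.r i j h).support := by
  intro hp'
  rcases D.r_supp_cases h hp' with h1 | h1 | ⟨hb, -, hr⟩
  · exact hv _ h1
  · exact hv _ h1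
  · have h2 : s.rel (s.a t) i := (D.leg_reach t hp).trans hr.symm
    rcases hi with hi | hi
    · exact hi h2
    · exact hi (s.rel_trans h2 hb.2.1)

/-- the vertices of the walk of the edge `a b` -/
theorem supp_ab (t : s.T) {h : s.A.Adj (s.a t) (s.b t)} {p : V}
    (hp : p ∈ (D.r (s.a t) (s.b t) h).support) : p ∈ (D.la t).support ∨ p ∈ (D.lb t).support := by
  rcases mem_support_cases _ hp with h1 | ⟨e, he, hpe⟩
  · left
    rw [h1]
    exact (D.la t).end_mem_support
  · rw [D.r_ab t h, List.mem_append, List.mem_reverse] at he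
    rcases he with he | he
    · exact Or.inl (mem_support_of_edge _ he hpe)
    · exact Or.inr (mem_support_of_edge _ he hpe)

theorem supp_ad (t : s.T) {h : s.A.Adj (s.a t) (s.d t)} {p : V}
    (hp : p ∈ (D.r (s.a t) (s.d t) h).support) : p ∈ (D.la t).support ∨ p ∈ (D.ld t).support := by
  rcases mem_support_cases _ hp with h1 | ⟨e, he, hpe⟩
  · left
    rw [h1]
    exact (D.la t).end_mem_support
  · rw [D.r_ad t h, List.mem_append, List.mem_reverse] at he
    rcases he with he | he
    · exact Or.inl (mem_support_of_edge _ he hpe)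
    · exact Or.inr (mem_support_of_edge _ he hpe)

/-- the walks of an edge in the two directions have the same vertices -/
theorem supp_symm {i j : Fin (s.m + 1)} (h : s.A.Adj i j) {p : V}
    (hp : p ∈ (D.r i j h).support) : p ∈ (D.r j i h.symm).support := by
  rcases mem_support_cases _ hp with h1 | ⟨e, he, hpe⟩
  · rw [h1]
    exact (D.r j i h.symm).end_mem_support
  · refine mem_support_of_edge _ (e := e) ?_ hpe
    rw [D.r_symm i j h, List.mem_reverse]
    exact he

theorem not_isMin_b (t : s.T) : ¬ s.isMin (s.b t) := fun h =>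
  absurd (s.a_lt_b t) (not_lt.2 (h _ (s.rel_symm (s.rel_ab t))))

theorem not_isMin_d (t : s.T) : ¬ s.isMin (s.d t) := fun h =>
  absurd (s.a_lt_d t) (not_lt.2 (h _ (s.rel_symm (s.rel_ad t))))

/-- the block edges in the block of a triple -/
theorem blk_triple (t : s.T) {i j : Fin (s.m + 1)} (hb : s.blk i j) (hi : s.rel (s.a t) i) :
    (i = s.a t ∧ (j = s.b t ∨ j = s.d t)) ∨ (j = s.a t ∧ (i = s.b t ∨ i = s.d t)) := by
  obtain ⟨hne, hr, hm⟩ := hb
  have hj := s.rel_trans hi hr
  rcases (s.rel_triple t i).1 hi with h1 | h1 | h1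
  · left
    refine ⟨h1, ?_⟩
    rcases (s.rel_triple t j).1 hj with h2 | h2 | h2
    · exact absurd (h1.trans h2.symm) hne
    · exact Or.inl h2
    · exact Or.inr h2
  · right
    refine ⟨?_, Or.inl h1⟩
    rcases (s.rel_triple t j).1 hj with h2 | h2 | h2
    · exact h2
    · exact absurd (h1.trans h2.symm) hne
    · exfalso
      rcases hm with hm | hm
      · rw [h1] at hm
        exact not_isMin_b t hm
      · rw [h2] at hm
        exact not_isMin_d t hm
  · right
    refine ⟨?_, Or.inr h1⟩
    rcases (s.rel_triple t j).1 hj with h2 | h2 | h2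
    · exact h2
    · exfalso
      rcases hm with hm | hm
      · rw [h1] at hm
        exact not_isMin_d t hm
      · rw [h2] at hm
        exact not_isMin_b t hm
    · exact absurd (h1.trans h2.symm) hne

theorem leg_b_avoid (t : s.T) {p : V} (hp : p ∈ (D.lb t).support) (hz : p ≠ D.z t)
    {i j : Fin (s.m + 1)} (h : s.A.Adj i j) (hi : i ≠ s.b t) (hj : j ≠ s.b t) :
    p ∉ (D.r i j h).support := by
  intro hp'
  rcases D.r_supp_cases h hp' with h1 | h1 | ⟨hb, -, hr⟩
  · rw [h1] at hp
    exact hi (D.ib t i hp)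
  · rw [h1] at hp
    exact hj (D.ib t j hp)
  · have h2 : s.rel (s.a t) i := (D.leg_reach t (Or.inr (Or.inl hp))).trans hr.symm
    rcases blk_triple t hb h2 with ⟨h3, h4 | h4⟩ | ⟨h3, h4 | h4⟩
    · exact hj h4
    · subst h3
      subst h4
      rcases D.supp_ad t hp' with h5 | h5
      · exact hz (D.dab t p h5 hp)
      · exact hz (D.dbd t p hp h5)
    · exact hi h4
    · subst h3
      subst h4
      rcases D.supp_ad t (D.supp_symm h hp') with h5 | h5
      · exact hz (D.dab t p h5 hp)
      · exact hz (D.dbd t p hp h5)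

theorem leg_d_avoid (t : s.T) {p : V} (hp : p ∈ (D.ld t).support) (hz : p ≠ D.z t)
    {i j : Fin (s.m + 1)} (h : s.A.Adj i j) (hi : i ≠ s.d t) (hj : j ≠ s.d t) :
    p ∉ (D.r i j h).support := by
  intro hp'
  rcases D.r_supp_cases h hp' with h1 | h1 | ⟨hb, -, hr⟩
  · rw [h1] at hp
    exact hi (D.id t i hp)
  · rw [h1] at hp
    exact hj (D.id t j hp)
  · have h2 : s.rel (s.a t) i := (D.leg_reach t (Or.inr (Or.inr hp))).trans hr.symm
    rcases blk_triple t hb h2 with ⟨h3, h4 | h4⟩ | ⟨h3, h4 | h4⟩
    · subst h3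
      subst h4
      rcases D.supp_ab t hp' with h5 | h5
      · exact hz (D.dad t p h5 hp)
      · exact hz (D.dbd t p h5 hp)
    · exact hj h4
    · subst h3
      subst h4
      rcases D.supp_ab t (D.supp_symm h hp') with h5 | h5
      · exact hz (D.dad t p h5 hp)
      · exact hz (D.dbd t p h5 hp)
    · exact hi h4

/-- here also `p = z t` is allowed -/
theorem leg_a_avoid (t : s.T) {p : V} (hp : p ∈ (D.la t).support)
    {i j : Fin (s.m + 1)} (h : s.A.Adj i j) (hi : i ≠ s.a t) (hj : j ≠ s.a t) :
    p ∉ (D.r i j h).support := by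
  intro hp'
  rcases D.r_supp_cases h hp' with h1 | h1 | ⟨hb, -, hr⟩
  · rw [h1] at hp
    exact hi (D.ia t i hp)
  · rw [h1] at hp
    exact hj (D.ia t j hp)
  · have h2 : s.rel (s.a t) i := (D.leg_reach t (Or.inl hp)).trans hr.symm
    rcases blk_triple t hb h2 with ⟨h3, -⟩ | ⟨h3, -⟩
    · exact hi h3
    · exact hj h3

end RealData

end Pool.Agent.LC
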