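import Pool.Agent.LC.Defs

namespace Pool.Agent.LC

open SimpleGraph

/-- what the parity argument needs from planarity: every closed walk has a face function mod 2
that jumps by the number of passages when an edge is crossed -/
def HasPot {V : Type*} [DecidableEq V] {G : SimpleGraph V} (R : Rotation G) : Prop :=
  ∀ (x : V) (p : G.Walk x x), ∃ φ : G.Dart → ZMod 2, (∀ d, φ (R.face d) = φ d) ∧
    ∀ d : G.Dart, φ d + φ d.symm = (p.edges.count d.edge : ZMod 2)

/-- a connected graph with a rotation system in which closed walks have face functions -/
def PlanarPot {V : Type*} [DecidableEq V] (G : SimpleGraph V) : Prop :=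
  G.Connected ∧ ∃ R : Rotation G, HasPot R

end Pool.Agent.LC
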