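import Pool.Agent.LC.PotB
import Pool.Agent.LC.PotDefs

namespace Pool.Agent.LC

open SimpleGraph

theorem potential {V : Type*} [Fintype V] [DecidableEq V] (G : SimpleGraph V) [DecidableRel G.Adj]
    (R : Rotation G) (hc : G.Connected) (hP : HasPot R) (d₁ d₂ : G.Dart) :
    ∃ wt : Sym2 V → ZMod 2, ∀ (x : V) (p : G.Walk x x), ∃ φ : G.Dart → ZMod 2,
      (∀ d, φ (R.face d) = φ d) ∧
      (∀ d : G.Dart, φ d + φ d.symm = (p.edges.count d.edge : ZMod 2)) ∧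
      (p.edges.map wt).sum = φ d₁ + φ d₂ := by
  obtain ⟨wt, hwt⟩ := exists_wt G R hc d₁ d₂
  refine ⟨wt, fun x p => ?_⟩
  obtain ⟨φ, h1, h2⟩ := hP x p
  exact ⟨φ, h1, h2, by rw [sum_map_eq]; exact hwt φ _ h1 h2⟩

end Pool.Agent.LC
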