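import Pool.Agent.LC.GeoB
import Pool.Agent.LC.GeoC
import Pool.Agent.LC.Potential
import Pool.Agent.LC.Abs

namespace Pool.Agent.LC

open SimpleGraph

set_option linter.unusedSectionVars false

variable {V : Type*} [Fintype V] [DecidableEq V] {G : SimpleGraph V} [DecidableRel G.Adj]
  {s : Setup G} (D : RealData s)

namespace RealData

theorem prefix_same {R : Rotation G} {φ : G.Dart → ZMod 2} (h : FaceInv R φ)
    (q : Equiv.Perm (Fin (s.m + 1))) (hq : Ham s.A q) (k : Fin (s.m + 1))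
    (h0 : Calm φ (s.vtx (q 0)))
    (hc : ∀ l : Fin s.m, l.castSucc < k → ∀ p ∈ (D.r _ _ (hq.2 l)).support, Calm φ p)
    (d d' : G.Dart) (hd : d.fst = s.vtx 0) (hd' : d'.fst = s.vtx (q k)) : φ d = φ d' := by
  obtain ⟨W, _, hW, _⟩ := D.exists_seg q hq 0 k (Fin.zero_le _)
  refine calm_walk h W ?_ d d' (by rw [hd, hq.1]) hd'
  intro p hp
  rcases hW p hp with rfl | ⟨l, _, hl, hp⟩
  · exact h0
  · exact hc l hl p hp

theorem loop_walk (q : Equiv.Perm (Fin (s.m + 1))) (hq : Ham s.A q) (i : Fin (s.m + 1))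
    (ha : s.A.Adj (q (Fin.last s.m)) (q i)) :
    ∃ K : G.Walk (s.vtx (q i)) (s.vtx (q i)),
      (∀ wt : Sym2 V → ZMod 2, (K.edges.map wt).sum = loopSum (D.piOf wt) q i) ∧
      (∀ p ∈ K.support, p = s.vtx (q i) ∨
        ∃ x y, ∃ h : s.A.Adj x y, (∃ l l' : Fin (s.m + 1), i ≤ l ∧ i ≤ l' ∧ x = q l ∧ y = q l') ∧
          p ∈ (D.r x y h).support) := by
  obtain ⟨W, hW1, hW2, _⟩ := D.exists_seg q hq i (Fin.last _) (Fin.le_last _)
  refine ⟨W.append (D.r _ _ ha), ?_, ?_⟩
  · intro wt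
    rw [Walk.edges_append, List.map_append, List.sum_append, hW1, loopSum, D.piOf_eq wt ha]
  · intro p hp
    rw [Walk.mem_support_append_iff] at hp
    rcases hp with hp | hp
    · rcases hW2 p hp with rfl | ⟨l, hl, hl', hp⟩
      · exact Or.inl rfl
      · refine Or.inr ⟨_, _, hq.2 l, ⟨l.castSucc, l.succ, hl, ?_, rfl, rfl⟩, hp⟩
        exact hl.trans (Fin.castSucc_lt_succ).le
    · exact Or.inr ⟨_, _, ha, ⟨Fin.last _, i, Fin.le_last _, le_rfl, rfl, rfl⟩, hp⟩

/-- the vertices of the prefix of `q` up to `k < i` are not on the closed walk at `i` -/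
theorem prefix_notMem (q : Equiv.Perm (Fin (s.m + 1))) (hq : Ham s.A q) (i k : Fin (s.m + 1))
    (hki : k < i) {y : V} (K : G.Walk y y)
    (hK : ∀ p ∈ K.support, p = s.vtx (q i) ∨
        ∃ x y, ∃ h : s.A.Adj x y, (∃ l l' : Fin (s.m + 1), i ≤ l ∧ i ≤ l' ∧ x = q l ∧ y = q l') ∧
          p ∈ (D.r x y h).support) :
    (∀ j, j ≤ k → s.vtx (q j) ∉ K.support) ∧
    (∀ l : Fin s.m, l.castSucc < k → ∀ p ∈ (D.r _ _ (hq.2 l)).support, p ∉ K.support) := by
  have h1 : ∀ j, j ≤ k → s.vtx (q j) ∉ K.support := by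
    intro j hj hmem
    rcases hK _ hmem with h | ⟨x, y, h, ⟨l, l', hl, hl', rfl, rfl⟩, hp⟩
    · have := q.injective (s.inj h)
      omega
    · rcases D.r_supp _ _ h _ hp with h' | h'
      · have := q.injective h'
        omega
      · have := q.injective h'
        omega
  refine ⟨h1, ?_⟩
  intro l hl p hp hmem
  have hlk : l.succ ≤ k := by
    rw [Fin.le_def, Fin.val_succ]
    rw [Fin.lt_def, Fin.val_castSucc] at hl
    omega
  rcases hK _ hmem with h | ⟨x, y, h, ⟨j, j', hj, hj', rfl, rfl⟩, hp'⟩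
  · rw [h] at hp
    rcases D.r_supp _ _ (hq.2 l) _ hp with h' | h'
    · have := q.injective h'
      omega
    · have := q.injective h'
      omega
  · refine D.r_disjoint (hq.2 l) h ?_ ?_ ?_ ?_ hp hp'
    all_goals
      intro h'
      have := q.injective h'
      omega


/-- potential data of a closed walk -/
structure Pot (R : Rotation G) {y : V} (K : G.Walk y y) (φ : G.Dart → ZMod 2) : Prop where
  inv : FaceInv R φ
  jump : ∀ d : G.Dart, φ d + φ d.symm = (K.edges.count d.edge : ZMod 2)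

theorem Pot.calm {R : Rotation G} {y : V} {K : G.Walk y y} {φ : G.Dart → ZMod 2}
    (h : Pot R K φ) {p : V} (hp : p ∉ K.support) : Calm φ p :=
  calm_of_notMem K h.jump hp

theorem legB_support (t : s.T) {y : V} (K : G.Walk y y) {q : Equiv.Perm (Fin (s.m + 1))}
    {i : Fin (s.m + 1)}
    (hK : ∀ p ∈ K.support, p = s.vtx (q i) ∨
        ∃ x y, ∃ h : s.A.Adj x y, (∃ l l' : Fin (s.m + 1), i ≤ l ∧ i ≤ l' ∧ x = q l ∧ y = q l') ∧
          p ∈ (D.r x y h).support)
    (hx : q.symm (s.b t) < i) : ∀ p ∈ (D.lb t).support, p ≠ D.z t → p ∉ K.support := by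
  intro p hp hz hmem
  rcases hK _ hmem with h | ⟨x, y, h, ⟨l, l', hl, hl', rfl, rfl⟩, hp'⟩
  · rw [h] at hp
    have := D.ib t _ hp
    rw [← this, Equiv.symm_apply_apply] at hx
    omega
  · refine D.leg_b_avoid t hp hz h ?_ ?_ hp'
    · intro h'
      rw [← h', Equiv.symm_apply_apply] at hx
      omega
    · intro h'
      rw [← h', Equiv.symm_apply_apply] at hx
      omega

theorem legD_support (t : s.T) {y : V} (K : G.Walk y y) {q : Equiv.Perm (Fin (s.m + 1))}
    {i : Fin (s.m + 1)}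
    (hK : ∀ p ∈ K.support, p = s.vtx (q i) ∨
        ∃ x y, ∃ h : s.A.Adj x y, (∃ l l' : Fin (s.m + 1), i ≤ l ∧ i ≤ l' ∧ x = q l ∧ y = q l') ∧
          p ∈ (D.r x y h).support)
    (hx : q.symm (s.d t) < i) : ∀ p ∈ (D.ld t).support, p ≠ D.z t → p ∉ K.support := by
  intro p hp hz hmem
  rcases hK _ hmem with h | ⟨x, y, h, ⟨l, l', hl, hl', rfl, rfl⟩, hp'⟩
  · rw [h] at hp
    have := D.id t _ hp
    rw [← this, Equiv.symm_apply_apply] at hx
    omega
  · refine D.leg_d_avoid t hp hz h ?_ ?_ hp'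
    · intro h'
      rw [← h', Equiv.symm_apply_apply] at hx
      omega
    · intro h'
      rw [← h', Equiv.symm_apply_apply] at hx
      omega

theorem legA_support (t : s.T) {y : V} (K : G.Walk y y) {q : Equiv.Perm (Fin (s.m + 1))}
    {i : Fin (s.m + 1)}
    (hK : ∀ p ∈ K.support, p = s.vtx (q i) ∨
        ∃ x y, ∃ h : s.A.Adj x y, (∃ l l' : Fin (s.m + 1), i ≤ l ∧ i ≤ l' ∧ x = q l ∧ y = q l') ∧
          p ∈ (D.r x y h).support)
    (hx : q.symm (s.a t) < i) : ∀ p ∈ (D.la t).support, p ∉ K.support := by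
  intro p hp hmem
  rcases hK _ hmem with h | ⟨x, y, h, ⟨l, l', hl, hl', rfl, rfl⟩, hp'⟩
  · rw [h] at hp
    have := D.ia t _ hp
    rw [← this, Equiv.symm_apply_apply] at hx
    omega
  · refine D.leg_a_avoid t hp h ?_ ?_ hp'
    · intro h'
      rw [← h', Equiv.symm_apply_apply] at hx
      omega
    · intro h'
      rw [← h', Equiv.symm_apply_apply] at hx
      omega

theorem zmod2_add_self_eq {x y : ZMod 2} (h : x = y) : x + y = 0 := by
  rw [h]; exact CharTwo.add_self_eq_zero y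

/-- the leg `lb` is calm when its vertices other than `z` are off `K` and the potential of its end
is known -/
theorem legB_calm {R : Rotation G} {y : V} {K : G.Walk y y} {φ : G.Dart → ZMod 2}
    (h : Pot R K φ) (t : s.T) (hs : ∀ p ∈ (D.lb t).support, p ≠ D.z t → p ∉ K.support)
    (d' : G.Dart) (hd' : d'.fst = s.vtx (s.b t)) :
    φ (D.dB t) = φ d' ∧ φ (D.dB t).symm = φ d' := by
  refine calm_leg h.inv ((D.lb t).mapLe s.HG) ?_ (D.hz t _) ?_ (D.dB t) rfl ?_ d' hd'
  · exact (Walk.isPath_mapLe s.HG).2 (D.pb t)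
  · intro p hp hz
    rw [Walk.support_mapLe_eq_support] at hp
    exact h.calm (hs p hp hz)
  · change (D.lb t).getVert 1 = ((D.lb t).mapLe s.HG).getVert 1
    simp [Walk.mapLe, Walk.getVert_map]

theorem legD_calm {R : Rotation G} {y : V} {K : G.Walk y y} {φ : G.Dart → ZMod 2}
    (h : Pot R K φ) (t : s.T) (hs : ∀ p ∈ (D.ld t).support, p ≠ D.z t → p ∉ K.support)
    (d' : G.Dart) (hd' : d'.fst = s.vtx (s.d t)) :
    φ (D.dD t) = φ d' ∧ φ (D.dD t).symm = φ d' := by
  refine calm_leg h.inv ((D.ld t).mapLe s.HG) ?_ (D.hz t _) ?_ (D.dD t) rfl ?_ d' hd'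
  · exact (Walk.isPath_mapLe s.HG).2 (D.pd t)
  · intro p hp hz
    rw [Walk.support_mapLe_eq_support] at hp
    exact h.calm (hs p hp hz)
  · change (D.ld t).getVert 1 = ((D.ld t).mapLe s.HG).getVert 1
    simp [Walk.mapLe, Walk.getVert_map]

theorem legA_calm {R : Rotation G} {y : V} {K : G.Walk y y} {φ : G.Dart → ZMod 2}
    (h : Pot R K φ) (t : s.T) (hs : ∀ p ∈ (D.la t).support, p ≠ D.z t → p ∉ K.support)
    (d' : G.Dart) (hd' : d'.fst = s.vtx (s.a t)) :
    φ (D.dA t) = φ d' ∧ φ (D.dA t).symm = φ d' := by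
  refine calm_leg h.inv ((D.la t).mapLe s.HG) ?_ (D.hz t _) ?_ (D.dA t) rfl ?_ d' hd'
  · exact (Walk.isPath_mapLe s.HG).2 (D.pa t)
  · intro p hp hz
    rw [Walk.support_mapLe_eq_support] at hp
    exact h.calm (hs p hp hz)
  · change (D.la t).getVert 1 = ((D.la t).mapLe s.HG).getVert 1
    simp [Walk.mapLe, Walk.getVert_map]

/-- a dart at every vertex of the cycle -/
theorem exists_dart (s : Setup G) (k : Fin (s.m + 1)) : ∃ d : G.Dart, d.fst = s.vtx k := by
  have hm := s.hm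
  by_cases hk : k = Fin.last s.m
  · exact ⟨⟨(s.vtx k, s.vtx 0), by rw [hk]; exact s.adj0⟩, rfl⟩
  · have hlt : k.val < s.m := by
      have := Fin.val_lt_last hk
      exact this
    refine ⟨⟨(s.vtx k, s.vtx (Fin.succ ⟨k.val, hlt⟩)), ?_⟩, rfl⟩
    exact s.adj ⟨k.val, hlt⟩

theorem P1 (h3 : G.IsRegularOfDegree 3) {R : Rotation G} (dU : G.Dart) (hU : dU.fst = s.vtx 0)
    (t : s.T) (wt : Sym2 V → ZMod 2)
    (hwt : ∀ (x : V) (p : G.Walk x x), ∃ φ : G.Dart → ZMod 2,
      (∀ d, φ (R.face d) = φ d) ∧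
      (∀ d : G.Dart, φ d + φ d.symm = (p.edges.count d.edge : ZMod 2)) ∧
      (p.edges.map wt).sum = φ (D.kap R t) + φ dU)
    (q : Equiv.Perm (Fin (s.m + 1))) (hq : Ham s.A q) (i : Fin (s.m + 1))
    (ha : s.A.Adj (q (Fin.last s.m)) (q i)) (x : Fin (s.m + 1)) (hx : x = s.b t ∨ x = s.d t)
    (hxi : q.symm x < i) : loopSum (D.piOf wt) q i = 0 := by
  obtain ⟨K, hK1, hK2⟩ := D.loop_walk q hq i ha
  obtain ⟨φ, hφ1, hφ2, hφ3⟩ := hwt _ K
  have hpot : Pot R K φ := ⟨hφ1, hφ2⟩
  obtain ⟨hp1, hp2⟩ := D.prefix_notMem q hq i _ hxi K hK2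
  obtain ⟨d', hd'⟩ := exists_dart s x
  have hsame : φ dU = φ d' := by
    refine D.prefix_same hpot.inv q hq (q.symm x) (hpot.calm (hp1 0 (Fin.zero_le _))) ?_ dU d' hU
      (by rw [hd', Equiv.apply_symm_apply])
    intro l hl p hp
    exact hpot.calm (hp2 l hl p hp)
  rw [← hK1 wt, hφ3]
  apply zmod2_add_self_eq
  rw [hsame]
  rcases hx with rfl | rfl
  · obtain ⟨e1, e2⟩ := D.legB_calm hpot t (D.legB_support t K hK2 hxi) d' hd'
    exact D.kap_b h3 hpot.inv t e1 e2
  · obtain ⟨e1, e2⟩ := D.legD_calm hpot t (D.legD_support t K hK2 hxi) d' hd'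
    exact D.kap_d h3 hpot.inv t e1 e2

theorem P2 (h3 : G.IsRegularOfDegree 3) {R : Rotation G} (dU : G.Dart) (hU : dU.fst = s.vtx 0)
    (t : s.T) (wt : Sym2 V → ZMod 2)
    (hwt : ∀ (x : V) (p : G.Walk x x), ∃ φ : G.Dart → ZMod 2,
      (∀ d, φ (R.face d) = φ d) ∧
      (∀ d : G.Dart, φ d + φ d.symm = (p.edges.count d.edge : ZMod 2)) ∧
      (p.edges.map wt).sum = φ (D.kap R t) + φ dU)
    (q : Equiv.Perm (Fin (s.m + 1))) (hq : Ham s.A q) (i : Fin (s.m + 1))
    (ha : s.A.Adj (q (Fin.last s.m)) (q i))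
    (hxi : (q.symm (s.a t)).val + 1 = i.val) : loopSum (D.piOf wt) q i = 0 := by
  have hxi' : q.symm (s.a t) < i := by
    rw [Fin.lt_def]
    omega
  obtain ⟨K, hK1, hK2⟩ := D.loop_walk q hq i ha
  obtain ⟨φ, hφ1, hφ2, hφ3⟩ := hwt _ K
  have hpot : Pot R K φ := ⟨hφ1, hφ2⟩
  obtain ⟨hp1, hp2⟩ := D.prefix_notMem q hq i _ hxi' K hK2
  obtain ⟨d', hd'⟩ := exists_dart s (s.a t)
  have hsame : φ dU = φ d' := by
    refine D.prefix_same hpot.inv q hq (q.symm (s.a t)) (hpot.calm (hp1 0 (Fin.zero_le _))) ?_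
      dU d' hU (by rw [hd', Equiv.apply_symm_apply])
    intro l hl p hp
    exact hpot.calm (hp2 l hl p hp)
  have hsup := D.legA_support t K hK2 hxi'
  obtain ⟨e1, _⟩ := D.legA_calm hpot t (fun p hp _ => hsup p hp) d' hd'
  have hz : Calm φ (D.z t) := hpot.calm (hsup _ (Walk.start_mem_support _))
  have hB : φ (D.dB t) = φ d' := (hz.same hpot.inv rfl rfl).trans e1
  have hB' : φ (D.dB t).symm = φ d' := (hz (D.dB t) rfl).symm.trans hB
  rw [← hK1 wt, hφ3]
  apply zmod2_add_self_eq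
  rw [hsame]
  exact D.kap_b h3 hpot.inv t hB hB'

/-- the closed walk `z -la-> a -> ... -> q k' -l'-> z` -/
theorem p3_walk (t : s.T) (q : Equiv.Perm (Fin (s.m + 1))) (hq : Ham s.A q)
    (k k' : Fin (s.m + 1)) (hkk : k ≤ k') (la : s.H.Walk (D.z t) (s.vtx (q k)))
    (l' : s.H.Walk (D.z t) (s.vtx (q k'))) :
    ∃ K : G.Walk (D.z t) (D.z t),
      (∀ wt : Sym2 V → ZMod 2, (K.edges.map wt).sum =
        (la.edges.map wt).sum + (pre (D.piOf wt) q k + pre (D.piOf wt) q k') +
          (l'.edges.map wt).sum) ∧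
      (∀ p ∈ K.support, p ∈ la.support ∨ p ∈ l'.support ∨
        ∃ l : Fin s.m, k ≤ l.castSucc ∧ l.castSucc < k' ∧ p ∈ (D.r _ _ (hq.2 l)).support) ∧
      (∀ e, (∀ l : Fin s.m, k ≤ l.castSucc → l.castSucc < k' →
          e ∉ (D.r _ _ (hq.2 l)).edges) →
        K.edges.count e = la.edges.count e + l'.edges.count e) := by
  obtain ⟨W, hW1, hW2, hW3⟩ := D.exists_seg q hq k k' hkk
  refine ⟨((la.mapLe s.HG).append W).append (l'.mapLe s.HG).reverse, ?_, ?_, ?_⟩
  · intro wt
    rw [Walk.edges_append, Walk.edges_append, List.map_append, List.map_append, List.sum_append,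
      List.sum_append, Walk.edges_reverse, List.map_reverse, List.sum_reverse, hW1,
      Walk.edges_mapLe_eq_edges, Walk.edges_mapLe_eq_edges]
  · intro p hp
    rw [Walk.mem_support_append_iff, Walk.mem_support_append_iff, Walk.support_reverse,
      List.mem_reverse, Walk.support_mapLe_eq_support, Walk.support_mapLe_eq_support] at hp
    rcases hp with (hp | hp) | hp
    · exact Or.inl hp
    · rcases hW2 p hp with rfl | h
      · exact Or.inl (Walk.end_mem_support _)
      · exact Or.inr (Or.inr h)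
    · exact Or.inr (Or.inl hp)
  · intro e he
    have h0 : W.edges.count e = 0 := by
      apply List.count_eq_zero_of_not_mem
      intro hmem
      obtain ⟨l, h1, h2, h3⟩ := hW3 e hmem
      exact he l h1 h2 h3
    rw [Walk.edges_append, Walk.edges_append, List.count_append, List.count_append,
      Walk.edges_reverse, List.count_reverse, Walk.edges_mapLe_eq_edges,
      Walk.edges_mapLe_eq_edges, h0, add_zero]

theorem vtx_z_ne (t : s.T) (k : Fin (s.m + 1)) : D.z t ≠ s.vtx k := D.hz t k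

/-- prefix vertices are off the closed walk of `p3_walk` -/
theorem p3_prefix (t : s.T) (q : Equiv.Perm (Fin (s.m + 1))) (hq : Ham s.A q)
    (j k k' : Fin (s.m + 1)) (hjk : j < k) (hkk : k < k')
    (P : V → Prop)
    (hP : ∀ p, P p → (p ∈ (D.la t).support ∨ p ∈ (D.lb t).support ∨ p ∈ (D.ld t).support) ∧
      ∀ i, p = s.vtx i → i = q k ∨ i = q k')
    (hblk : ∀ i i', i ≤ j → i' ≤ j → s.rel (s.a t) (q i) → s.rel (s.a t) (q i') → i = i')
    (K : G.Walk (D.z t) (D.z t))
    (hK : ∀ p ∈ K.support, P p ∨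
        ∃ l : Fin s.m, k ≤ l.castSucc ∧ l.castSucc < k' ∧ p ∈ (D.r _ _ (hq.2 l)).support) :
    (∀ i, i ≤ j → s.vtx (q i) ∉ K.support) ∧
    (∀ l : Fin s.m, l.castSucc < j → ∀ p ∈ (D.r _ _ (hq.2 l)).support, p ∉ K.support) := by
  have h1 : ∀ i, i ≤ j → s.vtx (q i) ∉ K.support := by
    intro i hi hmem
    rcases hK _ hmem with h | ⟨l, hl, hl', hp⟩
    · rcases (hP _ h).2 _ rfl with h' | h'
      · have := q.injective h'
        omega
      · have := q.injective h'
        omega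
    · have hs : (l.castSucc : Fin (s.m + 1)) < l.succ := Fin.castSucc_lt_succ
      rcases D.r_supp _ _ (hq.2 l) _ hp with h' | h'
      · have := q.injective h'
        omega
      · have := q.injective h'
        omega
  refine ⟨h1, ?_⟩
  intro l hl p hp hmem
  have hs : (l.castSucc : Fin (s.m + 1)) < l.succ := Fin.castSucc_lt_succ
  have hlk : l.succ ≤ j := by
    rw [Fin.le_def, Fin.val_succ]
    rw [Fin.lt_def, Fin.val_castSucc] at hl
    omega
  rcases hK _ hmem with h | ⟨i, hi, hi', hp'⟩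
  · have hv : ∀ c, p ≠ s.vtx c := by
      intro c hc
      rcases (hP _ h).2 _ hc with h' | h'
      · rw [hc, h'] at hp
        rcases D.r_supp _ _ (hq.2 l) _ hp with h'' | h''
        · have := q.injective h''
          omega
        · have := q.injective h''
          omega
      · rw [hc, h'] at hp
        rcases D.r_supp _ _ (hq.2 l) _ hp with h'' | h''
        · have := q.injective h''
          omega
        · have := q.injective h''
          omega
    refine D.leg_out t (hP _ h).1 hv (hq.2 l) ?_ hp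
    by_contra hcon
    push Not at hcon
    have := hblk _ _ hl.le hlk hcon.1 hcon.2
    omega
  · have hs' : (i.castSucc : Fin (s.m + 1)) < i.succ := Fin.castSucc_lt_succ
    refine D.r_disjoint (hq.2 l) (hq.2 i) ?_ ?_ ?_ ?_ hp hp'
    all_goals
      intro h'
      have := q.injective h'
      omega

/-- sum of the weights of a leg -/
def sA (wt : Sym2 V → ZMod 2) (t : s.T) : ZMod 2 := ((D.la t).edges.map wt).sum
def sB (wt : Sym2 V → ZMod 2) (t : s.T) : ZMod 2 := ((D.lb t).edges.map wt).sum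
def sD (wt : Sym2 V → ZMod 2) (t : s.T) : ZMod 2 := ((D.ld t).edges.map wt).sum

theorem pi_ab (wt : Sym2 V → ZMod 2) (t : s.T) :
    D.piOf wt (s.a t) (s.b t) = D.sA wt t + D.sB wt t := by
  rw [D.piOf_eq wt (s.adj_ab t), D.r_ab, List.map_append, List.sum_append, List.map_reverse,
    List.sum_reverse]
  rfl

theorem pi_ad (wt : Sym2 V → ZMod 2) (t : s.T) :
    D.piOf wt (s.a t) (s.d t) = D.sA wt t + D.sD wt t := by
  rw [D.piOf_eq wt (s.adj_ad t), D.r_ad, List.map_append, List.sum_append, List.map_reverse,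
    List.sum_reverse]
  rfl

theorem pre_step (π : Fin (s.m + 1) → Fin (s.m + 1) → ZMod 2) (q : Equiv.Perm (Fin (s.m + 1)))
    {j k : Fin (s.m + 1)} (h : j.val + 1 = k.val) :
    pre π q k = pre π q j + π (q j) (q k) := by
  have hk : k.val < s.m + 1 := k.isLt
  have h1 : j = (⟨j.val, by omega⟩ : Fin s.m).castSucc := by
    ext; simp
  have h2 : k = (⟨j.val, by omega⟩ : Fin s.m).succ := by
    ext; simp [h]
  have := pre_succ π q (⟨j.val, by omega⟩ : Fin s.m)
  rw [← h1, ← h2] at this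
  exact this

theorem P3b (h3 : G.IsRegularOfDegree 3) {R : Rotation G} (dU : G.Dart) (hU : dU.fst = s.vtx 0)
    (t : s.T) (wt : Sym2 V → ZMod 2)
    (hwt : ∀ (x : V) (p : G.Walk x x), ∃ φ : G.Dart → ZMod 2,
      (∀ d, φ (R.face d) = φ d) ∧
      (∀ d : G.Dart, φ d + φ d.symm = (p.edges.count d.edge : ZMod 2)) ∧
      (p.edges.map wt).sum = φ (D.kap R t) + φ dU)
    (q : Equiv.Perm (Fin (s.m + 1))) (hq : Ham s.A q)
    (h1 : (q.symm (s.b t)).val + 1 = (q.symm (s.a t)).val)
    (h2 : q.symm (s.a t) < q.symm (s.d t)) :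
    omega (D.piOf wt) (s.b t) (s.d t) (D.sB wt t + D.sD wt t) q = 0 := by
  obtain ⟨j, hj⟩ : ∃ j, j = q.symm (s.b t) := ⟨_, rfl⟩
  obtain ⟨k, hk⟩ : ∃ k, k = q.symm (s.a t) := ⟨_, rfl⟩
  obtain ⟨k', hk'⟩ : ∃ k', k' = q.symm (s.d t) := ⟨_, rfl⟩
  have qj : q j = s.b t := by rw [hj, Equiv.apply_symm_apply]
  have qk : q k = s.a t := by rw [hk, Equiv.apply_symm_apply]
  have qk' : q k' = s.d t := by rw [hk', Equiv.apply_symm_apply]
  rw [← hj, ← hk] at h1
  rw [← hk, ← hk'] at h2
  have hjk : j < k := by rw [Fin.lt_def]; omega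
  obtain ⟨K, hK1, hK2, _⟩ := D.p3_walk t q hq k k' h2.le
    ((D.la t).copy rfl (by rw [qk])) ((D.ld t).copy rfl (by rw [qk']))
  simp only [Walk.edges_copy, Walk.support_copy] at hK1 hK2
  obtain ⟨φ, hφ1, hφ2, hφ3⟩ := hwt _ K
  have hpot : Pot R K φ := ⟨hφ1, hφ2⟩
  have hpre := D.p3_prefix t q hq j k k' hjk h2
    (fun p => p ∈ (D.la t).support ∨ p ∈ (D.ld t).support)
    (by
      intro p hp
      refine ⟨by tauto, ?_⟩
      rintro i rfl
      rcases hp with hp | hp
      · left; rw [qk]; exact D.ia t i hp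
      · right; rw [qk']; exact D.id t i hp)
    (by
      have key : ∀ i, i ≤ j → s.rel (s.a t) (q i) → i = j := by
        intro i hi hr
        rcases (s.rel_triple t _).1 hr with h | h | h
        · rw [← qk] at h
          have := q.injective h
          omega
        · rw [← qj] at h
          exact q.injective h
        · rw [← qk'] at h
          have := q.injective h
          omega
      intro i i' hi hi' hr hr'
      rw [key i hi hr, key i' hi' hr'])
    K
    (by
      intro p hp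
      rcases hK2 p hp with h | h | h
      · exact Or.inl (Or.inl h)
      · exact Or.inl (Or.inr h)
      · exact Or.inr h)
  obtain ⟨hp1, hp2⟩ := hpre
  obtain ⟨d', hd'⟩ := exists_dart s (s.b t)
  have hsame : φ dU = φ d' := by
    refine D.prefix_same hpot.inv q hq j (hpot.calm (hp1 0 (Fin.zero_le _))) ?_ dU d' hU
      (by rw [hd', qj])
    intro l hl p hp
    exact hpot.calm (hp2 l hl p hp)
  have hleg : ∀ p ∈ (D.lb t).support, p ≠ D.z t → p ∉ K.support := by
    intro p hp hz hmem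
    rcases hK2 p hmem with h | h | ⟨l, hl, hl', h⟩
    · exact hz (D.dab t p h hp)
    · exact hz (D.dbd t p hp h)
    · have hs : (l.castSucc : Fin (s.m + 1)) < l.succ := Fin.castSucc_lt_succ
      refine D.leg_b_avoid t hp hz (hq.2 l) ?_ ?_ h
      · intro h'
        rw [← qj] at h'
        have := q.injective h'
        omega
      · intro h'
        rw [← qj] at h'
        have := q.injective h'
        omega
  obtain ⟨e1, e2⟩ := D.legB_calm hpot t hleg d' hd'
  have hkap := D.kap_b h3 hpot.inv t e1 e2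
  have hsum : (K.edges.map wt).sum = 0 := by
    rw [hφ3]
    apply zmod2_add_self_eq
    rw [hkap, hsame]
  have hstep := pre_step (D.piOf wt) q h1
  rw [qj, qk, D.piOf_symm, D.pi_ab] at hstep
  have hK := hK1 wt
  rw [hsum, hstep] at hK
  rw [omega, ← hj, ← hk']
  change 0 = D.sA wt t + (pre (D.piOf wt) q j + (D.sA wt t + D.sB wt t) + pre (D.piOf wt) q k') +
    D.sD wt t at hK
  rw [hK]
  linear_combination -(CharTwo.add_self_eq_zero (D.sA wt t))

theorem P3d (h3 : G.IsRegularOfDegree 3) {R : Rotation G} (dU : G.Dart) (hU : dU.fst = s.vtx 0)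
    (t : s.T) (wt : Sym2 V → ZMod 2)
    (hwt : ∀ (x : V) (p : G.Walk x x), ∃ φ : G.Dart → ZMod 2,
      (∀ d, φ (R.face d) = φ d) ∧
      (∀ d : G.Dart, φ d + φ d.symm = (p.edges.count d.edge : ZMod 2)) ∧
      (p.edges.map wt).sum = φ (D.kap R t) + φ dU)
    (q : Equiv.Perm (Fin (s.m + 1))) (hq : Ham s.A q)
    (h1 : (q.symm (s.d t)).val + 1 = (q.symm (s.a t)).val)
    (h2 : q.symm (s.a t) < q.symm (s.b t)) :
    omega (D.piOf wt) (s.b t) (s.d t) (D.sB wt t + D.sD wt t) q = 0 := by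
  obtain ⟨j, hj⟩ : ∃ j, j = q.symm (s.d t) := ⟨_, rfl⟩
  obtain ⟨k, hk⟩ : ∃ k, k = q.symm (s.a t) := ⟨_, rfl⟩
  obtain ⟨k', hk'⟩ : ∃ k', k' = q.symm (s.b t) := ⟨_, rfl⟩
  have qj : q j = s.d t := by rw [hj, Equiv.apply_symm_apply]
  have qk : q k = s.a t := by rw [hk, Equiv.apply_symm_apply]
  have qk' : q k' = s.b t := by rw [hk', Equiv.apply_symm_apply]
  rw [← hj, ← hk] at h1
  rw [← hk, ← hk'] at h2
  have hjk : j < k := by rw [Fin.lt_def]; omega
  obtain ⟨K, hK1, hK2, _⟩ := D.p3_walk t q hq k k' h2.le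
    ((D.la t).copy rfl (by rw [qk])) ((D.lb t).copy rfl (by rw [qk']))
  simp only [Walk.edges_copy, Walk.support_copy] at hK1 hK2
  obtain ⟨φ, hφ1, hφ2, hφ3⟩ := hwt _ K
  have hpot : Pot R K φ := ⟨hφ1, hφ2⟩
  have hpre := D.p3_prefix t q hq j k k' hjk h2
    (fun p => p ∈ (D.la t).support ∨ p ∈ (D.lb t).support)
    (by
      intro p hp
      refine ⟨by tauto, ?_⟩
      rintro i rfl
      rcases hp with hp | hp
      · left; rw [qk]; exact D.ia t i hp
      · right; rw [qk']; exact D.ib t i hp)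
    (by
      have key : ∀ i, i ≤ j → s.rel (s.a t) (q i) → i = j := by
        intro i hi hr
        rcases (s.rel_triple t _).1 hr with h | h | h
        · rw [← qk] at h
          have := q.injective h
          omega
        · rw [← qk'] at h
          have := q.injective h
          omega
        · rw [← qj] at h
          exact q.injective h
      intro i i' hi hi' hr hr'
      rw [key i hi hr, key i' hi' hr'])
    K
    (by
      intro p hp
      rcases hK2 p hp with h | h | h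
      · exact Or.inl (Or.inl h)
      · exact Or.inl (Or.inr h)
      · exact Or.inr h)
  obtain ⟨hp1, hp2⟩ := hpre
  obtain ⟨d', hd'⟩ := exists_dart s (s.d t)
  have hsame : φ dU = φ d' := by
    refine D.prefix_same hpot.inv q hq j (hpot.calm (hp1 0 (Fin.zero_le _))) ?_ dU d' hU
      (by rw [hd', qj])
    intro l hl p hp
    exact hpot.calm (hp2 l hl p hp)
  have hleg : ∀ p ∈ (D.ld t).support, p ≠ D.z t → p ∉ K.support := by
    intro p hp hz hmem
    rcases hK2 p hmem with h | h | ⟨l, hl, hl', h⟩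
    · exact hz (D.dad t p h hp)
    · exact hz (D.dbd t p h hp)
    · have hs : (l.castSucc : Fin (s.m + 1)) < l.succ := Fin.castSucc_lt_succ
      refine D.leg_d_avoid t hp hz (hq.2 l) ?_ ?_ h
      · intro h'
        rw [← qj] at h'
        have := q.injective h'
        omega
      · intro h'
        rw [← qj] at h'
        have := q.injective h'
        omega
  obtain ⟨e1, e2⟩ := D.legD_calm hpot t hleg d' hd'
  have hkap := D.kap_d h3 hpot.inv t e1 e2
  have hsum : (K.edges.map wt).sum = 0 := by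
    rw [hφ3]
    apply zmod2_add_self_eq
    rw [hkap, hsame]
  have hstep := pre_step (D.piOf wt) q h1
  rw [qj, qk, D.piOf_symm, D.pi_ad] at hstep
  have hK := hK1 wt
  rw [hsum, hstep] at hK
  rw [omega, ← hj, ← hk']
  change 0 = D.sA wt t + (pre (D.piOf wt) q j + (D.sA wt t + D.sD wt t) + pre (D.piOf wt) q k') +
    D.sB wt t at hK
  rw [hK]
  linear_combination -(CharTwo.add_self_eq_zero (D.sA wt t))

theorem ham_one (s : Setup G) : Ham s.A 1 := by
  refine ⟨rfl, fun j => Or.inl (Or.inl ?_)⟩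
  simp

theorem leg_count {H : SimpleGraph V} {z x : V} (l : H.Walk z x) (hl : l.IsPath) (hn : ¬ l.Nil) :
    l.edges.count s(z, l.snd) = 1 :=
  List.count_eq_one_of_mem hl.isTrail.edges_nodup (Walk.mk_start_snd_mem_edges hn)

theorem leg_count_zero {H : SimpleGraph V} {z x y : V} (l : H.Walk z x) (l' : H.Walk z y)
    (hn : ¬ l.Nil) (h : ∀ p, p ∈ l.support → p ∈ l'.support → p = z) :
    l'.edges.count s(z, l.snd) = 0 := by
  apply List.count_eq_zero_of_not_mem
  intro hmem
  have h1 : l.snd ∈ l.support := l.getVert_mem_support 1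
  have h2 : l.snd ∈ l'.support := Walk.snd_mem_support_of_mem_edges _ hmem
  exact (l.adj_snd hn).ne (h _ h1 h2).symm

theorem P5 (h3 : G.IsRegularOfDegree 3) {R : Rotation G} (dU : G.Dart) (hU : dU.fst = s.vtx 0)
    (t : s.T) (wt : Sym2 V → ZMod 2)
    (hwt : ∀ (x : V) (p : G.Walk x x), ∃ φ : G.Dart → ZMod 2,
      (∀ d, φ (R.face d) = φ d) ∧
      (∀ d : G.Dart, φ d + φ d.symm = (p.edges.count d.edge : ZMod 2)) ∧
      (p.edges.map wt).sum = φ (D.kap R t) + φ dU) :
    omega (D.piOf wt) (s.b t) (s.d t) (D.sB wt t + D.sD wt t) 1 = 1 := by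
  have hab : s.a t < s.b t := t.2.1
  have hbd : s.b t < s.d t := t.2.2.1
  have hq : Ham s.A 1 := ham_one s
  obtain ⟨K, hK1, hK2, hK3⟩ := D.p3_walk t 1 hq (s.b t) (s.d t) hbd.le (D.lb t) (D.ld t)
  obtain ⟨φ, hφ1, hφ2, hφ3⟩ := hwt _ K
  have hpot : Pot R K φ := ⟨hφ1, hφ2⟩
  obtain ⟨hp1, hp2⟩ := D.p3_prefix t 1 hq (s.a t) (s.b t) (s.d t) hab hbd
    (fun p => p ∈ (D.lb t).support ∨ p ∈ (D.ld t).support)
    (by
      intro p hp
      refine ⟨by tauto, ?_⟩
      rintro i rfl
      rcases hp with hp | hp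
      · exact Or.inl (D.ib t i hp)
      · exact Or.inr (D.id t i hp))
    (by
      have key : ∀ i, i ≤ s.a t → s.rel (s.a t) i → i = s.a t := by
        intro i hi hr
        rcases (s.rel_triple t _).1 hr with h | h | h
        · exact h
        · omega
        · omega
      intro i i' hi hi' hr hr'
      rw [key i hi hr, key i' hi' hr'])
    K
    (by
      intro p hp
      rcases hK2 p hp with h | h | h
      · exact Or.inl (Or.inl h)
      · exact Or.inl (Or.inr h)
      · exact Or.inr h)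
  obtain ⟨d', hd'⟩ := exists_dart s (s.a t)
  have hsame : φ dU = φ d' := by
    refine D.prefix_same hpot.inv 1 hq (s.a t) (hpot.calm (hp1 0 (Fin.zero_le _))) ?_ dU d' hU
      (by rw [hd']; rfl)
    intro l hl p hp
    exact hpot.calm (hp2 l hl p hp)
  have hleg : ∀ p ∈ (D.la t).support, p ≠ D.z t → p ∉ K.support := by
    intro p hp hz hmem
    rcases hK2 p hmem with h | h | ⟨l, hl, hl', h⟩
    · exact hz (D.dab t p hp h)
    · exact hz (D.dad t p hp h)
    · have hs : (l.castSucc : Fin (s.m + 1)) < l.succ := Fin.castSucc_lt_succ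
      refine D.leg_a_avoid t hp (hq.2 l) ?_ ?_ h
      · intro h'
        have h'' : l.castSucc = s.a t := h'
        omega
      · intro h'
        have h'' : l.succ = s.a t := h'
        omega
  obtain ⟨_, e2⟩ := D.legA_calm hpot t hleg d' hd'
  have hout : ∀ y : V, ∀ l : Fin s.m, s.b t ≤ l.castSucc → l.castSucc < s.d t →
      s(D.z t, y) ∉ (D.r _ _ (hq.2 l)).edges := by
    intro y l _ _ hmem
    have hc : s.cons ((1 : Equiv.Perm (Fin (s.m + 1))) l.castSucc)
        ((1 : Equiv.Perm (Fin (s.m + 1))) l.succ) := Or.inl (by simp)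
    rw [D.r_cons _ _ _ hc, List.mem_singleton] at hmem
    have : D.z t ∈ s(s.vtx ((1 : Equiv.Perm (Fin (s.m + 1))) l.castSucc),
        s.vtx ((1 : Equiv.Perm (Fin (s.m + 1))) l.succ)) := by
      rw [← hmem]; exact Sym2.mem_mk_left _ _
    rcases Sym2.mem_iff.1 this with h | h
    · exact D.hz t _ h
    · exact D.hz t _ h
  have cB : φ (D.dB t) + φ (D.dB t).symm = 1 := by
    rw [hφ2]
    change (K.edges.count s(D.z t, (D.lb t).snd) : ZMod 2) = 1
    have e3 : K.edges.count s(D.z t, (D.lb t).snd) =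
        (D.lb t).edges.count s(D.z t, (D.lb t).snd) + (D.ld t).edges.count s(D.z t, (D.lb t).snd) :=
      hK3 _ (hout _)
    rw [e3, leg_count _ (D.pb t) (D.nb t),
      leg_count_zero (D.lb t) (D.ld t) (D.nb t) (D.dbd t)]
    simp
  have cD : φ (D.dD t) + φ (D.dD t).symm = 1 := by
    rw [hφ2]
    change (K.edges.count s(D.z t, (D.ld t).snd) : ZMod 2) = 1
    have e3 : K.edges.count s(D.z t, (D.ld t).snd) =
        (D.lb t).edges.count s(D.z t, (D.ld t).snd) + (D.ld t).edges.count s(D.z t, (D.ld t).snd) :=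
      hK3 _ (hout _)
    rw [e3, leg_count _ (D.pd t) (D.nd t),
      leg_count_zero (D.ld t) (D.lb t) (D.nd t) (fun p h h' => D.dbd t p h' h)]
    simp
  have hkap := D.kap_a h3 hpot.inv t e2 cB cD
  have hsum : (K.edges.map wt).sum = 1 := by
    rw [hφ3, hkap, hsame]
    linear_combination (CharTwo.add_self_eq_zero (φ d'))
  have hK := hK1 wt
  rw [hsum] at hK
  change omega (D.piOf wt) (s.b t) (s.d t) (D.sB wt t + D.sD wt t) 1 = 1
  rw [omega, hK]
  change pre (D.piOf wt) 1 (s.b t) + pre (D.piOf wt) 1 (s.d t) + (D.sB wt t + D.sD wt t) =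
    D.sB wt t + (pre (D.piOf wt) 1 (s.b t) + pre (D.piOf wt) 1 (s.d t)) + D.sD wt t
  ring

end RealData

/-- ROW G3: the planar input of the parity argument. -/
theorem geo {V : Type*} [Fintype V] [DecidableEq V] (G : SimpleGraph V) [DecidableRel G.Adj]
    (h3 : G.IsRegularOfDegree 3) (R : Rotation G) (hc : G.Connected)
    (hE : HasPot R) (s : Setup G) (D : RealData s) :
    ∃ (π : s.T → Fin (s.m + 1) → Fin (s.m + 1) → ZMod 2) (c : s.T → ZMod 2),
      (∀ t x y, π t x y = π t y x) ∧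
      (∀ q, Ham s.A q → ∀ i : Fin (s.m + 1), i.val + 1 < s.m →
        s.A.Adj (q (Fin.last s.m)) (q i) →
        ∀ t x, (x = s.b t ∨ x = s.d t) → q.symm x < i → loopSum (π t) q i = 0) ∧
      (∀ q, Ham s.A q → ∀ i : Fin (s.m + 1), i.val + 1 < s.m →
        s.A.Adj (q (Fin.last s.m)) (q i) →
        ∀ t, (q i = s.b t ∨ q i = s.d t) → (q.symm (s.a t)).val + 1 = i.val →
        loopSum (π t) q i = 0) ∧
      (∀ q, Ham s.A q → ∀ t x x', ((x = s.b t ∧ x' = s.d t) ∨ (x = s.d t ∧ x' = s.b t)) →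
        (q.symm x).val + 1 = (q.symm (s.a t)).val → q.symm (s.a t) < q.symm x' →
        omega (π t) (s.b t) (s.d t) (c t) q = 0) ∧
      (∀ t, omega (π t) (s.b t) (s.d t) (c t) 1 = 1) ∧
      (∀ t, c t = π t (s.a t) (s.b t) + π t (s.a t) (s.d t)) := by
  obtain ⟨dU, hU⟩ := RealData.exists_dart s 0
  choose wt hwt using fun t => potential G R hc hE (D.kap R t) dU
  refine ⟨fun t => D.piOf (wt t), fun t => D.sB (wt t) t + D.sD (wt t) t, ?_, ?_, ?_, ?_, ?_, ?_⟩
  · intro t x y
    exact D.piOf_symm _ x y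
  · intro q hq i _ ha t x hx hxi
    exact D.P1 h3 dU hU t (wt t) (hwt t) q hq i ha x hx hxi
  · intro q hq i _ ha t _ hxi
    exact D.P2 h3 dU hU t (wt t) (hwt t) q hq i ha hxi
  · intro q hq t x x' hx h1 h2
    rcases hx with ⟨rfl, rfl⟩ | ⟨rfl, rfl⟩
    · exact D.P3b h3 dU hU t (wt t) (hwt t) q hq h1 h2
    · exact D.P3d h3 dU hU t (wt t) (hwt t) q hq h1 h2
  · intro t
    exact D.P5 h3 dU hU t (wt t) (hwt t)
  · intro t
    change D.sB (wt t) t + D.sD (wt t) t = D.piOf (wt t) (s.a t) (s.b t) +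
      D.piOf (wt t) (s.a t) (s.d t)
    rw [D.pi_ab, D.pi_ad]
    linear_combination -(CharTwo.add_self_eq_zero (D.sA (wt t) t))

end Pool.Agent.LC
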