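import Pool.Agent.LC.SetupDefs
import Pool.Agent.LC.Deg

namespace Pool.Agent.LC

open SimpleGraph

variable {V : Type*} [Fintype V] [DecidableEq V] {G : SimpleGraph V} [DecidableRel G.Adj]

/-- face functions -/
def FaceInv (R : Rotation G) (φ : G.Dart → ZMod 2) : Prop := ∀ d, φ (R.face d) = φ d

theorem FaceInv.next {R : Rotation G} {φ : G.Dart → ZMod 2} (h : FaceInv R φ) (d : G.Dart) :
    φ (R.next d) = φ d.symm := by
  have := h d.symm
  rwa [R.face_apply, SimpleGraph.Dart.symm_symm] at this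

/-- no jump at the vertex `p` -/
def Calm (φ : G.Dart → ZMod 2) (p : V) : Prop := ∀ d : G.Dart, d.fst = p → φ d = φ d.symm

theorem Calm.same {R : Rotation G} {φ : G.Dart → ZMod 2} (h : FaceInv R φ) {p : V}
    (hp : Calm φ p) {d d' : G.Dart} (hd : d.fst = p) (hd' : d'.fst = p) : φ d = φ d' := by
  obtain ⟨n, hn⟩ := (R.cyclic d d' (hd.trans hd'.symm)).exists_nat_pow_eq
  have key : ∀ n : ℕ, ((R.next ^ n) d).fst = p ∧ φ ((R.next ^ n) d) = φ d := by
    intro n
    induction n with
    | zero => exact ⟨hd, rfl⟩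
    | succ n ih =>
      rw [pow_succ', Equiv.Perm.mul_apply]
      refine ⟨by rw [R.fst_next]; exact ih.1, ?_⟩
      rw [h.next, ← hp _ ih.1]
      exact ih.2
  rw [← hn]
  exact (key n).2.symm

/-- a walk through calm vertices -/
theorem calm_walk {R : Rotation G} {φ : G.Dart → ZMod 2} (h : FaceInv R φ) {x y : V}
    (w : G.Walk x y) (hw : ∀ p ∈ w.support, Calm φ p) (d d' : G.Dart) (hd : d.fst = x)
    (hd' : d'.fst = y) : φ d = φ d' := by
  induction w generalizing d with
  | nil => exact (hw _ (by simp)).same h hd hd'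
  | @cons a b c hadj p ih =>
    have ha : Calm φ a := hw _ (by simp)
    have e1 : φ d = φ ⟨(a, b), hadj⟩ := ha.same h hd rfl
    have e2 : φ ⟨(a, b), hadj⟩ = φ (SimpleGraph.Dart.symm ⟨(a, b), hadj⟩) := ha _ rfl
    rw [e1, e2]
    exact ih (fun p hp => hw p (by simp [hp])) _ rfl hd'

/-- vertices off the walk are calm -/
theorem calm_of_notMem {φ : G.Dart → ZMod 2} {x y : V} (K : G.Walk x y)
    (hφ : ∀ d : G.Dart, φ d + φ d.symm = (K.edges.count d.edge : ZMod 2)) {p : V}
    (hp : p ∉ K.support) : Calm φ p := by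
  intro d hd
  have h0 : K.edges.count d.edge = 0 := by
    apply List.count_eq_zero_of_not_mem
    intro hmem
    apply hp
    rw [← hd]
    exact K.fst_mem_support_of_mem_edges hmem
  have := hφ d
  rw [h0, Nat.cast_zero] at this
  have h2 : φ d = - φ d.symm := eq_neg_of_add_eq_zero_left this
  rw [h2]
  exact ZMod.neg_eq_self_mod_two _

/-- a leg: the first edge of a path whose vertices other than the first are calm -/
theorem calm_leg {R : Rotation G} {φ : G.Dart → ZMod 2} (h : FaceInv R φ) {z x : V}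
    (l : G.Walk z x) (hl : l.IsPath) (hn : z ≠ x) (hw : ∀ p ∈ l.support, p ≠ z → Calm φ p)
    (D : G.Dart) (hD1 : D.fst = z) (hD2 : D.snd = l.snd) (d' : G.Dart) (hd' : d'.fst = x) :
    φ D = φ d' ∧ φ D.symm = φ d' := by
  cases l with
  | nil => exact absurd rfl hn
  | @cons a b c hadj p =>
    rw [Walk.cons_isPath_iff] at hl
    have hb : D.snd = b := by rw [hD2]; simp
    have h1 : ∀ q ∈ p.support, Calm φ q := by
      intro q hq
      apply hw q (by simp [hq])
      rintro rfl
      exact hl.2 hq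
    have e1 : φ D.symm = φ d' := calm_walk h p h1 _ _ (by simpa using hb) hd'
    have e2 : φ D.symm = φ D.symm.symm := h1 b (by simp) _ (by simpa using hb)
    rw [SimpleGraph.Dart.symm_symm] at e2
    exact ⟨e2 ▸ e1, e1⟩

end Pool.Agent.LC
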