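import Pool.Agent.LC.GeoA

namespace Pool.Agent.LC

open SimpleGraph

set_option linter.unusedSectionVars false

variable {V : Type*} [Fintype V] [DecidableEq V] {G : SimpleGraph V} [DecidableRel G.Adj]

theorem dart_cases (h3 : G.IsRegularOfDegree 3) {z : V} {A B D : G.Dart} (hA : A.fst = z)
    (hB : B.fst = z) (hD : D.fst = z) (hAB : A ≠ B) (hAD : A ≠ D) (hBD : B ≠ D) (E : G.Dart)
    (hE : E.fst = z) : E = A ∨ E = B ∨ E = D := by
  classical
  have hcard := SimpleGraph.dart_fst_fiber_card_eq_degree G z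
  rw [h3 z] at hcard
  have hsub : ({A, B, D} : Finset G.Dart) ⊆ ({d : G.Dart | d.fst = z} : Finset G.Dart) := by
    intro x hx
    simp only [Finset.mem_insert, Finset.mem_singleton] at hx
    simp only [Finset.mem_filter, Finset.mem_univ, true_and]
    rcases hx with rfl | rfl | rfl <;> assumption
  have hc3 : ({A, B, D} : Finset G.Dart).card = 3 := by
    rw [Finset.card_eq_three]
    exact ⟨A, B, D, hAB, hAD, hBD, rfl⟩
  have heq := Finset.eq_of_subset_of_card_le hsub (by rw [hc3]; exact hcard.le)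
  have : E ∈ ({A, B, D} : Finset G.Dart) := by
    rw [heq]
    simp [hE]
  simpa using this

theorem next_cases (h3 : G.IsRegularOfDegree 3) (R : Rotation G) {z : V} {A B D : G.Dart}
    (hA : A.fst = z) (hB : B.fst = z) (hD : D.fst = z) (hAB : A ≠ B) (hAD : A ≠ D) (hBD : B ≠ D) :
    (R.next A = B ∧ R.next B = D ∧ R.next D = A) ∨
    (R.next A = D ∧ R.next D = B ∧ R.next B = A) := by
  have key : ∀ (S : G.Dart → Prop) (x y : G.Dart), x.fst = z → y.fst = z → S x →
      (∀ w, S w → S (R.next w)) → S y := by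
    intro S x y hx hy hSx hS
    obtain ⟨n, hn⟩ := (R.cyclic x y (hx.trans hy.symm)).exists_nat_pow_eq
    rw [← hn]
    clear hn
    induction n with
    | zero => exact hSx
    | succ n ih =>
      rw [pow_succ', Equiv.Perm.mul_apply]
      exact hS _ ih
  have c : ∀ E : G.Dart, E.fst = z → R.next E = A ∨ R.next E = B ∨ R.next E = D := fun E hE =>
    dart_cases h3 hA hB hD hAB hAD hBD _ (by rw [R.fst_next]; exact hE)
  have nf : ∀ E F : G.Dart, E.fst = z → F.fst = z → E ≠ F → R.next E ≠ E := by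
    intro E F hE hF hEF h
    exact hEF (key (fun w => E = w) E F hE hF rfl (by rintro w rfl; exact h.symm))
  have n2 : ∀ E F K : G.Dart, E.fst = z → K.fst = z → E ≠ K → F ≠ K →
      R.next E = F → R.next F = E → False := by
    intro E F K hE hK h1 h2 h3 h4
    have := key (fun w => w = E ∨ w = F) E K hE hK (Or.inl rfl) (by
      rintro w (rfl | rfl)
      · exact Or.inr h3
      · exact Or.inl h4)
    rcases this with h | h
    · exact h1 h.symm
    · exact h2 h.symm
  have inj := R.next.injective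
  rcases c A hA with h | h | h
  · exact absurd h (nf A B hA hB hAB)
  · left
    refine ⟨h, ?_⟩
    rcases c B hB with h' | h' | h'
    · exact (n2 A B D hA hD hAD hBD h h').elim
    · exact absurd h' (nf B A hB hA hAB.symm)
    · refine ⟨h', ?_⟩
      rcases c D hD with h'' | h'' | h''
      · exact h''
      · exact absurd (inj (h.trans h''.symm)) hAD
      · exact absurd (inj (h'.trans h''.symm)) hBD
  · right
    refine ⟨h, ?_⟩
    rcases c D hD with h' | h' | h'
    · exact (n2 A D B hA hB hAB hBD.symm h h').elim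
    · refine ⟨h', ?_⟩
      rcases c B hB with h'' | h'' | h''
      · exact h''
      · exact absurd (inj (h'.trans h''.symm)) hBD.symm
      · exact absurd (inj (h.trans h''.symm)) hAB
    · exact absurd h' (nf D A hD hA hAD.symm)

/-- the first dart of a walk in a subgraph -/
def fDart {H : SimpleGraph V} (HG : H ≤ G) {z x : V} (l : H.Walk z x) (hn : ¬ l.Nil) : G.Dart :=
  ⟨(z, l.snd), HG (l.adj_snd hn)⟩

variable {s : Setup G} (D : RealData s)

namespace RealData

theorem na (t : s.T) : ¬ (D.la t).Nil := fun h => D.hz t _ h.eq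
theorem nb (t : s.T) : ¬ (D.lb t).Nil := fun h => D.hz t _ h.eq
theorem nd (t : s.T) : ¬ (D.ld t).Nil := fun h => D.hz t _ h.eq

def dA (t : s.T) : G.Dart := fDart s.HG (D.la t) (D.na t)
def dB (t : s.T) : G.Dart := fDart s.HG (D.lb t) (D.nb t)
def dD (t : s.T) : G.Dart := fDart s.HG (D.ld t) (D.nd t)

theorem snd_ne {H : SimpleGraph V} {z x y : V} (l : H.Walk z x) (l' : H.Walk z y) (hl : ¬ l.Nil)
    (h : ∀ p, p ∈ l.support → p ∈ l'.support → p = z) : l.snd ≠ l'.snd := by
  intro he
  have h1 : l.snd ∈ l.support := l.getVert_mem_support 1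
  have h2 : l.snd ∈ l'.support := by
    rw [he]
    exact l'.getVert_mem_support 1
  exact (l.adj_snd hl).ne (h _ h1 h2).symm

theorem dA_ne_dB (t : s.T) : D.dA t ≠ D.dB t := by
  intro h
  exact snd_ne (D.la t) (D.lb t) (D.na t) (D.dab t) (congrArg (fun d : G.Dart => d.snd) h)

theorem dA_ne_dD (t : s.T) : D.dA t ≠ D.dD t := by
  intro h
  exact snd_ne (D.la t) (D.ld t) (D.na t) (D.dad t) (congrArg (fun d : G.Dart => d.snd) h)

theorem dB_ne_dD (t : s.T) : D.dB t ≠ D.dD t := by
  intro h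
  exact snd_ne (D.lb t) (D.ld t) (D.nb t) (D.dbd t) (congrArg (fun d : G.Dart => d.snd) h)

open Classical in
/-- a dart whose face is the face at the corner between the legs `lb` and `ld` -/
noncomputable def kap (R : Rotation G) (t : s.T) : G.Dart :=
  if R.next (D.dB t) = D.dD t then D.dD t else D.dB t

theorem kap_cases (h3 : G.IsRegularOfDegree 3) (R : Rotation G) (t : s.T) :
    (R.next (D.dA t) = D.dB t ∧ R.next (D.dB t) = D.dD t ∧ R.next (D.dD t) = D.dA t ∧
      D.kap R t = D.dD t) ∨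
    (R.next (D.dA t) = D.dD t ∧ R.next (D.dD t) = D.dB t ∧ R.next (D.dB t) = D.dA t ∧
      D.kap R t = D.dB t) := by
  rcases next_cases h3 R (z := D.z t) (A := D.dA t) (B := D.dB t) (D := D.dD t) rfl rfl rfl
    (D.dA_ne_dB t) (D.dA_ne_dD t) (D.dB_ne_dD t) with ⟨h, h', h''⟩ | ⟨h, h', h''⟩
  · left
    exact ⟨h, h', h'', by rw [kap, if_pos h']⟩
  · right
    refine ⟨h, h', h'', ?_⟩
    rw [kap, if_neg]
    rw [h'']
    exact D.dA_ne_dD t

/-- if the leg `lb` is calm then the corner has the value of the leg -/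
theorem kap_b (h3 : G.IsRegularOfDegree 3) {R : Rotation G} {φ : G.Dart → ZMod 2}
    (h : FaceInv R φ) (t : s.T) {v : ZMod 2} (h1 : φ (D.dB t) = v) (h2 : φ (D.dB t).symm = v) :
    φ (D.kap R t) = v := by
  rcases D.kap_cases h3 R t with ⟨_, h', _, hk⟩ | ⟨_, _, _, hk⟩
  · rw [hk, ← h', h.next]; exact h2
  · rw [hk]; exact h1

theorem kap_d (h3 : G.IsRegularOfDegree 3) {R : Rotation G} {φ : G.Dart → ZMod 2}
    (h : FaceInv R φ) (t : s.T) {v : ZMod 2} (h1 : φ (D.dD t) = v) (h2 : φ (D.dD t).symm = v) :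
    φ (D.kap R t) = v := by
  rcases D.kap_cases h3 R t with ⟨_, _, _, hk⟩ | ⟨_, h', _, hk⟩
  · rw [hk]; exact h1
  · rw [hk, ← h', h.next]; exact h2

/-- if the leg `la` is calm and the legs `lb`, `ld` are crossed, the corner has the other value -/
theorem kap_a (h3 : G.IsRegularOfDegree 3) {R : Rotation G} {φ : G.Dart → ZMod 2}
    (h : FaceInv R φ) (t : s.T) {v : ZMod 2} (h2 : φ (D.dA t).symm = v)
    (hb : φ (D.dB t) + φ (D.dB t).symm = 1) (hd : φ (D.dD t) + φ (D.dD t).symm = 1) :
    φ (D.kap R t) = v + 1 := by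
  have z2 : ∀ x y : ZMod 2, x + y = 1 → y = x + 1 := by decide
  rcases D.kap_cases h3 R t with ⟨h', h'', _, hk⟩ | ⟨h', h'', _, hk⟩
  · rw [hk, ← h'', h.next, z2 _ _ hb, ← h', h.next, h2]
  · rw [hk, ← h'', h.next, z2 _ _ hd, ← h', h.next, h2]

end RealData

end Pool.Agent.LC
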