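import Pool.Agent.LC.Tripod

namespace Pool.Agent.LC

open SimpleGraph

/-- ROW H1a: listing a cycle. -/
theorem cycle_listing {V : Type*} [DecidableEq V] (G : SimpleGraph V) {u : V} (C : G.Walk u u)
    (hC : C.IsCycle) :
    ∃ (m : ℕ) (_ : 2 ≤ m) (vtx : Fin (m + 1) → V), Function.Injective vtx ∧
      (∀ j : Fin m, G.Adj (vtx j.castSucc) (vtx j.succ)) ∧ G.Adj (vtx (Fin.last m)) (vtx 0) ∧
      C.length = m + 1 ∧ (∀ x, x ∈ C.support ↔ ∃ i, vtx i = x) ∧
      (∀ e, e ∈ C.edges ↔ (e = s(vtx (Fin.last m), vtx 0) ∨
        ∃ j : Fin m, e = s(vtx j.castSucc, vtx j.succ))) := by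
  have h3 := hC.three_le_length
  obtain ⟨m, hm⟩ : ∃ m, C.length = m + 1 := ⟨C.length - 1, by omega⟩
  have hlast : C.getVert (m + 1) = u := by rw [← hm]; exact C.getVert_length
  have h0 : C.getVert 0 = u := C.getVert_zero
  refine ⟨m, by omega, fun i => C.getVert i, ?_, ?_, ?_, hm, ?_, ?_⟩
  · intro i j hij
    apply Fin.ext
    refine hC.getVert_injOn' ?_ ?_ hij
    · simp only [Set.mem_ofPred_eq]
      omega
    · simp only [Set.mem_ofPred_eq]
      omega
  · intro j
    have := C.adj_getVert_succ (i := j) (by omega)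
    simpa using this
  · have := C.adj_getVert_succ (i := m) (by omega)
    rw [hlast] at this
    simpa [h0] using this
  · intro x
    rw [Walk.mem_support_iff_exists_getVert]
    constructor
    · rintro ⟨n, hn, hle⟩
      rcases Nat.lt_or_ge n (m + 1) with h | h
      · exact ⟨⟨n, h⟩, hn⟩
      · have : n = m + 1 := by omega
        subst this
        refine ⟨0, ?_⟩
        rw [← hn, hlast]
        exact h0
    · rintro ⟨i, hi⟩
      exact ⟨i, hi, by omega⟩
  · intro e
    induction e using Sym2.ind with
    | _ x y =>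
      rw [Walk.mk_mem_edges_iff_exists]
      constructor
      · rintro ⟨i, hi, hxy⟩
        rcases Nat.lt_or_ge i m with h | h
        · right
          exact ⟨⟨i, h⟩, by simpa using hxy.symm⟩
        · left
          have : i = m := by omega
          subst this
          rw [hlast] at hxy
          rw [← hxy]
          simp [h0]
      · rintro (h | ⟨j, hj⟩)
        · refine ⟨m, by omega, ?_⟩
          rw [hlast, h]
          simp [h0]
        · refine ⟨j, by omega, ?_⟩
          rw [hj]
          simp

/-- the walk `f i, f (i + 1), ..., f (i + n)` -/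
theorem seg_walk {V : Type*} (G : SimpleGraph V) (f : ℕ → V) (m : ℕ)
    (hf : ∀ k < m, G.Adj (f k) (f (k + 1))) (i n : ℕ) (h : i + n ≤ m) :
    ∃ w : G.Walk (f i) (f (i + n)), w.support = (List.range' i (n + 1)).map f ∧
      w.edges = (List.range' i n).map (fun k => s(f k, f (k + 1))) := by
  induction n generalizing i with
  | zero => exact ⟨Walk.nil, by simp, by simp⟩
  | succ n ih =>
    obtain ⟨w, hw1, hw2⟩ := ih (i + 1) (by omega)
    have e : i + 1 + n = i + (n + 1) := by omega
    refine ⟨(Walk.cons (hf i (by omega)) w).copy rfl (by rw [e]), ?_, ?_⟩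
    · rw [Walk.support_copy, Walk.support_cons, hw1]
      simp [List.range'_succ]
    · rw [Walk.edges_copy, Walk.edges_cons, hw2]
      simp [List.range'_succ]

/-- ROW H1b: if two consecutive vertices are joined off the cycle, there is another path. -/
theorem detour {V : Type*} [DecidableEq V] (G : SimpleGraph V) (m : ℕ) (hm : 2 ≤ m)
    (vtx : Fin (m + 1) → V) (inj : Function.Injective vtx)
    (adj : ∀ j : Fin m, G.Adj (vtx j.castSucc) (vtx j.succ))
    (adj0 : G.Adj (vtx (Fin.last m)) (vtx 0))
    (H : SimpleGraph V) (HG : H ≤ G)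
    (Hadj : ∀ j : Fin m, ¬ H.Adj (vtx j.castSucc) (vtx j.succ))
    (Hadj0 : ¬ H.Adj (vtx (Fin.last m)) (vtx 0))
    (h1 : ∀ i y z, H.Adj (vtx i) y → H.Adj (vtx i) z → y = z)
    (j : Fin m) (hj : H.Reachable (vtx j.castSucc) (vtx j.succ)) :
    ∃ W : G.Walk (vtx 0) (vtx (Fin.last m)), W.IsPath ∧ (∀ i, vtx i ∈ W.support) ∧
      s(vtx (Fin.last m), vtx 0) ∉ W.edges ∧
      ∃ e ∈ W.edges, e ≠ s(vtx (Fin.last m), vtx 0) ∧
        ∀ j : Fin m, e ≠ s(vtx j.castSucc, vtx j.succ) := by
  obtain ⟨p, hp⟩ := hj.exists_isPath
  set f : ℕ → V := fun k => if h : k < m + 1 then vtx ⟨k, h⟩ else vtx 0 with hf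
  have hfv : ∀ i : Fin (m + 1), f i = vtx i := fun i => by
    simp only [hf, i.isLt, dif_pos, Fin.eta]
  have hfk : ∀ k (h : k < m + 1), f k = vtx ⟨k, h⟩ := fun k h => by simp only [hf, h, dif_pos]
  have hfinj : ∀ k l, k < m + 1 → l < m + 1 → f k = f l → k = l := by
    intro k l hk hl h
    rw [hfk k hk, hfk l hl] at h
    exact congrArg Fin.val (inj h)
  have hfadj : ∀ k < m, G.Adj (f k) (f (k + 1)) := by
    intro k hk
    rw [hfk k (by omega), hfk (k + 1) (by omega)]
    exact adj ⟨k, hk⟩
  obtain ⟨a, ha1, ha2⟩ := seg_walk G f m hfadj 0 j.val (by omega)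
  obtain ⟨b, hb1, hb2⟩ := seg_walk G f m hfadj (j.val + 1) (m - (j.val + 1)) (by omega)
  have e0 : f 0 = vtx 0 := hfv 0
  have ej : f (0 + j.val) = vtx j.castSucc := by rw [Nat.zero_add]; exact hfk _ (by omega)
  have ej1 : f (j.val + 1) = vtx j.succ := hfk _ (by omega)
  have em : f (j.val + 1 + (m - (j.val + 1))) = vtx (Fin.last m) := by
    rw [show j.val + 1 + (m - (j.val + 1)) = m by omega]
    exact hfk _ (by omega)
  set A : G.Walk (vtx 0) (vtx j.castSucc) := a.copy e0 ej with hA
  set B : G.Walk (vtx j.succ) (vtx (Fin.last m)) := b.copy ej1 em with hB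
  set P : G.Walk (vtx j.castSucc) (vtx j.succ) := p.mapLe HG with hP
  have hAs : A.support = (List.range' 0 (j.val + 1)).map f := by rw [hA, Walk.support_copy, ha1]
  have hBs : B.support = (List.range' (j.val + 1) (m - (j.val + 1) + 1)).map f := by
    rw [hB, Walk.support_copy, hb1]
  have hAe : A.edges = (List.range' 0 j.val).map (fun k => s(f k, f (k + 1))) := by
    rw [hA, Walk.edges_copy, ha2]
  have hBe : B.edges = (List.range' (j.val + 1) (m - (j.val + 1))).map
      (fun k => s(f k, f (k + 1))) := by
    rw [hB, Walk.edges_copy, hb2]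
  have hPs : P.support = p.support := Walk.support_mapLe_eq_support ..
  have hPe : P.edges = p.edges := Walk.edges_mapLe_eq_edges ..
  have hint : ∀ k (hk : k < m + 1), f k ∈ p.support → k = j.val ∨ k = j.val + 1 := by
    intro k hk hmem
    rcases path_internal H (Set.range vtx) (by
        rintro x ⟨i, rfl⟩ y z hy hz
        exact h1 i y z hy hz) p hp (f k) hmem ⟨⟨k, hk⟩, (hfk k hk).symm⟩ with h | h
    · left
      rw [← (show f (0 + j.val) = vtx j.castSucc from ej), Nat.zero_add] at h
      exact hfinj k j.val hk (by omega) h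
    · right
      rw [← ej1] at h
      exact hfinj k (j.val + 1) hk (by omega) h
  have hnodup : ∀ i n, i + n ≤ m + 1 → ((List.range' i n).map f).Nodup := by
    intro i n h
    refine List.Nodup.map_on ?_ List.nodup_range'
    intro k hk l hl hkl
    rw [List.mem_range'_1] at hk hl
    exact hfinj k l (by omega) (by omega) hkl
  have hsupp : ((A.append P).append B).support =
      (List.range' 0 (j.val + 1)).map f ++ (p.support.tail ++
        (List.range' (j.val + 2) (m - (j.val + 1))).map f) := by
    rw [Walk.support_append, Walk.support_append, hAs, hPs, hBs, List.append_assoc]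
    congr 2
  have hpj : vtx j.castSucc ∉ p.support.tail := by
    have h2 := hp.support_nodup
    rw [← Walk.cons_tail_support] at h2
    exact (List.nodup_cons.1 h2).1
  have hedge : ((A.append P).append B).edges = A.edges ++ p.edges ++ B.edges := by
    rw [Walk.edges_append, Walk.edges_append, hPe]
  have hne : vtx j.castSucc ≠ vtx j.succ := (adj j).ne
  have hkey : ∀ k < m, s(f k, f (k + 1)) ≠ s(vtx (Fin.last m), vtx 0) := by
    intro k hk h
    have elast : f m = vtx (Fin.last m) := hfk m (by omega)
    rw [← elast, ← e0, Sym2.eq_iff] at h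
    rcases h with ⟨h2, h3⟩ | ⟨h2, h3⟩
    · have := hfinj k m (by omega) (by omega) h2
      omega
    · have h4 := hfinj k 0 (by omega) (by omega) h2
      have h5 := hfinj (k + 1) m (by omega) (by omega) h3
      omega
  refine ⟨(A.append P).append B, ?_, ?_, ?_, ?_⟩
  · rw [Walk.isPath_def, hsupp, List.nodup_append, List.nodup_append]
    refine ⟨hnodup _ _ (by omega), ⟨hp.support_nodup.tail, hnodup _ _ (by omega), ?_⟩, ?_⟩
    · intro x hx y hy hxy
      subst hxy
      rw [List.mem_map] at hy
      obtain ⟨k, hk, rfl⟩ := hy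
      rw [List.mem_range'_1] at hk
      have := hint k (by omega) (List.mem_of_mem_tail hx)
      omega
    · intro x hx y hy hxy
      subst hxy
      rw [List.mem_map] at hx
      obtain ⟨k, hk, rfl⟩ := hx
      rw [List.mem_range'_1] at hk
      rw [List.mem_append] at hy
      rcases hy with hy | hy
      · rcases hint k (by omega) (List.mem_of_mem_tail hy) with h | h
        · rw [h] at hy
          have ej' : f j.val = vtx j.castSucc := by rw [← ej, Nat.zero_add]
          rw [ej'] at hy
          exact hpj hy
        · omega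
      · rw [List.mem_map] at hy
        obtain ⟨l, hl, hlk⟩ := hy
        rw [List.mem_range'_1] at hl
        have := hfinj l k (by omega) (by omega) hlk
        omega
  · intro i
    rw [hsupp, List.mem_append, List.mem_append]
    rcases Nat.lt_or_ge i.val (j.val + 1) with h | h
    · left
      rw [List.mem_map]
      exact ⟨i.val, by rw [List.mem_range'_1]; omega, hfv i⟩
    · rcases Nat.eq_or_lt_of_le h with h | h
      · right
        left
        have : vtx i = vtx j.succ := congrArg vtx (Fin.ext (by simpa using h.symm))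
        rw [this]
        have h6 := p.end_mem_support
        rw [← Walk.cons_tail_support, List.mem_cons] at h6
        exact h6.resolve_left hne.symm
      · right
        right
        rw [List.mem_map]
        exact ⟨i.val, by rw [List.mem_range'_1]; omega, hfv i⟩
  · rw [hedge, List.mem_append, List.mem_append, hAe, hBe]
    rintro ((h | h) | h)
    · rw [List.mem_map] at h
      obtain ⟨k, hk, h⟩ := h
      rw [List.mem_range'_1] at hk
      exact hkey k (by omega) h
    · exact Hadj0 (p.adj_of_mem_edges h)
    · rw [List.mem_map] at h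
      obtain ⟨k, hk, h⟩ := h
      rw [List.mem_range'_1] at hk
      exact hkey k (by omega) h
  · have hlen : p.edges ≠ [] := by
      intro h
      have h7 : p.length = 0 := by rw [← Walk.length_edges, h]; rfl
      exact hne (Walk.eq_of_length_eq_zero h7)
    obtain ⟨e, he⟩ := List.exists_mem_of_ne_nil _ hlen
    refine ⟨e, ?_, ?_, ?_⟩
    · rw [hedge, List.mem_append, List.mem_append]
      exact Or.inl (Or.inr he)
    · rintro rfl
      exact Hadj0 (p.adj_of_mem_edges he)
    · rintro i rfl
      exact Hadj i (p.adj_of_mem_edges he)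

end Pool.Agent.LC
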