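import Mathlib

namespace Pool.Agent.LC

open SimpleGraph

/-- A graph is 2-connected if it has at least three vertices, is connected, and stays connected
after deleting any single vertex. -/
def TwoConnected {V : Type*} (G : SimpleGraph V) : Prop :=
  3 ≤ Nat.card V ∧ G.Connected ∧ ∀ x : V, (G.induce {x}ᶜ).Connected

/-- In a cubic graph exactly one neighbour of a vertex of a cycle is off the cycle edges. -/
theorem third_ncard {V : Type*} [Fintype V] (G : SimpleGraph V)
    [DecidableRel G.Adj] (h3 : G.IsRegularOfDegree 3)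
    {u : V} (C : G.Walk u u) (hC : C.IsCycle) (x : V) (hx : x ∈ C.support) :
    {y | (G.deleteEdges {e | e ∈ C.edges}).Adj x y}.ncard = 1 := by
  have h2 := hC.ncard_neighborSet_toSubgraph_eq_two hx
  have h1 : (G.neighborSet x).ncard = 3 := by
    rw [← Nat.card_coe_set_eq, Nat.card_eq_fintype_card, card_neighborSet_eq_degree]
    exact h3 x
  have hs : C.toSubgraph.neighborSet x ⊆ G.neighborSet x := C.toSubgraph.neighborSet_subset x
  have he : {y | (G.deleteEdges {e | e ∈ C.edges}).Adj x y} =
      G.neighborSet x \ C.toSubgraph.neighborSet x := by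
    ext y
    simp only [Set.mem_ofPred_eq, deleteEdges_adj, Set.mem_sdiff, mem_neighborSet,
      Subgraph.mem_neighborSet, ← Subgraph.mem_edgeSet, Walk.mem_edges_toSubgraph]
  rw [he, Set.ncard_sdiff hs, h1, h2]

/-- In a cubic graph, a vertex of a cycle has at most one neighbour off the cycle edges. -/
theorem third_unique {V : Type*} [Fintype V] [DecidableEq V] (G : SimpleGraph V)
    [DecidableRel G.Adj] (h3 : G.IsRegularOfDegree 3)
    {u : V} (C : G.Walk u u) (hC : C.IsCycle) (x : V) (hx : x ∈ C.support) (y z : V)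
    (hy : (G.deleteEdges {e | e ∈ C.edges}).Adj x y)
    (hz : (G.deleteEdges {e | e ∈ C.edges}).Adj x z) : y = z := by
  obtain ⟨w, hw⟩ := Set.ncard_eq_one.1 (third_ncard G h3 C hC x hx)
  have h1 : y ∈ ({w} : Set V) := hw ▸ hy
  have h2 : z ∈ ({w} : Set V) := hw ▸ hz
  rw [Set.mem_singleton_iff] at h1 h2
  rw [h1, h2]

/-- In a 2-connected cubic graph, every vertex of a cycle is joined to another vertex of the cycle
by a path that uses no edge of the cycle. -/
theorem initial_good {V : Type*} [Fintype V] [DecidableEq V] (G : SimpleGraph V)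
    [DecidableRel G.Adj] (h3 : G.IsRegularOfDegree 3) (h2 : TwoConnected G)
    {u : V} (C : G.Walk u u) (hC : C.IsCycle) (x : V) (hx : x ∈ C.support) :
    ∃ y ∈ C.support, y ≠ x ∧ (G.deleteEdges {e | e ∈ C.edges}).Reachable x y := by
  obtain ⟨w, hw⟩ := Set.ncard_eq_one.1 (third_ncard G h3 C hC x hx)
  have hxw : (G.deleteEdges {e | e ∈ C.edges}).Adj x w := by
    have : w ∈ {y | (G.deleteEdges {e | e ∈ C.edges}).Adj x y} := by
      rw [hw]; exact Set.mem_singleton w
    exact this
  obtain ⟨c, hc, hcx⟩ : ∃ c ∈ C.support, c ≠ x := by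
    by_cases hux : u = x
    · subst hux
      refine ⟨C.snd, C.getVert_mem_support 1, ?_⟩
      exact (C.adj_snd hC.not_nil).ne'
    · exact ⟨u, C.start_mem_support, hux⟩
  have key : ∀ (a b : ({x}ᶜ : Set V)) (p : (G.induce ({x}ᶜ : Set V)).Walk a b),
      (b : V) ∈ C.support →
      ∃ y ∈ C.support, y ≠ x ∧ (G.deleteEdges {e | e ∈ C.edges}).Reachable (a : V) y := by
    intro a b p
    induction p with
    | nil =>
      intro hb
      rename_i v
      exact ⟨v, hb, v.2, Reachable.refl _⟩
    | cons h p ih =>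
      intro hb
      rename_i v v' v''
      by_cases hv : (v : V) ∈ C.support
      · exact ⟨v, hv, v.2, Reachable.refl _⟩
      · obtain ⟨y, hy, hyx, hr⟩ := ih hb
        refine ⟨y, hy, hyx, Reachable.trans (Adj.reachable ?_) hr⟩
        rw [deleteEdges_adj]
        refine ⟨h, fun hmem => hv ?_⟩
        exact C.fst_mem_support_of_mem_edges hmem
  have hwx : w ∈ ({x}ᶜ : Set V) := hxw.ne'
  have hcx' : c ∈ ({x}ᶜ : Set V) := hcx
  obtain ⟨p⟩ := (h2.2.2 x).preconnected ⟨w, hwx⟩ ⟨c, hcx'⟩
  obtain ⟨y, hy, hyx, hr⟩ := key _ _ p hc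
  exact ⟨y, hy, hyx, hxw.reachable.trans hr⟩

end Pool.Agent.LC
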