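import Mathlib

namespace Pool.Agent.LC

open SimpleGraph

/-- Internal vertices of a path are not in `S` when the vertices of `S` have at most one neighbour. -/
theorem path_internal {V : Type*} (H : SimpleGraph V) (S : Set V)
    (h1 : ∀ x ∈ S, ∀ y z, H.Adj x y → H.Adj x z → y = z)
    {x y : V} (p : H.Walk x y) (hp : p.IsPath) (q : V) (hq : q ∈ p.support) (hqS : q ∈ S) :
    q = x ∨ q = y := by
  induction p with
  | nil =>
    rw [Walk.support_nil, List.mem_singleton] at hq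
    exact Or.inl hq
  | @cons a b c h p ih =>
    rw [Walk.cons_isPath_iff] at hp
    rw [Walk.support_cons, List.mem_cons] at hq
    rcases hq with hq | hq
    · exact Or.inl hq
    · rcases ih hp.1 hq with hqb | hqc
      · right
        cases p with
        | nil => exact hqb
        | @cons _ e _ h' p' =>
          exfalso
          rw [hqb] at hqS
          have h2 := h1 _ hqS a e h.symm h'
          apply hp.2
          rw [h2, Walk.support_cons, List.mem_cons]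
          exact Or.inr p'.start_mem_support
      · exact Or.inr hqc

/-- the part of a walk before it meets a set -/
theorem first_hit {V : Type*} {H : SimpleGraph V} (T : Set V) {x y : V} (Q : H.Walk x y)
    (hy : y ∈ T) : ∃ z ∈ T, ∃ Q' : H.Walk x z, ∀ p ∈ Q'.support, p ∈ T → p = z := by
  induction Q with
  | nil =>
    refine ⟨_, hy, Walk.nil, fun p hp _ => ?_⟩
    rw [Walk.support_nil, List.mem_singleton] at hp
    exact hp
  | @cons a b c h p ih =>
    by_cases ha : a ∈ T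
    · refine ⟨a, ha, Walk.nil, fun p hp _ => ?_⟩
      rw [Walk.support_nil, List.mem_singleton] at hp
      exact hp
    · obtain ⟨z, hz, Q', hQ'⟩ := ih hy
      refine ⟨z, hz, Walk.cons h Q', fun p hp hpT => ?_⟩
      rw [Walk.support_cons, List.mem_cons] at hp
      rcases hp with rfl | hp
      · exact absurd hpT ha
      · exact hQ' p hp hpT

theorem exists_tripod {V : Type*} (H : SimpleGraph V) (S : Set V)
    (h1 : ∀ x ∈ S, ∀ y z, H.Adj x y → H.Adj x z → y = z)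
    {a b d : V} (ha : a ∈ S) (hb : b ∈ S) (hd : d ∈ S) (hab : a ≠ b) (had : a ≠ d) (hbd : b ≠ d)
    (rab : H.Reachable a b) (rad : H.Reachable a d) :
    ∃ z, z ∉ S ∧ ∃ (la : H.Walk z a) (lb : H.Walk z b) (ld : H.Walk z d),
      la.IsPath ∧ lb.IsPath ∧ ld.IsPath ∧
      (∀ p, p ∈ la.support → p ∈ lb.support → p = z) ∧
      (∀ p, p ∈ la.support → p ∈ ld.support → p = z) ∧
      (∀ p, p ∈ lb.support → p ∈ ld.support → p = z) := by
  classical
  obtain ⟨P₀⟩ := rab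
  obtain ⟨P, hP⟩ : ∃ P : H.Walk a b, P.IsPath := ⟨P₀.bypass, P₀.bypass_isPath⟩
  obtain ⟨Q⟩ := rad.symm
  obtain ⟨z, hz, Q₁, hQ₁⟩ := first_hit {p | p ∈ P.support} Q P.start_mem_support
  obtain ⟨Q', hQp, hQ'⟩ : ∃ Q' : H.Walk d z, Q'.IsPath ∧ ∀ p ∈ Q'.support, p ∈ P.support → p = z :=
    ⟨Q₁.bypass, Q₁.bypass_isPath, fun p hp hpP => hQ₁ p (Q₁.support_bypass_subset hp) hpP⟩
  have hdP : d ∉ P.support := by
    intro h
    rcases path_internal H S h1 P hP d h hd with h | h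
    · exact had h.symm
    · exact hbd h.symm
  have hzd : d ≠ z := by
    rintro rfl
    exact hdP hz
  have hQn : ¬ Q'.Nil := fun h => hzd h.eq
  have hPn : ¬ P.Nil := fun h => hab h.eq
  -- the last vertex of `Q'` before `z`
  have hpen : Q'.penultimate ∉ P.support := by
    intro h
    have h2 := hQ' _ (Q'.getVert_mem_support _) h
    exact (Q'.adj_penultimate hQn).ne h2
  have hadj := Q'.adj_penultimate hQn
  have hzS : z ∉ S := by
    intro hzS
    rcases path_internal H S h1 P hP z hz hzS with h | h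
    · subst h
      apply hpen
      rw [h1 _ hzS _ _ hadj.symm (P.adj_snd hPn)]
      exact P.getVert_mem_support _
    · subst h
      apply hpen
      rw [h1 _ hzS _ _ hadj.symm (P.adj_penultimate hPn).symm]
      exact P.getVert_mem_support _
  have hdisj : ∀ p, p ∈ (P.takeUntil z hz).support → p ∈ (P.dropUntil z hz).support → p = z := by
    intro p hp1 hp2
    have h2 : ((P.takeUntil z hz).append (P.dropUntil z hz)).IsPath := by
      rw [P.take_spec hz]
      exact hP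
    have h3 := h2.support_nodup
    rw [Walk.support_append, List.nodup_append] at h3
    rw [Walk.support_eq_cons (P.dropUntil z hz), List.mem_cons] at hp2
    rcases hp2 with hp2 | hp2
    · exact hp2
    · exact absurd rfl (h3.2.2 p hp1 p hp2)
  refine ⟨z, hzS, (P.takeUntil z hz).reverse, P.dropUntil z hz, Q'.reverse,
    (hP.takeUntil hz).reverse, hP.dropUntil hz, hQp.reverse, ?_, ?_, ?_⟩
  · intro p hp1 hp2
    rw [Walk.support_reverse, List.mem_reverse] at hp1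
    exact hdisj p hp1 hp2
  · intro p hp1 hp2
    rw [Walk.support_reverse, List.mem_reverse] at hp1 hp2
    exact hQ' p hp2 (P.support_takeUntil_subset hz hp1)
  · intro p hp1 hp2
    rw [Walk.support_reverse, List.mem_reverse] at hp2
    exact hQ' p hp2 (P.support_dropUntil_subset hz hp1)

private theorem d_reach {V : Type*} {H : SimpleGraph V} {e : Sym2 V} {x y : V} (w : H.Walk x y)
    (h : e ∉ w.edges) : (H.deleteEdges {e}).Reachable x y := by
  refine ⟨w.toDeleteEdges {e} ?_⟩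
  intro e' he' hmem
  rw [Set.mem_singleton_iff] at hmem
  exact h (hmem ▸ he')

private theorem d_split {V : Type*} {H : SimpleGraph V} {z p x y : V} (w : H.Walk x y) :
    (H.deleteEdges {s(z, p)}).Reachable x y ∨ (H.deleteEdges {s(z, p)}).Reachable x z ∨
      (H.deleteEdges {s(z, p)}).Reachable x p := by
  induction w with
  | nil => exact Or.inl (Reachable.refl _)
  | @cons u v w' h q ih =>
    by_cases he : s(u, v) = s(z, p)
    · rw [Sym2.eq_iff] at he
      rcases he with ⟨rfl, rfl⟩ | ⟨rfl, rfl⟩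
      · exact Or.inr (Or.inl (Reachable.refl _))
      · exact Or.inr (Or.inr (Reachable.refl _))
    · have h1 : (H.deleteEdges {s(z, p)}).Adj u v := by
        rw [deleteEdges_adj]
        exact ⟨h, he⟩
      rcases ih with ih | ih | ih
      · exact Or.inl (h1.reachable.trans ih)
      · exact Or.inr (Or.inl (h1.reachable.trans ih))
      · exact Or.inr (Or.inr (h1.reachable.trans ih))

private theorem d_good {V : Type*} {H : SimpleGraph V} {S : Set V}
    (hg : ∀ x ∈ S, ∃ y ∈ S, y ≠ x ∧ H.Reachable x y) {z p x₁ x₂ x₃ x₄ : V}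
    (s₁ : x₁ ∈ S) (s₂ : x₂ ∈ S) (s₃ : x₃ ∈ S) (s₄ : x₄ ∈ S) (h14 : x₁ ≠ x₄) (h23 : x₂ ≠ x₃)
    (r1 : (H.deleteEdges {s(z, p)}).Reachable p x₁) (r4 : (H.deleteEdges {s(z, p)}).Reachable p x₄)
    (r2 : (H.deleteEdges {s(z, p)}).Reachable z x₂) (r3 : (H.deleteEdges {s(z, p)}).Reachable z x₃) :
    ∀ x ∈ S, ∃ y ∈ S, y ≠ x ∧ (H.deleteEdges {s(z, p)}).Reachable x y := by
  intro x hx
  obtain ⟨y, hy, hne, ⟨w⟩⟩ := hg x hx
  rcases d_split (z := z) (p := p) w with h | h | h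
  · exact ⟨y, hy, hne, h⟩
  · by_cases hc : x₂ = x
    · exact ⟨x₃, s₃, fun h' => h23 (hc.trans h'.symm), h.trans r3⟩
    · exact ⟨x₂, s₂, hc, h.trans r2⟩
  · by_cases hc : x₁ = x
    · exact ⟨x₄, s₄, fun h' => h14 (hc.trans h'.symm), h.trans r4⟩
    · exact ⟨x₁, s₁, hc, h.trans r1⟩

/-- the first step of a path -/
private theorem d_step {V : Type*} {H : SimpleGraph V} {z x : V} (w : H.Walk z x) (hw : w.IsPath)
    (hne : z ≠ x) : ∃ (p : V) (_ : H.Adj z p) (w' : H.Walk p x), z ∉ w'.support ∧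
      p ∈ w.support := by
  cases w with
  | nil => exact absurd rfl hne
  | cons h q =>
    rw [Walk.cons_isPath_iff] at hw
    exact ⟨_, h, q, hw.2, by simp⟩

theorem exists_minimal_link {V : Type*} [Fintype V] (H : SimpleGraph V) (S : Set V)
    (h1 : ∀ x ∈ S, ∀ y z, H.Adj x y → H.Adj x z → y = z)
    (h3 : ∀ x ∉ S, (H.neighborSet x).ncard ≤ 3)
    (hgood : ∀ x ∈ S, ∃ y ∈ S, y ≠ x ∧ H.Reachable x y) :
    ∃ H' ≤ H, (∀ x ∈ S, ∃ y ∈ S, y ≠ x ∧ H'.Reachable x y) ∧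
      ∀ x₁ ∈ S, ∀ x₂ ∈ S, ∀ x₃ ∈ S, ∀ x₄ ∈ S, x₁ ≠ x₂ → x₁ ≠ x₃ → x₁ ≠ x₄ → x₂ ≠ x₃ →
        x₂ ≠ x₄ → x₃ ≠ x₄ → H'.Reachable x₁ x₂ → H'.Reachable x₁ x₃ → H'.Reachable x₁ x₄ →
        False := by
  classical
  obtain ⟨H', hH', hmin⟩ := (Set.toFinite {K : SimpleGraph V | K ≤ H ∧
    ∀ x ∈ S, ∃ y ∈ S, y ≠ x ∧ K.Reachable x y}).exists_minimal ⟨H, le_rfl, hgood⟩
  obtain ⟨hle, hg⟩ := hH'
  refine ⟨H', hle, hg, ?_⟩
  -- deleting an edge `z p` is impossible
  have hnot : ∀ z p : V, H'.Adj z p →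
      ¬ ∀ x ∈ S, ∃ y ∈ S, y ≠ x ∧ (H'.deleteEdges {s(z, p)}).Reachable x y := by
    intro z p hzp hall
    have e1 : H' ≤ H'.deleteEdges {s(z, p)} :=
      hmin ⟨(deleteEdges_le _).trans hle, hall⟩ (deleteEdges_le _)
    have e2 := e1 hzp
    rw [deleteEdges_adj] at e2
    exact e2.2 rfl
  intro x₁ s₁ x₂ s₂ x₃ s₃ x₄ s₄ h12 h13 h14 h23 h24 h34 r12 r13 r14
  have h1' : ∀ x ∈ S, ∀ y z, H'.Adj x y → H'.Adj x z → y = z := fun x hx y z hy hz =>
    h1 x hx y z (hle hy) (hle hz)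
  obtain ⟨z, hz, la, lb, ld, pa, pb, pd, dab, dad, dbd⟩ :=
    exists_tripod H' S h1' s₁ s₂ s₃ h12 h13 h23 r12 r13
  have hz1 : z ≠ x₁ := fun h => hz (h ▸ s₁)
  have hz2 : z ≠ x₂ := fun h => hz (h ▸ s₂)
  have hz3 : z ≠ x₃ := fun h => hz (h ▸ s₃)
  have hz4 : z ≠ x₄ := fun h => hz (h ▸ s₄)
  obtain ⟨p₁, a₁, w₁, n₁, m₁⟩ := d_step la pa hz1
  obtain ⟨p₂, a₂, w₂, n₂, m₂⟩ := d_step lb pb hz2
  obtain ⟨p₃, a₃, w₃, n₃, m₃⟩ := d_step ld pd hz3
  obtain ⟨W⟩ := (la.reachable.trans r14)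
  obtain ⟨p₄, a₄, w₄, n₄, -⟩ := d_step W.toPath.1 W.toPath.2 hz4
  have d12 : p₁ ≠ p₂ := fun h => a₁.ne (dab p₁ m₁ (h ▸ m₂)).symm
  have d13 : p₁ ≠ p₃ := fun h => a₁.ne (dad p₁ m₁ (h ▸ m₃)).symm
  have d23 : p₂ ≠ p₃ := fun h => a₂.ne (dbd p₂ m₂ (h ▸ m₃)).symm
  have hN : ({p₁, p₂, p₃} : Set V) = H'.neighborSet z := by
    apply Set.eq_of_subset_of_ncard_le
    · rintro q (rfl | rfl | rfl)
      · exact a₁
      · exact a₂
      · exact a₃
    · have e1 : (H'.neighborSet z).ncard ≤ 3 :=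
        (Set.ncard_le_ncard (fun q (hq : H'.Adj z q) => hle hq) (Set.toFinite _)).trans (h3 z hz)
      have e2 : ({p₁, p₂, p₃} : Set V).ncard = 3 := by
        rw [Set.ncard_eq_three]
        exact ⟨p₁, p₂, p₃, d12, d13, d23, rfl⟩
      rw [e2]
      exact e1
    · exact Set.toFinite _
  -- walks which avoid `z` or `p` survive
  have av1 : ∀ {p x y : V} (w : H'.Walk x y), z ∉ w.support →
      (H'.deleteEdges {s(z, p)}).Reachable x y := fun w hw =>
    d_reach w fun h => hw (Walk.fst_mem_support_of_mem_edges w h)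
  have av2 : ∀ {p x y : V} (w : H'.Walk x y), p ∉ w.support →
      (H'.deleteEdges {s(z, p)}).Reachable x y := fun w hw =>
    d_reach w fun h => hw (Walk.snd_mem_support_of_mem_edges w h)
  have h4 : p₄ ∈ ({p₁, p₂, p₃} : Set V) := by rw [hN]; exact a₄
  rcases h4 with rfl | rfl | rfl
  · exact hnot z p₄ a₄ (d_good hg s₁ s₂ s₃ s₄ h14 h23 (av1 w₁ n₁) (av1 w₄ n₄)
      (av2 lb fun h => a₄.ne (dab _ m₁ h).symm) (av2 ld fun h => a₄.ne (dad _ m₁ h).symm))
  · exact hnot z p₄ a₄ (d_good hg s₂ s₁ s₃ s₄ h24 h13 (av1 w₂ n₂) (av1 w₄ n₄)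
      (av2 la fun h => a₄.ne (dab _ h m₂).symm) (av2 ld fun h => a₄.ne (dbd _ m₂ h).symm))
  · exact hnot z p₄ a₄ (d_good hg s₃ s₁ s₂ s₄ h34 h12 (av1 w₃ n₃) (av1 w₄ n₄)
      (av2 la fun h => a₄.ne (dad _ h m₃).symm) (av2 lb fun h => a₄.ne (dbd _ h m₃).symm))

end Pool.Agent.LC
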