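import Pool.Agent.LC.SetupDefs
import Pool.Agent.LC.Start
import Pool.Agent.LC.Tripod
import Pool.Agent.LC.Listing

namespace Pool.Agent.LC

open SimpleGraph

/-- ROW H1c: in a 2-connected cubic graph, a cycle listing gives either the new path at once or a
`Setup` with the same listing. -/
theorem setup_or_detour {V : Type*} [Fintype V] [DecidableEq V] (G : SimpleGraph V)
    [DecidableRel G.Adj] (h3 : G.IsRegularOfDegree 3) (h2 : TwoConnected G)
    {u : V} (C : G.Walk u u) (hC : C.IsCycle) (m : ℕ) (hm : 2 ≤ m)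
    (vtx : Fin (m + 1) → V) (inj : Function.Injective vtx)
    (adj : ∀ j : Fin m, G.Adj (vtx j.castSucc) (vtx j.succ))
    (adj0 : G.Adj (vtx (Fin.last m)) (vtx 0))
    (hs : ∀ x, x ∈ C.support ↔ ∃ i, vtx i = x)
    (he : ∀ e, e ∈ C.edges ↔ (e = s(vtx (Fin.last m), vtx 0) ∨
        ∃ j : Fin m, e = s(vtx j.castSucc, vtx j.succ))) :
    (∃ W : G.Walk (vtx 0) (vtx (Fin.last m)), W.IsPath ∧ (∀ i, vtx i ∈ W.support) ∧
      s(vtx (Fin.last m), vtx 0) ∉ W.edges ∧
      ∃ e ∈ W.edges, e ≠ s(vtx (Fin.last m), vtx 0) ∧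
        ∀ j : Fin m, e ≠ s(vtx j.castSucc, vtx j.succ)) ∨
    (∃ s : Setup G, ∃ h : s.m = m, ∀ i : Fin (m + 1), s.vtx (Fin.cast (by rw [h]) i) = vtx i) := by
  set H0 : SimpleGraph V := G.deleteEdges {e | e ∈ C.edges} with hH0
  set S : Set V := {x | x ∈ C.support} with hS
  have hH0G : H0 ≤ G := SimpleGraph.deleteEdges_le _
  have hmem : ∀ i, vtx i ∈ S := fun i => (hs _).2 ⟨i, rfl⟩
  have h1 : ∀ x ∈ S, ∀ y z, H0.Adj x y → H0.Adj x z → y = z := fun x hx y z hy hz =>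
    third_unique G h3 C hC x hx y z hy hz
  have h3' : ∀ x ∉ S, (H0.neighborSet x).ncard ≤ 3 := by
    intro x _
    have e1 : H0.neighborSet x ⊆ G.neighborSet x := fun y hy => hH0G hy
    have e2 : (G.neighborSet x).ncard = 3 := by
      rw [← Nat.card_coe_set_eq, Nat.card_eq_fintype_card, SimpleGraph.card_neighborSet_eq_degree]
      exact h3 x
    rw [← e2]
    exact Set.ncard_le_ncard e1 (Set.toFinite _)
  have hgood : ∀ x ∈ S, ∃ y ∈ S, y ≠ x ∧ H0.Reachable x y := fun x hx =>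
    initial_good G h3 h2 C hC x hx
  obtain ⟨H, hH, hg, h4⟩ := exists_minimal_link H0 S h1 h3' hgood
  have hHG : H ≤ G := hH.trans hH0G
  have Hadj : ∀ j : Fin m, ¬ H.Adj (vtx j.castSucc) (vtx j.succ) := by
    intro j hj
    have e1 := hH hj
    rw [hH0, SimpleGraph.deleteEdges_adj] at e1
    exact e1.2 ((he _).2 (Or.inr ⟨j, rfl⟩))
  have Hadj0 : ¬ H.Adj (vtx (Fin.last m)) (vtx 0) := by
    intro hj
    have e1 := hH hj
    rw [hH0, SimpleGraph.deleteEdges_adj] at e1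
    exact e1.2 ((he _).2 (Or.inl rfl))
  have h1' : ∀ i y z, H.Adj (vtx i) y → H.Adj (vtx i) z → y = z := fun i y z hy hz =>
    h1 _ (hmem i) y z (hH hy) (hH hz)
  by_cases hdet : ∃ j : Fin m, H.Reachable (vtx j.castSucc) (vtx j.succ)
  · obtain ⟨j, hj⟩ := hdet
    exact Or.inl (detour G m hm vtx inj adj adj0 H hHG Hadj Hadj0 h1' j hj)
  · push Not at hdet
    refine Or.inr ⟨{ m := m, hm := hm, vtx := vtx, inj := inj, adj := adj, adj0 := adj0, H := H,
                     HG := hHG, Hadj := Hadj, Hadj0 := Hadj0, h1 := h1', good := ?_, three := ?_,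
                     nc := hdet }, rfl, fun i => rfl⟩
    · intro i
      obtain ⟨y, hy, hne, hr⟩ := hg _ (hmem i)
      obtain ⟨j, rfl⟩ := (hs _).1 hy
      exact ⟨j, fun h => hne (by rw [h]), hr⟩
    · intro i j k l hij hik hil hjk hjl hkl r1 r2 r3
      exact h4 _ (hmem i) _ (hmem j) _ (hmem k) _ (hmem l) (inj.ne hij) (inj.ne hik) (inj.ne hil)
        (inj.ne hjk) (inj.ne hjl) (inj.ne hkl) r1 r2 r3

end Pool.Agent.LC
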