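import Pool.Agent.LC.SetupDefs

namespace Pool.Agent.LC

open SimpleGraph

/-- appending two paths that meet in the common end only -/
theorem isPath_append_of {V : Type*} {G : SimpleGraph V} {x y z : V} {p : G.Walk x y}
    {r : G.Walk y z} (hp : p.IsPath) (hr : r.IsPath)
    (h : ∀ v, v ∈ p.support → v ∈ r.support → v = y) : (p.append r).IsPath := by
  rw [Walk.isPath_def, Walk.support_append, List.nodup_append]
  refine ⟨hp.support_nodup, hr.support_nodup.tail, ?_⟩
  intro v hv w hw hvw
  subst hvw
  have h2 := hr.support_nodup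
  rw [← Walk.cons_tail_support] at h2
  have h3 := h v hv (List.mem_of_mem_tail hw)
  subst h3
  exact (List.nodup_cons.1 h2).1 hw

/-- ROW H2: a Hamiltonian path of `A` from `0` to the last vertex, other than the identity and
without `b a d` in a row, gives a new path of `G`. -/
theorem new_path {V : Type*} [DecidableEq V] {G : SimpleGraph V} (s : Setup G) (D : RealData s)
    (q : Equiv.Perm (Fin (s.m + 1))) (hq : Ham s.A q) (hl : q (Fin.last s.m) = Fin.last s.m)
    (h1 : q ≠ 1)
    (hno : ∀ t, ∀ x x', ((x = s.b t ∧ x' = s.d t) ∨ (x = s.d t ∧ x' = s.b t)) →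
      (q.symm x).val + 1 = (q.symm (s.a t)).val → (q.symm (s.a t)).val + 1 ≠ (q.symm x').val) :
    ∃ W : G.Walk (s.vtx 0) (s.vtx (Fin.last s.m)), W.IsPath ∧ (∀ i, s.vtx i ∈ W.support) ∧
      s(s.vtx (Fin.last s.m), s.vtx 0) ∉ W.edges ∧
      ∃ e ∈ W.edges, e ≠ s(s.vtx (Fin.last s.m), s.vtx 0) ∧
        ∀ j : Fin s.m, e ≠ s(s.vtx j.castSucc, s.vtx j.succ) := by
  have hm := s.hm
  -- walks of block edges are walks of `H`
  have hreach : ∀ i j (h : s.A.Adj i j), s.blk i j → ∀ v ∈ (D.r i j h).support,
      s.H.Reachable (s.vtx i) v := by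
    intro i j h hb v hv
    have h2 : ∀ e ∈ (D.r i j h).edges, e ∈ s.H.edgeSet := D.r_blk i j h hb
    have h3 : v ∈ ((D.r i j h).transfer s.H h2).support := by rwa [Walk.support_transfer]
    exact ⟨((D.r i j h).transfer s.H h2).takeUntil v h3⟩
  -- walks of consecutive edges have two vertices
  have hcons : ∀ i j (h : s.A.Adj i j), s.cons i j → ∀ v ∈ (D.r i j h).support,
      v = s.vtx i ∨ v = s.vtx j := by
    intro i j h hc v hv
    have h2 := D.r_cons i j h hc
    have hlen : (D.r i j h).length = 1 := by rw [← Walk.length_edges, h2]; rfl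
    rw [Walk.mem_support_iff_exists_getVert] at hv
    obtain ⟨n, hn, hle⟩ := hv
    rw [hlen] at hle
    rcases Nat.eq_zero_or_pos n with h0 | h0
    · subst h0
      left
      rw [← hn]
      exact Walk.getVert_zero _
    · have : n = 1 := by omega
      subst this
      right
      rw [← hn, ← hlen]
      exact Walk.getVert_length _
  have hnotvtx : ∀ i j (h : s.A.Adj i j) v, v ∈ (D.r i j h).support → (∀ k, s.vtx k ≠ v) →
      s.blk i j := by
    intro i j h v hv hk
    rcases h with hc | hb
    · rcases hcons i j (Or.inl hc) hc v hv with h2 | h2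
      · exact absurd h2.symm (hk i)
      · exact absurd h2.symm (hk j)
    · exact hb
  have hadj : ∀ k (hk : k < s.m), s.A.Adj (q ⟨k, by omega⟩) (q ⟨k + 1, by omega⟩) :=
    fun k hk => hq.2 ⟨k, hk⟩
  -- two different steps
  have hmeet : ∀ j k (hj : j < s.m) (hk : k < s.m), j < k → ∀ v,
      v ∈ (D.r _ _ (hadj j hj)).support → v ∈ (D.r _ _ (hadj k hk)).support →
      v = s.vtx (q ⟨k, by omega⟩) := by
    intro j k hj hk hjk v hvj hvk
    by_cases hv : ∃ l, s.vtx l = v
    · obtain ⟨l, rfl⟩ := hv
      have e1 := D.r_supp _ _ _ l hvj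
      have e2 := D.r_supp _ _ _ l hvk
      rcases e2 with e2 | e2
      · rw [e2]
      · exfalso
        rcases e1 with e1 | e1
        · have := q.injective (e1.symm.trans e2)
          rw [Fin.mk.injEq] at this
          omega
        · have := q.injective (e1.symm.trans e2)
          rw [Fin.mk.injEq] at this
          omega
    · push Not at hv
      exfalso
      have b1 := hnotvtx _ _ _ v hvj hv
      have b2 := hnotvtx _ _ _ v hvk hv
      have r1 := hreach _ _ _ b1 v hvj
      have r2 := hreach _ _ _ b2 v hvk
      have r3 : s.rel (q ⟨j, by omega⟩) (q ⟨k, by omega⟩) := r1.trans r2.symm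
      have r4 : s.rel (q ⟨j, by omega⟩) (q ⟨j + 1, by omega⟩) := b1.2.1
      have r5 : s.rel (q ⟨k, by omega⟩) (q ⟨k + 1, by omega⟩) := b2.2.1
      have r6 : s.rel (q ⟨j, by omega⟩) (q ⟨k + 1, by omega⟩) := r3.trans r5
      have hne : ∀ a b (ha : a < s.m + 1) (hb : b < s.m + 1), a ≠ b → q ⟨a, ha⟩ ≠ q ⟨b, hb⟩ := by
        intro a b ha hb hab h
        have := q.injective h
        rw [Fin.mk.injEq] at this
        exact hab this
      rcases Nat.lt_or_ge (j + 1) k with hlt | hge
      · exact s.three (q ⟨j, by omega⟩) (q ⟨j + 1, by omega⟩) (q ⟨k, by omega⟩)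
          (q ⟨k + 1, by omega⟩) (hne _ _ _ _ (by omega)) (hne _ _ _ _ (by omega))
          (hne _ _ _ _ (by omega)) (hne _ _ _ _ (by omega)) (hne _ _ _ _ (by omega))
          (hne _ _ _ _ (by omega)) r4 r3 r6
      · have hk1 : k = j + 1 := by omega
        subst hk1
        -- the three vertices of one block, the middle one is the first vertex of the block
        set x := q ⟨j, by omega⟩ with hx
        set a := q ⟨j + 1, by omega⟩ with ha
        set y := q ⟨j + 1 + 1, by omega⟩ with hy
        have nxa : x ≠ a := hne _ _ _ _ (by omega)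
        have nay : a ≠ y := hne _ _ _ _ (by omega)
        have nxy : x ≠ y := hne _ _ _ _ (by omega)
        have amin : s.isMin a := by
          by_contra hna
          have mx : s.isMin x := b1.2.2.resolve_right hna
          have my : s.isMin y := b2.2.2.resolve_left hna
          have l1 := mx y r6
          have l2 := my x (SimpleGraph.Reachable.symm r6)
          exact nxy (le_antisymm l1 l2)
        have hax : a < x := lt_of_le_of_ne (amin x (SimpleGraph.Reachable.symm r4)) nxa.symm
        have hay : a < y := lt_of_le_of_ne (amin y r5) nay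
        have hsx : q.symm x = ⟨j, by omega⟩ := by rw [hx, Equiv.symm_apply_apply]
        have hsa : q.symm a = ⟨j + 1, by omega⟩ := by rw [ha, Equiv.symm_apply_apply]
        have hsy : q.symm y = ⟨j + 1 + 1, by omega⟩ := by rw [hy, Equiv.symm_apply_apply]
        rcases lt_or_gt_of_ne nxy with hlt | hgt
        · let t : s.T := ⟨(a, x, y), hax, hlt, SimpleGraph.Reachable.symm r4, r5⟩
          refine hno t x y (Or.inl ⟨rfl, rfl⟩) ?_ ?_
          · change (q.symm x).val + 1 = (q.symm a).val
            rw [hsx, hsa]
          · change (q.symm a).val + 1 = (q.symm y).val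
            rw [hsa, hsy]
        · let t : s.T := ⟨(a, y, x), hay, hgt, r5, SimpleGraph.Reachable.symm r4⟩
          refine hno t x y (Or.inr ⟨rfl, rfl⟩) ?_ ?_
          · change (q.symm x).val + 1 = (q.symm a).val
            rw [hsx, hsa]
          · change (q.symm a).val + 1 = (q.symm y).val
            rw [hsa, hsy]
  -- the partial walks
  have hW : ∀ k (hk : k < s.m + 1), ∃ W : G.Walk (s.vtx (q 0)) (s.vtx (q ⟨k, hk⟩)), W.IsPath ∧
      (∀ v ∈ W.support, v = s.vtx (q 0) ∨ ∃ j, ∃ hj : j < s.m, j < k ∧
        v ∈ (D.r _ _ (hadj j hj)).support) ∧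
      (∀ j (hj : j < s.m + 1), j ≤ k → s.vtx (q ⟨j, hj⟩) ∈ W.support) ∧
      (∀ e, e ∈ W.edges ↔ ∃ j, ∃ hj : j < s.m, j < k ∧ e ∈ (D.r _ _ (hadj j hj)).edges) := by
    intro k
    induction k with
    | zero =>
      intro hk
      refine ⟨Walk.nil, Walk.IsPath.nil, ?_, ?_, ?_⟩
      · intro v hv
        left
        simpa using hv
      · intro j hj hj0
        have : j = 0 := by omega
        subst this
        exact Walk.start_mem_support _
      · intro e
        simp
    | succ k ih =>
      intro hk
      obtain ⟨W, w1, w2, w3, w4⟩ := ih (by omega)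
      have hk' : k < s.m := by omega
      refine ⟨W.append (D.r _ _ (hadj k hk')), ?_, ?_, ?_, ?_⟩
      · refine isPath_append_of w1 (D.r_path _ _ _) ?_
        intro v hv hv'
        rcases w2 v hv with rfl | ⟨j, hj, hjk, hvj⟩
        · rcases Nat.eq_zero_or_pos k with h0 | h0
          · subst h0
            rfl
          · refine hmeet 0 k (by omega) hk' h0 _ ?_ hv'
            exact Walk.start_mem_support _
        · exact hmeet j k hj hk' hjk v hvj hv'
      · intro v hv
        rw [Walk.mem_support_append_iff] at hv
        rcases hv with hv | hv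
        · rcases w2 v hv with h | ⟨j, hj, hjk, hvj⟩
          · exact Or.inl h
          · exact Or.inr ⟨j, hj, by omega, hvj⟩
        · exact Or.inr ⟨k, hk', by omega, hv⟩
      · intro j hj hjk
        rw [Walk.mem_support_append_iff]
        rcases Nat.lt_or_ge k j with h | h
        · right
          have : j = k + 1 := by omega
          subst this
          exact Walk.end_mem_support _
        · exact Or.inl (w3 j hj h)
      · intro e
        rw [Walk.edges_append, List.mem_append, w4]
        constructor
        · rintro (⟨j, hj, hjk, he⟩ | he)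
          · exact ⟨j, hj, by omega, he⟩
          · exact ⟨k, hk', by omega, he⟩
        · rintro ⟨j, hj, hjk, he⟩
          rcases Nat.lt_or_ge j k with h | h
          · exact Or.inl ⟨j, hj, h, he⟩
          · have : j = k := by omega
            subst this
            exact Or.inr he
  obtain ⟨W, w1, w2, w3, w4⟩ := hW s.m (by omega)
  have e0 : s.vtx (q 0) = s.vtx 0 := by rw [hq.1]
  have el : s.vtx (q ⟨s.m, by omega⟩) = s.vtx (Fin.last s.m) := congrArg s.vtx hl
  -- some step is not consecutive
  have hstep : ∃ j, ∃ hj : j < s.m, ¬ s.cons (q ⟨j, by omega⟩) (q ⟨j + 1, by omega⟩) := by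
    by_contra hcon
    push Not at hcon
    apply h1
    have key : ∀ k (hk : k < s.m + 1), (q ⟨k, hk⟩).val = k := by
      intro k
      induction k using Nat.strong_induction_on with
      | _ k ih =>
        intro hk
        rcases Nat.eq_zero_or_pos k with h0 | h0
        · subst h0
          exact congrArg Fin.val hq.1
        · obtain ⟨k, rfl⟩ : ∃ l, k = l + 1 := ⟨k - 1, by omega⟩
          have c := hcon k (by omega)
          have i1 := ih k (by omega) (by omega)
          rcases c with c | c
          · rw [i1] at c
            exact c.symm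
          · exfalso
            rw [i1] at c
            have i2 := ih (k - 1) (by omega) (by omega)
            have : q ⟨k - 1, by omega⟩ = q ⟨k + 1, hk⟩ := Fin.ext (by omega)
            have := q.injective this
            rw [Fin.mk.injEq] at this
            omega
    ext x
    exact key x.val x.isLt
  refine ⟨W.copy e0 el, ?_, ?_, ?_, ?_⟩
  · rw [Walk.isPath_copy]
    exact w1
  · intro i
    rw [Walk.support_copy]
    have := w3 (q.symm i).val (q.symm i).isLt (by omega)
    simpa using this
  · rw [Walk.edges_copy, w4]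
    rintro ⟨j, hj, -, he⟩
    rcases hadj j hj with hc | hb
    · rw [D.r_cons _ _ _ hc, List.mem_singleton, Sym2.eq_iff] at he
      rcases he with ⟨h2, h3⟩ | ⟨h2, h3⟩
      · have h4 := s.inj h2
        have h5 := s.inj h3
        rw [← h4, ← h5] at hc
        rcases hc with hc | hc
        · rw [Fin.val_last] at hc
          simp at hc
        · rw [Fin.val_last] at hc
          simp at hc
          omega
      · have h4 := s.inj h2
        have h5 := s.inj h3
        rw [← h4, ← h5] at hc
        rcases hc with hc | hc
        · rw [Fin.val_last] at hc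
          simp at hc
          omega
        · rw [Fin.val_last] at hc
          simp at hc
    · exact s.Hadj0 (D.r_blk _ _ _ hb _ he)
  · obtain ⟨j, hj, hnc⟩ := hstep
    have hb : s.blk (q ⟨j, by omega⟩) (q ⟨j + 1, by omega⟩) := (hadj j hj).resolve_left hnc
    have hne : s.vtx (q ⟨j, by omega⟩) ≠ s.vtx (q ⟨j + 1, by omega⟩) := fun h => hb.1 (s.inj h)
    have hnil : (D.r _ _ (hadj j hj)).edges ≠ [] := by
      intro h
      have h7 : (D.r _ _ (hadj j hj)).length = 0 := by rw [← Walk.length_edges, h]; rfl
      exact hne (Walk.eq_of_length_eq_zero h7)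
    obtain ⟨e, he⟩ := List.exists_mem_of_ne_nil _ hnil
    have heH : e ∈ s.H.edgeSet := D.r_blk _ _ _ hb e he
    refine ⟨e, ?_, ?_, ?_⟩
    · rw [Walk.edges_copy, w4]
      exact ⟨j, hj, hj, he⟩
    · rintro rfl
      exact s.Hadj0 heH
    · rintro i rfl
      exact s.Hadj i heH

end Pool.Agent.LC
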