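import Pool.Agent.LC.SetupDefs
import Pool.Agent.LC.Deg
import Pool.Agent.LC.Tripod

namespace Pool.Agent.LC

open SimpleGraph

theorem G1_append {V : Type*} {H : SimpleGraph V} {u z v : V} {p : H.Walk z u} {q : H.Walk z v}
    (hp : p.IsPath) (hq : q.IsPath) (h : ∀ x, x ∈ p.support → x ∈ q.support → x = z) :
    (p.reverse.append q).IsPath := by
  have hq' : (z :: q.support.tail).Nodup := by
    have := hq.support_nodup
    rwa [← Walk.cons_tail_support q] at this
  rw [Walk.isPath_def, Walk.support_append, Walk.support_reverse, List.nodup_append]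
  refine ⟨List.nodup_reverse.2 hp.support_nodup, (List.nodup_cons.1 hq').2, ?_⟩
  intro x hx y hy hxy
  subst hxy
  have hx' : x ∈ p.support := List.mem_reverse.1 hx
  have hy' : x ∈ q.support := List.mem_of_mem_tail hy
  have := h x hx' hy'
  subst this
  exact (List.nodup_cons.1 hq').1 hy

theorem G1_mem_append {V : Type*} {H : SimpleGraph V} {u z v x : V} {p : H.Walk z u}
    {q : H.Walk z v} (hx : x ∈ (p.reverse.append q).support) : x ∈ p.support ∨ x ∈ q.support := by
  rw [Walk.mem_support_append_iff, Walk.support_reverse, List.mem_reverse] at hx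
  exact hx

/-- the real walk of an edge `i j`, `i < j`, of `A` -/
theorem G1_walk {V : Type*} {G : SimpleGraph V} (s : Setup G) (z : s.T → V)
    (la : ∀ t, s.H.Walk (z t) (s.vtx (s.a t)))
    (lb : ∀ t, s.H.Walk (z t) (s.vtx (s.b t)))
    (ld : ∀ t, s.H.Walk (z t) (s.vtx (s.d t)))
    (pa : ∀ t, (la t).IsPath) (pb : ∀ t, (lb t).IsPath) (pd : ∀ t, (ld t).IsPath)
    (dab : ∀ t p, p ∈ (la t).support → p ∈ (lb t).support → p = z t)
    (dad : ∀ t p, p ∈ (la t).support → p ∈ (ld t).support → p = z t)
    (ia : ∀ t k, s.vtx k ∈ (la t).support → k = s.a t)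
    (ib : ∀ t k, s.vtx k ∈ (lb t).support → k = s.b t)
    (id : ∀ t k, s.vtx k ∈ (ld t).support → k = s.d t)
    (i j : Fin (s.m + 1)) (hij : i < j) (h : s.A.Adj i j) :
    ∃ w : G.Walk (s.vtx i) (s.vtx j), w.IsPath ∧ (∀ k, s.vtx k ∈ w.support → k = i ∨ k = j) ∧
      (s.cons i j → w.edges = [s(s.vtx i, s.vtx j)]) ∧
      (s.blk i j → ∀ e ∈ w.edges, e ∈ s.H.edgeSet) ∧
      (∀ t, i = s.a t → j = s.b t → w.edges = (la t).edges.reverse ++ (lb t).edges) ∧
      (∀ t, i = s.a t → j = s.d t → w.edges = (la t).edges.reverse ++ (ld t).edges) := by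
  have hab : ∀ t, s.a t < s.b t := fun t => t.2.1
  have hbd : ∀ t, s.b t < s.d t := fun t => t.2.2.1
  have had : ∀ t, s.a t < s.d t := fun t => (hab t).trans (hbd t)
  have rab : ∀ t, s.rel (s.a t) (s.b t) := fun t => t.2.2.2.1
  have rad : ∀ t, s.rel (s.a t) (s.d t) := fun t => t.2.2.2.2
  by_cases hc : s.cons i j
  · -- consecutive vertices
    have hnr : ¬ s.rel i j := s.not_cons_blk hc
    have hadj : G.Adj (s.vtx i) (s.vtx j) := by
      have hij' : i.val + 1 = j.val := by
        rcases hc with hc | hc
        · exact hc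
        · have : i.val < j.val := hij
          omega
      have hlt : i.val < s.m := by
        have := j.isLt
        omega
      have h1 := s.adj ⟨i.val, hlt⟩
      have e1 : (⟨i.val, hlt⟩ : Fin s.m).castSucc = i := Fin.ext rfl
      have e2 : (⟨i.val, hlt⟩ : Fin s.m).succ = j := Fin.ext hij'
      rwa [e1, e2] at h1
    have hne : s.vtx i ≠ s.vtx j := fun e => hij.ne (s.inj e)
    refine ⟨Walk.cons hadj Walk.nil, ?_, ?_, ?_, ?_, ?_, ?_⟩
    · rw [Walk.isPath_def]
      simp [hne]
    · intro k hk
      simp only [Walk.support_cons, Walk.support_nil, List.mem_cons, List.not_mem_nil,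
        or_false] at hk
      exact hk.imp (fun e => s.inj e) (fun e => s.inj e)
    · intro _
      simp
    · intro hb
      exact absurd hb.2.1 hnr
    · rintro t rfl rfl
      exact absurd (rab t) hnr
    · rintro t rfl rfl
      exact absurd (rad t) hnr
  · have hb : s.blk i j := h.resolve_left hc
    rcases s.blk_cases hb with hpair | ⟨t, ht⟩
    · -- a pair
      obtain ⟨p, hp⟩ := hb.2.1.exists_isPath
      refine ⟨p.mapLe s.HG, hp.mapLe s.HG, ?_, fun h' => absurd h' hc, ?_, ?_, ?_⟩
      · intro k hk
        rw [Walk.support_mapLe_eq_support] at hk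
        have := path_internal s.H (Set.range s.vtx) (by
          rintro _ ⟨i, rfl⟩ y z h1 h2
          exact s.h1 i y z h1 h2) p hp (s.vtx k) hk ⟨k, rfl⟩
        exact this.imp (fun e => s.inj e) (fun e => s.inj e)
      · intro _ e he
        rw [Walk.edges_mapLe_eq_edges] at he
        exact p.edges_subset_edgeSet he
      · rintro t rfl rfl
        rcases (hpair (s.d t)).1 (rad t) with e | e
        · exact absurd e (had t).ne'
        · exact absurd e (hbd t).ne'
      · rintro t rfl rfl
        rcases (hpair (s.b t)).1 (rab t) with e | e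
        · exact absurd e (hab t).ne'
        · exact absurd e (hbd t).ne
    · have ht' : i = s.a t ∧ (j = s.b t ∨ j = s.d t) := by
        rcases ht with ht | ⟨rfl, rfl | rfl⟩
        · exact ht
        · exact absurd hij (hab t).asymm
        · exact absurd hij (had t).asymm
      obtain ⟨rfl, rfl | rfl⟩ := ht'
      · refine ⟨((la t).reverse.append (lb t)).mapLe s.HG,
          (G1_append (pa t) (pb t) (dab t)).mapLe s.HG, ?_, fun h' => absurd h' hc, ?_, ?_, ?_⟩
        · intro k hk
          rw [Walk.support_mapLe_eq_support] at hk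
          rcases G1_mem_append hk with hk | hk
          · exact Or.inl (ia t k hk)
          · exact Or.inr (ib t k hk)
        · intro _ e he
          rw [Walk.edges_mapLe_eq_edges] at he
          exact Walk.edges_subset_edgeSet _ he
        · intro t' h1 _
          obtain rfl := s.a_inj h1
          rw [Walk.edges_mapLe_eq_edges, Walk.edges_append, Walk.edges_reverse]
        · intro t' h1 h2
          obtain rfl := s.a_inj h1
          exact absurd h2 (hbd t).ne
      · refine ⟨((la t).reverse.append (ld t)).mapLe s.HG,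
          (G1_append (pa t) (pd t) (dad t)).mapLe s.HG, ?_, fun h' => absurd h' hc, ?_, ?_, ?_⟩
        · intro k hk
          rw [Walk.support_mapLe_eq_support] at hk
          rcases G1_mem_append hk with hk | hk
          · exact Or.inl (ia t k hk)
          · exact Or.inr (id t k hk)
        · intro _ e he
          rw [Walk.edges_mapLe_eq_edges] at he
          exact Walk.edges_subset_edgeSet _ he
        · intro t' h1 h2
          obtain rfl := s.a_inj h1
          exact absurd h2 (hbd t).ne'
        · intro t' h1 _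
          obtain rfl := s.a_inj h1
          rw [Walk.edges_mapLe_eq_edges, Walk.edges_append, Walk.edges_reverse]

/-- ROW G1 -/
theorem exists_realData {V : Type*} {G : SimpleGraph V} (s : Setup G) : Nonempty (RealData s) := by
  have hab : ∀ t, s.a t < s.b t := fun t => t.2.1
  have hbd : ∀ t, s.b t < s.d t := fun t => t.2.2.1
  have had : ∀ t, s.a t < s.d t := fun t => (hab t).trans (hbd t)
  have rab : ∀ t, s.rel (s.a t) (s.b t) := fun t => t.2.2.2.1
  have rad : ∀ t, s.rel (s.a t) (s.d t) := fun t => t.2.2.2.2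
  have h1 : ∀ x ∈ Set.range s.vtx, ∀ y z, s.H.Adj x y → s.H.Adj x z → y = z := by
    rintro _ ⟨i, rfl⟩ y z h1 h2
    exact s.h1 i y z h1 h2
  have key := fun t : s.T => exists_tripod s.H (Set.range s.vtx) h1 (a := s.vtx (s.a t))
    (b := s.vtx (s.b t)) (d := s.vtx (s.d t)) ⟨_, rfl⟩ ⟨_, rfl⟩ ⟨_, rfl⟩
    (fun e => (hab t).ne (s.inj e)) (fun e => (had t).ne (s.inj e))
    (fun e => (hbd t).ne (s.inj e)) (rab t) (rad t)
  choose z hz la lb ld pa pb pd dab dad dbd using key
  have hz' : ∀ t k, z t ≠ s.vtx k := fun t k e => hz t ⟨k, e.symm⟩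
  have int : ∀ (t : s.T) (x : Fin (s.m + 1)) (p : s.H.Walk (z t) (s.vtx x)), p.IsPath →
      ∀ k, s.vtx k ∈ p.support → k = x := by
    intro t x p hp k hk
    rcases path_internal s.H (Set.range s.vtx) h1 p hp (s.vtx k) hk ⟨k, rfl⟩ with e | e
    · exact absurd e.symm (hz' t k)
    · exact s.inj e
  have ia := fun t => int t _ (la t) (pa t)
  have ib := fun t => int t _ (lb t) (pb t)
  have id := fun t => int t _ (ld t) (pd t)
  choose W W1 W2 W3 W4 W5 W6 using G1_walk s z la lb ld pa pb pd dab dad ia ib id
  let r : ∀ i j, s.A.Adj i j → G.Walk (s.vtx i) (s.vtx j) := fun i j h =>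
    if hij : i < j then W i j hij h
    else (W j i (lt_of_le_of_ne (not_lt.1 hij) h.ne') h.symm).reverse
  have rlt : ∀ i j (h : s.A.Adj i j) (hij : i < j), r i j h = W i j hij h := by
    intro i j h hij
    exact dif_pos hij
  have rgt : ∀ i j (h : s.A.Adj i j) (hji : j < i), r i j h = (W j i hji h.symm).reverse := by
    intro i j h hji
    exact dif_neg hji.asymm
  refine ⟨{ z := z, la := la, lb := lb, ld := ld, hz := hz', pa := pa, pb := pb, pd := pd
            dab := dab, dad := dad, dbd := dbd, ia := ia, ib := ib, id := id, r := r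
            r_path := ?_, r_symm := ?_, r_supp := ?_, r_cons := ?_, r_blk := ?_
            r_ab := ?_, r_ad := ?_ }⟩
  · intro i j h
    rcases lt_or_gt_of_ne h.ne with hij | hij
    · rw [rlt i j h hij]; exact W1 i j hij h
    · rw [rgt i j h hij]; exact (W1 j i hij h.symm).reverse
  · intro i j h
    rcases lt_or_gt_of_ne h.ne with hij | hij
    · rw [rlt i j h hij, rgt j i h.symm hij, Walk.edges_reverse]
    · rw [rgt i j h hij, rlt j i h.symm hij, Walk.edges_reverse, List.reverse_reverse]
  · intro i j h k hk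
    rcases lt_or_gt_of_ne h.ne with hij | hij
    · rw [rlt i j h hij] at hk; exact W2 i j hij h k hk
    · rw [rgt i j h hij, Walk.support_reverse, List.mem_reverse] at hk
      exact (W2 j i hij h.symm k hk).symm
  · intro i j h hc
    rcases lt_or_gt_of_ne h.ne with hij | hij
    · rw [rlt i j h hij]; exact W3 i j hij h hc
    · rw [rgt i j h hij, Walk.edges_reverse, W3 j i hij h.symm hc.symm, List.reverse_singleton,
        Sym2.eq_swap]
  · intro i j h hb e he
    rcases lt_or_gt_of_ne h.ne with hij | hij
    · rw [rlt i j h hij] at he; exact W4 i j hij h hb e he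
    · rw [rgt i j h hij, Walk.edges_reverse, List.mem_reverse] at he
      exact W4 j i hij h.symm ⟨hb.1.symm, hb.2.1.symm, hb.2.2.symm⟩ e he
  · intro t h
    rw [rlt _ _ h (hab t)]
    exact W5 _ _ (hab t) h t rfl rfl
  · intro t h
    rw [rlt _ _ h (had t)]
    exact W6 _ _ (had t) h t rfl rfl

end Pool.Agent.LC
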