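import Pool.Agent.LC.Abs
import Pool.Agent.LC.Real
import Pool.Agent.LC.Geo
import Pool.Agent.LC.NewCycle
import Pool.Agent.LC.MkSetup

namespace Pool.Agent.LC

open SimpleGraph

/-- ROW H3: from the parity theorem. -/
theorem setup_new_path {V : Type*} [Fintype V] [DecidableEq V] (G : SimpleGraph V)
    [DecidableRel G.Adj]
    (h3 : G.IsRegularOfDegree 3) (hp : PlanarPot G) (s : Setup G) :
    ∃ W : G.Walk (s.vtx 0) (s.vtx (Fin.last s.m)), W.IsPath ∧ (∀ i, s.vtx i ∈ W.support) ∧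
      s(s.vtx (Fin.last s.m), s.vtx 0) ∉ W.edges ∧
      ∃ e ∈ W.edges, e ≠ s(s.vtx (Fin.last s.m), s.vtx 0) ∧
        ∀ j : Fin s.m, e ≠ s(s.vtx j.castSucc, s.vtx j.succ) := by
  obtain ⟨D⟩ := exists_realData s
  obtain ⟨hc, R, hE⟩ := hp
  obtain ⟨π, c, hsym, P1, P2, P3, hid, -⟩ := geo G h3 R hc hE s D
  have hev := abs_parity s.hm s.A s.a s.b s.d π c hsym s.adj_ab s.adj_ad s.b_ne_d s.a_inj
    s.b_ne_a s.d_ne_a s.b_ne_zero s.d_ne_zero s.a_ne_last s.deg_last s.deg_a s.deg_x P1 P2 P3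
  set X : Type := {q : Equiv.Perm (Fin (s.m + 1)) // Ham s.A q ∧
      (∀ t, omega (π t) (s.b t) (s.d t) (c t) q = 1) ∧ q (Fin.last s.m) = Fin.last s.m} with hX
  have hone : Ham s.A (1 : Equiv.Perm (Fin (s.m + 1))) :=
    ⟨rfl, fun j => Or.inl (Or.inl (by simp))⟩
  let x1 : X := ⟨1, hone, hid, rfl⟩
  have hne : ∃ x : X, x ≠ x1 := by
    by_contra hcon
    push Not at hcon
    have : Nat.card X = 1 := by
      rw [Nat.card_eq_one_iff_unique]
      exact ⟨⟨fun a b => by rw [hcon a, hcon b]⟩, ⟨x1⟩⟩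
    rw [this] at hev
    exact absurd hev (by decide)
  obtain ⟨⟨q, hq, hom, hl⟩, hqne⟩ := hne
  refine new_path s D q hq hl (fun h => hqne (Subtype.ext h)) ?_
  intro t x x' hx h1 h2
  have h0 := P3 q hq t x x' hx h1 (by rw [Fin.lt_def]; omega)
  rw [hom t] at h0
  exact one_ne_zero h0

/-- ROW H4: every cycle of a 2-connected cubic planar graph has a second cycle covering it. -/
theorem second_cycle {V : Type*} [Fintype V] [DecidableEq V] (G : SimpleGraph V)
    [DecidableRel G.Adj] (h3 : G.IsRegularOfDegree 3) (h2 : TwoConnected G) (hp : PlanarPot G)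
    {u : V} (C : G.Walk u u) (hC : C.IsCycle) :
    ∃ (w : V) (C' : G.Walk w w), C'.IsCycle ∧ (∀ x, x ∈ C.support → x ∈ C'.support) ∧
      C.length ≤ C'.length ∧ ∃ e ∈ C'.edges, e ∉ C.edges := by
  obtain ⟨m, hm, vtx, inj, adj, adj0, hlen, hs, he⟩ := cycle_listing G C hC
  have hW : ∃ W : G.Walk (vtx 0) (vtx (Fin.last m)), W.IsPath ∧ (∀ i, vtx i ∈ W.support) ∧
      s(vtx (Fin.last m), vtx 0) ∉ W.edges ∧
      ∃ e ∈ W.edges, e ≠ s(vtx (Fin.last m), vtx 0) ∧
        ∀ j : Fin m, e ≠ s(vtx j.castSucc, vtx j.succ) := by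
    rcases setup_or_detour G h3 h2 C hC m hm vtx inj adj adj0 hs he with h | ⟨s, rfl, hv⟩
    · exact h
    · have hv' : s.vtx = vtx := funext fun i => hv i
      subst hv'
      exact setup_new_path G h3 hp s
  obtain ⟨W, w1, w2, w3, e, w4, w5, w6⟩ := hW
  refine ⟨vtx (Fin.last m), Walk.cons adj0 W, ?_, ?_, ?_, e, ?_, ?_⟩
  · rw [Walk.cons_isCycle_iff]
    exact ⟨w1, w3⟩
  · intro x hx
    obtain ⟨i, rfl⟩ := (hs x).1 hx
    rw [Walk.support_cons]
    exact List.mem_cons_of_mem _ (w2 i)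
  · rw [hlen, Walk.length_cons]
    have h4 : (Finset.univ.image vtx).card ≤ W.support.toFinset.card := by
      apply Finset.card_le_card
      intro x hx
      rw [Finset.mem_image] at hx
      obtain ⟨i, -, rfl⟩ := hx
      exact List.mem_toFinset.2 (w2 i)
    rw [Finset.card_image_of_injective _ inj, Finset.card_univ, Fintype.card_fin,
      List.toFinset_card_of_nodup w1.support_nodup, Walk.length_support] at h4
    exact h4
  · rw [Walk.edges_cons]
    exact List.mem_cons_of_mem _ w4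
  · intro hec
    rcases (he e).1 hec with h | ⟨j, h⟩
    · exact w5 h
    · exact w6 j h

/-- In a cubic 2-connected planar graph there are two longest cycles with different edge sets. -/
theorem two_longest {V : Type*} [Fintype V] [DecidableEq V] (G : SimpleGraph V)
    [DecidableRel G.Adj] (h3 : G.IsRegularOfDegree 3) (h2 : TwoConnected G) (hp : PlanarPot G)
    {u : V} (C : G.Walk u u) (hC : C.IsCycle)
    (hmax : ∀ (w : V) (D : G.Walk w w), D.IsCycle → D.length ≤ C.length) :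
    ∃ (w : V) (C' : G.Walk w w), C'.IsCycle ∧ C'.length = C.length ∧
      C'.edges.toFinset ≠ C.edges.toFinset := by
  obtain ⟨w, C', c1, -, c2, e, c3, c4⟩ := second_cycle G h3 h2 hp C hC
  refine ⟨w, C', c1, le_antisymm (hmax w C' c1) c2, fun h => c4 ?_⟩
  rw [← List.mem_toFinset, ← h, List.mem_toFinset]
  exact c3

end Pool.Agent.LC
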