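import Pool.Agent.LC.Defs

namespace Pool.Agent.LC

open SimpleGraph

/-- Two darts are related if the difference of the values of every face function is a fixed
linear functional of its coboundary. -/
def B_rel {V : Type*} [Fintype V] [DecidableEq V] (G : SimpleGraph V) [DecidableRel G.Adj]
    (R : Rotation G) (d₁ d₂ : G.Dart) : Prop :=
  ∃ wt : Sym2 V → ZMod 2, ∀ (φ : G.Dart → ZMod 2) (k : Sym2 V → ZMod 2),
    (∀ d, φ (R.face d) = φ d) → (∀ d : G.Dart, φ d + φ d.symm = k d.edge) →
    ∑ e ∈ G.edgeFinset, wt e * k e = φ d₁ + φ d₂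

section

variable {V : Type*} [Fintype V] [DecidableEq V] (G : SimpleGraph V) [DecidableRel G.Adj]
  (R : Rotation G)

theorem B_refl (d : G.Dart) : B_rel G R d d :=
  ⟨0, fun φ k _ _ => by
    rw [CharTwo.add_self_eq_zero]
    exact Finset.sum_eq_zero fun e _ => zero_mul _⟩

theorem B_symm {d d' : G.Dart} (h : B_rel G R d d') : B_rel G R d' d := by
  obtain ⟨wt, h⟩ := h
  exact ⟨wt, fun φ k h1 h2 => by rw [h φ k h1 h2, add_comm]⟩

theorem B_trans {d d' d'' : G.Dart} (h : B_rel G R d d') (h' : B_rel G R d' d'') :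
    B_rel G R d d'' := by
  obtain ⟨w1, h1⟩ := h
  obtain ⟨w2, h2⟩ := h'
  refine ⟨fun e => w1 e + w2 e, fun φ k a b => ?_⟩
  have e1 := h1 φ k a b
  have e2 := h2 φ k a b
  have e3 : ∑ e ∈ G.edgeFinset, (w1 e + w2 e) * k e =
      ∑ e ∈ G.edgeFinset, w1 e * k e + ∑ e ∈ G.edgeFinset, w2 e * k e := by
    rw [← Finset.sum_add_distrib]
    exact Finset.sum_congr rfl fun e _ => add_mul _ _ _
  have t : φ d' + φ d' = 0 := CharTwo.add_self_eq_zero _
  rw [e3, e1, e2]
  linear_combination t

theorem B_face (d : G.Dart) : B_rel G R d (R.face d) :=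
  ⟨0, fun φ k a _ => by
    rw [a d, CharTwo.add_self_eq_zero]
    exact Finset.sum_eq_zero fun e _ => zero_mul _⟩

theorem B_flip (d : G.Dart) : B_rel G R d d.symm := by
  refine ⟨fun e => if e = d.edge then 1 else 0, fun φ k _ b => ?_⟩
  rw [b d, Finset.sum_eq_single d.edge]
  · show (if d.edge = d.edge then (1 : ZMod 2) else 0) * k d.edge = _
    rw [if_pos rfl, one_mul]
  · intro e _ he
    show (if e = d.edge then (1 : ZMod 2) else 0) * k e = 0
    rw [if_neg he, zero_mul]
  · intro h
    exact absurd (SimpleGraph.mem_edgeFinset.2 d.edge_mem) h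

theorem B_next (d : G.Dart) : B_rel G R d (R.next d) := by
  have h := B_face G R d.symm
  rw [Rotation.face_apply, SimpleGraph.Dart.symm_symm] at h
  exact B_trans G R (B_flip G R d) h

theorem B_zpow (d : G.Dart) (i : ℤ) : B_rel G R d ((R.next ^ i) d) := by
  induction i using Int.induction_on with
  | zero => exact B_refl G R d
  | succ i ih =>
    have h := B_next G R ((R.next ^ (i : ℤ)) d)
    have e : (R.next ^ ((i : ℤ) + 1)) d = R.next ((R.next ^ (i : ℤ)) d) := by
      rw [add_comm, zpow_add, zpow_one, Equiv.Perm.mul_apply]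
    rw [e]
    exact B_trans G R ih h
  | pred i ih =>
    have h := B_next G R ((R.next ^ (-(i : ℤ) - 1)) d)
    have e : R.next ((R.next ^ (-(i : ℤ) - 1)) d) = (R.next ^ (-(i : ℤ))) d := by
      rw [← Equiv.Perm.mul_apply]
      congr 1
      rw [← zpow_one_add]
      congr 1
      ring
    rw [e] at h
    exact B_trans G R ih (B_symm G R h)

end

/-- (B) the difference of the values of a face function at two darts is a fixed linear
functional of its coboundary. -/
theorem exists_wt {V : Type*} [Fintype V] [DecidableEq V] (G : SimpleGraph V) [DecidableRel G.Adj]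
    (R : Rotation G) (hc : G.Connected) (d₁ d₂ : G.Dart) :
    ∃ wt : Sym2 V → ZMod 2, ∀ (φ : G.Dart → ZMod 2) (k : Sym2 V → ZMod 2),
      (∀ d, φ (R.face d) = φ d) → (∀ d : G.Dart, φ d + φ d.symm = k d.edge) →
      ∑ e ∈ G.edgeFinset, wt e * k e = φ d₁ + φ d₂ := by
  classical
  have key : ∀ d₁ d₂ : G.Dart, B_rel G R d₁ d₂ := by
    have hcyc : ∀ d d' : G.Dart, d.fst = d'.fst → B_rel G R d d' := by
      intro d d' h
      obtain ⟨i, rfl⟩ := R.cyclic d d' h
      exact B_zpow G R d i
    have hw : ∀ (x y : V) (p : G.Walk x y) (d d' : G.Dart), d.fst = x → d'.fst = y →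
        B_rel G R d d' := by
      intro x y p
      induction p with
      | nil => intro d d' h h'; exact hcyc d d' (h.trans h'.symm)
      | cons h p ih =>
        rename_i u v w
        intro d d' h1 h2
        have e1 : B_rel G R d ⟨(u, v), h⟩ := hcyc _ _ h1
        have e2 : B_rel G R (⟨(u, v), h⟩ : G.Dart) (⟨(u, v), h⟩ : G.Dart).symm := B_flip G R _
        exact B_trans G R (B_trans G R e1 e2) (ih _ _ rfl h2)
    intro d d'
    obtain ⟨p⟩ := hc.preconnected d.fst d'.fst
    exact hw _ _ p d d' rfl rfl
  exact key d₁ d₂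

theorem B_dart_sum {V : Type*} [Fintype V] [DecidableEq V] (G : SimpleGraph V)
    [DecidableRel G.Adj] {x z : V} (h : G.Adj x z) (v : V) :
    ∑ d : G.Dart with d.fst = v, (if s(x, z) = d.edge then (1 : ZMod 2) else 0) =
      (if x = v then 1 else 0) + (if z = v then 1 else 0) := by
  have hxz : x ≠ z := h.ne
  let D : G.Dart := ⟨(x, z), h⟩
  have hD : D ≠ D.symm := fun e => hxz (congrArg (fun d : G.Dart => d.fst) e)
  have hsum : ∀ d : G.Dart, (if s(x, z) = d.edge then (1 : ZMod 2) else 0) =
      (if d = D then 1 else 0) + (if d = D.symm then 1 else 0) := by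
    intro d
    by_cases h1 : d = D
    · subst h1
      have e : s(x, z) = D.edge := rfl
      rw [if_pos e, if_pos rfl, if_neg hD, add_zero]
    · by_cases h2 : d = D.symm
      · subst h2
        have e : s(x, z) = D.symm.edge := by
          rw [SimpleGraph.Dart.edge_symm]; rfl
        rw [if_pos e, if_neg h1, if_pos rfl, zero_add]
      · have e : ¬ s(x, z) = d.edge := by
          intro e
          have e' : d.edge = D.edge := e.symm
          rcases SimpleGraph.dart_edge_eq_iff d D |>.1 e' with h3 | h3
          · exact h1 h3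
          · exact h2 h3
        rw [if_neg e, if_neg h1, if_neg h2, add_zero]
  rw [Finset.sum_congr rfl fun d _ => hsum d, Finset.sum_add_distrib, Finset.sum_ite_eq',
    Finset.sum_ite_eq']
  simp only [Finset.mem_filter, Finset.mem_univ, true_and]
  rfl

theorem B_walk_even {V : Type*} [Fintype V] [DecidableEq V] (G : SimpleGraph V)
    [DecidableRel G.Adj] {x y : V} (p : G.Walk x y) (v : V) :
    ∑ d : G.Dart with d.fst = v, (p.edges.count d.edge : ZMod 2) =
      (if x = v then 1 else 0) + (if y = v then 1 else 0) := by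
  induction p with
  | nil =>
    simp only [SimpleGraph.Walk.edges_nil, List.count_nil, Nat.cast_zero, Finset.sum_const_zero]
    exact (CharTwo.add_self_eq_zero _).symm
  | cons h p ih =>
    rename_i a b c
    have e : ∀ d : G.Dart, (((SimpleGraph.Walk.cons h p).edges.count d.edge : ℕ) : ZMod 2) =
        (p.edges.count d.edge : ZMod 2) + (if s(a, b) = d.edge then (1 : ZMod 2) else 0) := by
      intro d
      rw [SimpleGraph.Walk.edges_cons, List.count_cons]
      simp only [beq_iff_eq, Nat.cast_add, Nat.cast_ite, Nat.cast_one, Nat.cast_zero]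
    rw [Finset.sum_congr rfl fun d _ => e d, Finset.sum_add_distrib, ih, B_dart_sum G h v]
    have t : (if b = v then (1 : ZMod 2) else 0) + (if b = v then (1 : ZMod 2) else 0) = 0 :=
      CharTwo.add_self_eq_zero _
    linear_combination t

/-- (C1) closed walks are even at every vertex. -/
theorem closed_even {V : Type*} [Fintype V] [DecidableEq V] (G : SimpleGraph V)
    [DecidableRel G.Adj] {x : V} (p : G.Walk x x) (v : V) :
    ∑ d : G.Dart with d.fst = v, (p.edges.count d.edge : ZMod 2) = 0 := by
  rw [B_walk_even G p v]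
  exact CharTwo.add_self_eq_zero _

/-- (C2) weight sums along walks. -/
theorem sum_map_eq {V : Type*} [Fintype V] [DecidableEq V] (G : SimpleGraph V)
    [DecidableRel G.Adj] {x y : V} (p : G.Walk x y) (wt : Sym2 V → ZMod 2) :
    (p.edges.map wt).sum = ∑ e ∈ G.edgeFinset, wt e * (p.edges.count e : ZMod 2) := by
  induction p with
  | nil => simp
  | cons h p ih =>
    rename_i a b c
    have e : ∀ e : Sym2 V, wt e * (((SimpleGraph.Walk.cons h p).edges.count e : ℕ) : ZMod 2) =
        wt e * (p.edges.count e : ZMod 2) + (if s(a, b) = e then wt e else 0) := by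
      intro e
      rw [SimpleGraph.Walk.edges_cons, List.count_cons]
      simp only [beq_iff_eq, Nat.cast_add, Nat.cast_ite, Nat.cast_one, Nat.cast_zero, mul_add,
        mul_ite, mul_one, mul_zero]
    rw [Finset.sum_congr rfl fun d _ => e d, Finset.sum_add_distrib, ← ih, Finset.sum_ite_eq,
      if_pos (SimpleGraph.mem_edgeFinset.2 h), SimpleGraph.Walk.edges_cons, List.map_cons,
      List.sum_cons, add_comm]

end Pool.Agent.LC
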