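import Pool.Agent.LC.Defs
import Pool.Agent.LC.AbsDefs

namespace Pool.Agent.LC

open SimpleGraph

/-- The cycle `vtx 0, ..., vtx m` of `G` together with a graph `H` of connections off the cycle. -/
structure Setup {V : Type*} (G : SimpleGraph V) where
  m : ℕ
  hm : 2 ≤ m
  vtx : Fin (m + 1) → V
  inj : Function.Injective vtx
  adj : ∀ j : Fin m, G.Adj (vtx j.castSucc) (vtx j.succ)
  adj0 : G.Adj (vtx (Fin.last m)) (vtx 0)
  H : SimpleGraph V
  HG : H ≤ G
  Hadj : ∀ j : Fin m, ¬ H.Adj (vtx j.castSucc) (vtx j.succ)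
  Hadj0 : ¬ H.Adj (vtx (Fin.last m)) (vtx 0)
  h1 : ∀ i y z, H.Adj (vtx i) y → H.Adj (vtx i) z → y = z
  good : ∀ i, ∃ j, j ≠ i ∧ H.Reachable (vtx i) (vtx j)
  three : ∀ i j k l : Fin (m + 1), i ≠ j → i ≠ k → i ≠ l → j ≠ k → j ≠ l → k ≠ l →
    H.Reachable (vtx i) (vtx j) → H.Reachable (vtx i) (vtx k) → H.Reachable (vtx i) (vtx l) → False
  nc : ∀ j : Fin m, ¬ H.Reachable (vtx j.castSucc) (vtx j.succ)

namespace Setup

variable {V : Type*} {G : SimpleGraph V} (s : Setup G)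

/-- `i` and `j` lie in one component of `H`. -/
def rel (i j : Fin (s.m + 1)) : Prop := s.H.Reachable (s.vtx i) (s.vtx j)

def isMin (i : Fin (s.m + 1)) : Prop := ∀ j, s.rel i j → i ≤ j

/-- block edges: one of the two ends is the first vertex of its block -/
def blk (i j : Fin (s.m + 1)) : Prop := i ≠ j ∧ s.rel i j ∧ (s.isMin i ∨ s.isMin j)

/-- consecutive on the path -/
def cons (i j : Fin (s.m + 1)) : Prop := i.val + 1 = j.val ∨ j.val + 1 = i.val

def A : SimpleGraph (Fin (s.m + 1)) where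
  Adj i j := s.cons i j ∨ s.blk i j
  symm := ⟨by
    rintro i j (h | ⟨h1, h2, h3⟩)
    · exact Or.inl h.symm
    · exact Or.inr ⟨h1.symm, h2.symm, h3.symm⟩⟩
  loopless := ⟨by
    rintro i (h | h)
    · rcases h with h | h <;> omega
    · exact h.1 rfl⟩

/-- blocks with three vertices, listed in the order of the path -/
def T : Type := {t : Fin (s.m + 1) × Fin (s.m + 1) × Fin (s.m + 1) //
  t.1 < t.2.1 ∧ t.2.1 < t.2.2 ∧ s.rel t.1 t.2.1 ∧ s.rel t.1 t.2.2}

noncomputable instance : Fintype s.T := by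
  classical
  unfold T
  infer_instance

def a (t : s.T) : Fin (s.m + 1) := t.1.1
def b (t : s.T) : Fin (s.m + 1) := t.1.2.1
def d (t : s.T) : Fin (s.m + 1) := t.1.2.2

end Setup

/-- Tripods for the triples and real walks for the edges of `A`. -/
structure RealData {V : Type*} {G : SimpleGraph V} (s : Setup G) where
  z : s.T → V
  la : ∀ t, s.H.Walk (z t) (s.vtx (s.a t))
  lb : ∀ t, s.H.Walk (z t) (s.vtx (s.b t))
  ld : ∀ t, s.H.Walk (z t) (s.vtx (s.d t))
  hz : ∀ t k, z t ≠ s.vtx k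
  pa : ∀ t, (la t).IsPath
  pb : ∀ t, (lb t).IsPath
  pd : ∀ t, (ld t).IsPath
  dab : ∀ t p, p ∈ (la t).support → p ∈ (lb t).support → p = z t
  dad : ∀ t p, p ∈ (la t).support → p ∈ (ld t).support → p = z t
  dbd : ∀ t p, p ∈ (lb t).support → p ∈ (ld t).support → p = z t
  ia : ∀ t k, s.vtx k ∈ (la t).support → k = s.a t
  ib : ∀ t k, s.vtx k ∈ (lb t).support → k = s.b t
  id : ∀ t k, s.vtx k ∈ (ld t).support → k = s.d t
  r : ∀ i j, s.A.Adj i j → G.Walk (s.vtx i) (s.vtx j)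
  r_path : ∀ i j h, (r i j h).IsPath
  r_symm : ∀ i j h, (r j i h.symm).edges = (r i j h).edges.reverse
  r_supp : ∀ i j h k, s.vtx k ∈ (r i j h).support → k = i ∨ k = j
  r_cons : ∀ i j h, s.cons i j → (r i j h).edges = [s(s.vtx i, s.vtx j)]
  r_blk : ∀ i j h, s.blk i j → ∀ e ∈ (r i j h).edges, e ∈ s.H.edgeSet
  r_ab : ∀ t h, (r (s.a t) (s.b t) h).edges = (la t).edges.reverse ++ (lb t).edges
  r_ad : ∀ t h, (r (s.a t) (s.d t) h).edges = (la t).edges.reverse ++ (ld t).edges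

end Pool.Agent.LC
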