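import Pool.Agent.LC.TopDefs

namespace Pool.Agent.LC

open Filter Topology

theorem sep_compact {A B : Set (ℝ × ℝ)} (hA : IsCompact A) (hB : IsCompact B)
    (h : ∀ x ∈ A, x ∉ B) : ∃ δ : ℝ, 0 < δ ∧ ∀ x ∈ A, ∀ y ∈ B, δ ≤ dist x y := by
  rcases (A ×ˢ B).eq_empty_or_nonempty with h0 | h0
  · refine ⟨1, one_pos, fun x hx y hy => ?_⟩
    have : (x, y) ∈ A ×ˢ B := ⟨hx, hy⟩
    rw [h0] at this
    exact absurd this (Set.notMem_empty _)
  · obtain ⟨⟨a, b⟩, ⟨ha, hb⟩, hmin⟩ := (hA.prod hB).exists_isMinOn h0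
      (continuous_dist.continuousOn (s := A ×ˢ B))
    refine ⟨dist a b, ?_, fun x hx y hy => ?_⟩
    · rw [dist_pos]
      rintro rfl
      exact h a ha hb
    · exact hmin (show (x, y) ∈ A ×ˢ B from ⟨hx, hy⟩)

/-- a common positive bound for finitely many monotone conditions -/
theorem ev_of_exists {P : ℝ → Prop} (h : ∃ m : ℝ, 0 < m ∧ P m)
    (hm : ∀ a b : ℝ, 0 < a → a ≤ b → P b → P a) : ∀ᶠ x in 𝓝[>] (0 : ℝ), P x := by
  obtain ⟨m, hm0, hP⟩ := h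
  filter_upwards [Ioo_mem_nhdsGT hm0] with x hx
  exact hm x m hx.1 hx.2.le hP

/-- ROW T1: separation of the pieces of a drawing (compactness). Middle pieces `A e` of the arcs. -/
theorem top_separate {V : Type*} [Finite V] (G : SimpleGraph V) (f : V → ℝ × ℝ)
    (γ : V → V → ℝ → ℝ × ℝ) (hf : Function.Injective f)
    (h1 : ∀ u v, G.Adj u v →
      ContinuousOn (γ u v) (Set.Icc 0 1) ∧ Set.InjOn (γ u v) (Set.Icc 0 1) ∧
      γ u v 0 = f u ∧ γ u v 1 = f v ∧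
      ∀ t ∈ Set.Ioo (0:ℝ) 1, ∀ w, γ u v t ≠ f w)
    (h2 : ∀ u v u' v', G.Adj u v → G.Adj u' v' → s(u, v) ≠ s(u', v') →
      ∀ t ∈ Set.Ioo (0:ℝ) 1, ∀ t' ∈ Set.Ioo (0:ℝ) 1, γ u v t ≠ γ u' v' t') :
    ∃ (ρ δ : ℝ) (A : Sym2 V → Set (ℝ × ℝ)), 0 < ρ ∧ 0 < δ ∧
      (∀ u v, u ≠ v → ∀ x : ℝ × ℝ, dist x (f u) ≤ ρ → ∀ y : ℝ × ℝ, dist y (f v) ≤ ρ → δ ≤ dist x y) ∧
      (∀ e ∈ G.edgeSet, ∀ w, w ∉ e → ∀ x ∈ A e, ∀ y : ℝ × ℝ, dist y (f w) ≤ ρ → δ ≤ dist x y) ∧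
      (∀ e ∈ G.edgeSet, ∀ e' ∈ G.edgeSet, e ≠ e' → ∀ x ∈ A e, ∀ y ∈ A e', δ ≤ dist x y) ∧
      ∀ u v, G.Adj u v → ∃ g : ℝ → ℝ × ℝ, ContinuousOn g (Set.Icc 0 1) ∧
        (∀ t ∈ Set.Icc (0:ℝ) 1, g t ∈ A s(u, v)) ∧ dist (g 0) (f u) ≤ ρ ∧ dist (g 1) (f v) ≤ ρ := by
  classical
  -- a radius
  have hμ : ∃ μ : ℝ, 0 < μ ∧ (∀ u w, u ≠ w → μ ≤ dist (f u) (f w)) ∧
      ∀ u v w, G.Adj u v → w ≠ u → w ≠ v → ∀ t ∈ Set.Icc (0:ℝ) 1, μ ≤ dist (γ u v t) (f w) := by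
    have e1 : ∀ᶠ μ in 𝓝[>] (0 : ℝ), ∀ u w, u ≠ w → μ ≤ dist (f u) (f w) := by
      refine eventually_all.2 fun u => eventually_all.2 fun w => ?_
      refine ev_of_exists ?_ (fun a b _ hab h hne => hab.trans (h hne))
      by_cases h : u = w
      · exact ⟨1, one_pos, fun h' => absurd h h'⟩
      · exact ⟨dist (f u) (f w), dist_pos.2 (hf.ne h), fun _ => le_rfl⟩
    have e2 : ∀ᶠ μ in 𝓝[>] (0 : ℝ), ∀ u v w, G.Adj u v → w ≠ u → w ≠ v →
        ∀ t ∈ Set.Icc (0:ℝ) 1, μ ≤ dist (γ u v t) (f w) := by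
      refine eventually_all.2 fun u => eventually_all.2 fun v => eventually_all.2 fun w => ?_
      refine ev_of_exists ?_ (fun a b _ hab h h1 h2 h3 t ht => hab.trans (h h1 h2 h3 t ht))
      by_cases h : G.Adj u v ∧ w ≠ u ∧ w ≠ v
      · obtain ⟨ha, hwu, hwv⟩ := h
        obtain ⟨hc, hi, h0, h1', hv⟩ := h1 u v ha
        obtain ⟨δ, hδ, hd⟩ := sep_compact (A := γ u v '' Set.Icc 0 1) (B := {f w})
          (isCompact_Icc.image_of_continuousOn hc) isCompact_singleton (by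
            rintro _ ⟨t, ht, rfl⟩ hmem
            rw [Set.mem_singleton_iff] at hmem
            rcases eq_or_lt_of_le ht.1 with h | h
            · rw [← h, h0] at hmem
              exact hwu (hf hmem).symm
            · rcases eq_or_lt_of_le ht.2 with h' | h'
              · rw [h', h1'] at hmem
                exact hwv (hf hmem).symm
              · exact hv t ⟨h, h'⟩ w hmem)
        exact ⟨δ, hδ, fun _ _ _ t ht => hd _ ⟨t, ht, rfl⟩ _ rfl⟩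
      · exact ⟨1, one_pos, fun a b c => absurd ⟨a, b, c⟩ h⟩
    obtain ⟨μ, ⟨hm1, hm2⟩, hm3⟩ := ((e1.and e2).and self_mem_nhdsWithin).exists
    exact ⟨μ, hm3, hm1, hm2⟩
  obtain ⟨μ, hμ0, hμ1, hμ2⟩ := hμ
  set ρ : ℝ := μ / 4 with hρ
  have hρ0 : 0 < ρ := by positivity
  -- the cutting times
  have hcut : ∀ u v, ∃ t0 t1 : ℝ, G.Adj u v → 0 < t0 ∧ t0 < t1 ∧ t1 < 1 ∧
      dist (γ u v t0) (f u) ≤ ρ ∧ dist (γ u v t1) (f v) ≤ ρ := by
    intro u v
    by_cases ha : G.Adj u v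
    · obtain ⟨hc, -, h0, h1', -⟩ := h1 u v ha
      have c0 : Tendsto (γ u v) (𝓝[>] 0) (𝓝 (f u)) := by
        have := (hc 0 (by simp)).tendsto
        rw [h0] at this
        refine this.mono_left (nhdsWithin_le_iff.2 ?_)
        filter_upwards [Ioo_mem_nhdsGT (show (0:ℝ) < 1 from one_pos)] with x hx
        exact ⟨hx.1.le, hx.2.le⟩
      have c1 : Tendsto (γ u v) (𝓝[<] 1) (𝓝 (f v)) := by
        have := (hc 1 (by simp)).tendsto
        rw [h1'] at this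
        refine this.mono_left (nhdsWithin_le_iff.2 ?_)
        filter_upwards [Ioo_mem_nhdsLT (show (0:ℝ) < 1 from one_pos)] with x hx
        exact ⟨hx.1.le, hx.2.le⟩
      have b0 := (c0.eventually (Metric.closedBall_mem_nhds (f u) hρ0)).and
        (Ioo_mem_nhdsGT (show (0:ℝ) < 1 / 2 by norm_num))
      have b1 := (c1.eventually (Metric.closedBall_mem_nhds (f v) hρ0)).and
        (Ioo_mem_nhdsLT (show (1 / 2 : ℝ) < 1 by norm_num))
      obtain ⟨t0, ht0, ht0'⟩ := b0.exists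
      obtain ⟨t1, ht1, ht1'⟩ := b1.exists
      exact ⟨t0, t1, fun _ => ⟨ht0'.1, ht0'.2.trans ht1'.1, ht1'.2, ht0, ht1⟩⟩
    · exact ⟨0, 0, fun h => absurd h ha⟩
  choose t0 t1 ht using hcut
  let A : Sym2 V → Set (ℝ × ℝ) := fun e => ⋃ (u : V) (v : V) (_ : G.Adj u v ∧ s(u, v) = e),
    γ u v '' Set.Icc (t0 u v) (t1 u v)
  have hAmem : ∀ e x, x ∈ A e ↔ ∃ u v, G.Adj u v ∧ s(u, v) = e ∧
      ∃ t ∈ Set.Icc (t0 u v) (t1 u v), γ u v t = x := by
    intro e x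
    simp only [A, Set.mem_iUnion, Set.mem_image]
    constructor
    · rintro ⟨u, v, ⟨ha, he⟩, t, ht, hx⟩
      exact ⟨u, v, ha, he, t, ht, hx⟩
    · rintro ⟨u, v, ha, he, t, ht, hx⟩
      exact ⟨u, v, ⟨ha, he⟩, t, ht, hx⟩
  have hAc : ∀ e, IsCompact (A e) := by
    intro e
    refine isCompact_iUnion fun u => isCompact_iUnion fun v => isCompact_iUnion fun h => ?_
    obtain ⟨q1, q2, q3, -, -⟩ := ht u v h.1
    refine isCompact_Icc.image_of_continuousOn ((h1 u v h.1).1.mono ?_)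
    exact Set.Icc_subset_Icc q1.le q3.le
  have hδ : ∃ δ : ℝ, 0 < δ ∧ ∀ e e', e ≠ e' → ∀ x ∈ A e, ∀ y ∈ A e', δ ≤ dist x y := by
    have e1 : ∀ᶠ δ in 𝓝[>] (0 : ℝ), ∀ e e', e ≠ e' → ∀ x ∈ A e, ∀ y ∈ A e', δ ≤ dist x y := by
      refine eventually_all.2 fun e => eventually_all.2 fun e' => ?_
      refine ev_of_exists ?_ (fun a b _ hab h hne x hx y hy => hab.trans (h hne x hx y hy))
      by_cases hne : e = e'
      · exact ⟨1, one_pos, fun h => absurd hne h⟩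
      · obtain ⟨δ, hδ, hd⟩ := sep_compact (hAc e) (hAc e') (by
          intro x hx hx'
          rw [hAmem] at hx hx'
          obtain ⟨u, v, ha, rfl, t, htt, hx⟩ := hx
          obtain ⟨u', v', ha', rfl, t', htt', hx'⟩ := hx'
          obtain ⟨q1, q2, q3, -, -⟩ := ht u v ha
          obtain ⟨r1, r2, r3, -, -⟩ := ht u' v' ha'
          refine h2 u v u' v' ha ha' hne t ⟨q1.trans_le htt.1, htt.2.trans_lt q3⟩ t'
            ⟨r1.trans_le htt'.1, htt'.2.trans_lt r3⟩ (hx.trans hx'.symm))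
        exact ⟨δ, hδ, fun _ => hd⟩
    obtain ⟨δ, hδ, hδ0⟩ := (e1.and self_mem_nhdsWithin).exists
    exact ⟨δ, hδ0, hδ⟩
  obtain ⟨δ, hδ0, hδ1⟩ := hδ
  refine ⟨ρ, min δ (μ / 4), A, hρ0, lt_min hδ0 (by positivity), ?_, ?_, ?_, ?_⟩
  · intro u v huv x hx y hy
    have e1 := hμ1 u v huv
    have e2 := dist_triangle4 (f u) x y (f v)
    rw [dist_comm (f u) x] at e2
    refine (min_le_right _ _).trans ?_
    rw [hρ] at hx hy
    linarith
  · intro e _ w hw x hx y hy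
    rw [hAmem] at hx
    obtain ⟨u, v, ha, rfl, t, htt, rfl⟩ := hx
    rw [Sym2.mem_iff, not_or] at hw
    obtain ⟨q1, q2, q3, -, -⟩ := ht u v ha
    have e1 := hμ2 u v w ha hw.1 hw.2 t ⟨(q1.trans_le htt.1).le, (htt.2.trans_lt q3).le⟩
    have e2 := dist_triangle (γ u v t) y (f w)
    refine (min_le_right _ _).trans ?_
    rw [hρ] at hy
    linarith
  · intro e _ e' _ hne x hx y hy
    exact (min_le_left _ _).trans (hδ1 e e' hne x hx y hy)
  · intro u v ha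
    obtain ⟨q1, q2, q3, q4, q5⟩ := ht u v ha
    refine ⟨fun t => γ u v (t0 u v + t * (t1 u v - t0 u v)), ?_, ?_, ?_, ?_⟩
    · refine (h1 u v ha).1.comp (by fun_prop) ?_
      intro t htt
      have e1 : 0 ≤ t * (t1 u v - t0 u v) := mul_nonneg htt.1 (by linarith)
      have e2 : t * (t1 u v - t0 u v) ≤ 1 * (t1 u v - t0 u v) :=
        mul_le_mul_of_nonneg_right htt.2 (by linarith)
      exact ⟨by linarith, by linarith⟩
    · intro t htt
      rw [hAmem]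
      have e1 : 0 ≤ t * (t1 u v - t0 u v) := mul_nonneg htt.1 (by linarith)
      have e2 : t * (t1 u v - t0 u v) ≤ 1 * (t1 u v - t0 u v) :=
        mul_le_mul_of_nonneg_right htt.2 (by linarith)
      exact ⟨u, v, ha, rfl, _, ⟨by linarith, by linarith⟩, rfl⟩
    · simpa using q4
    · have : t0 u v + 1 * (t1 u v - t0 u v) = t1 u v := by ring
      simp only [this]
      exact q5

end Pool.Agent.LC
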