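import Pool.Agent.LC.TopC

namespace Pool.Agent.LC

open SimpleGraph

/-- ROW T2: a curve becomes a lattice walk. -/
theorem round_walk (ε : ℝ) (hε : 0 < ε) (g : ℝ → ℝ × ℝ) (hg : ContinuousOn g (Set.Icc 0 1)) :
    ∃ W : Lat.Walk (rnd ε (g 0)) (rnd ε (g 1)), ∀ a ∈ W.support,
      ∃ t ∈ Set.Icc (0:ℝ) 1, dist (emb ε a) (g t) ≤ 2 * ε := by
  obtain ⟨δ, hδ, hu⟩ := Metric.uniformContinuousOn_iff.1
    (isCompact_Icc.uniformContinuousOn_of_continuous hg) ε hε
  obtain ⟨N, hN⟩ := exists_nat_gt (1 / δ)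
  have hN0 : (0 : ℝ) < N := lt_trans (by positivity) hN
  have hNδ : 1 / (N : ℝ) < δ := by
    rw [div_lt_iff₀ hN0]
    rw [div_lt_iff₀ hδ] at hN
    linarith
  have key : ∀ k : ℕ, k ≤ N → ∃ W : Lat.Walk (rnd ε (g 0)) (rnd ε (g ((k : ℝ) / N))),
      ∀ a ∈ W.support, ∃ t ∈ Set.Icc (0:ℝ) 1, dist (emb ε a) (g t) ≤ 2 * ε := by
    intro k
    induction k with
    | zero =>
      intro _
      refine ⟨(Walk.nil : Lat.Walk (rnd ε (g 0)) _).copy rfl (by simp), ?_⟩
      intro a ha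
      rw [Walk.support_copy, Walk.support_nil, List.mem_singleton] at ha
      subst ha
      refine ⟨0, by simp, (dist_rnd ε hε _).trans (by linarith)⟩
    | succ k ih =>
      intro hk
      obtain ⟨W, hW⟩ := ih (by omega)
      have hkN : ((k : ℝ) + 1) ≤ N := by exact_mod_cast hk
      have t1 : (k : ℝ) / N ∈ Set.Icc (0:ℝ) 1 :=
        ⟨by positivity, by rw [div_le_one hN0]; linarith⟩
      have t2 : ((k + 1 : ℕ) : ℝ) / N ∈ Set.Icc (0:ℝ) 1 :=
        ⟨by positivity, by rw [div_le_one hN0]; push_cast; linarith⟩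
      have hd : dist (g ((k : ℝ) / N)) (g (((k + 1 : ℕ) : ℝ) / N)) ≤ ε := by
        refine (hu _ t1 _ t2 ?_).le
        rw [Real.dist_eq]
        have : (k : ℝ) / N - ((k + 1 : ℕ) : ℝ) / N = -(1 / N) := by
          push_cast
          ring
        rw [this, abs_neg, abs_of_pos (by positivity)]
        exact hNδ
      have h1 : dist (emb ε (rnd ε (g ((k : ℝ) / N)))) (g ((k : ℝ) / N)) ≤ 2 * ε :=
        (dist_rnd ε hε _).trans (by linarith)
      have h2 : dist (emb ε (rnd ε (g (((k + 1 : ℕ) : ℝ) / N)))) (g ((k : ℝ) / N)) ≤ 2 * ε := by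
        refine (dist_triangle _ (g (((k + 1 : ℕ) : ℝ) / N)) _).trans ?_
        have := dist_rnd ε hε (g (((k + 1 : ℕ) : ℝ) / N))
        rw [dist_comm (g (((k + 1 : ℕ) : ℝ) / N))]
        linarith
      obtain ⟨W', hW'⟩ := ball_walk ε hε _ _ _ _ h1 h2
      refine ⟨W.append W', ?_⟩
      intro a ha
      rw [Walk.mem_support_append_iff] at ha
      rcases ha with ha | ha
      · exact hW a ha
      · exact ⟨_, t1, hW' a ha⟩
  obtain ⟨W, hW⟩ := key N le_rfl
  refine ⟨W.copy rfl (by rw [div_self hN0.ne']), ?_⟩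
  intro a ha
  rw [Walk.support_copy] at ha
  exact hW a ha

end Pool.Agent.LC
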