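import Pool.Agent.LC.TopDefs

namespace Pool.Agent.LC

open SimpleGraph

/-- a horizontal lattice walk to the right -/
theorem hline (y m : ℤ) (k : ℕ) : ∃ W : Lat.Walk (m, y) (m + k, y),
    ∀ x ∈ W.support, x.2 = y ∧ m ≤ x.1 ∧ x.1 ≤ m + k := by
  induction k with
  | zero =>
    refine ⟨(Walk.nil : Lat.Walk (m, y) (m, y)).copy rfl (by simp), ?_⟩
    intro x hx
    rw [Walk.support_copy, Walk.support_nil, List.mem_singleton] at hx
    subst hx
    simp
  | succ k ih =>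
    obtain ⟨W, hW⟩ := ih
    have hadj : Lat.Adj (m + (k : ℤ), y) (m + ((k + 1 : ℕ) : ℤ), y) := by
      refine ⟨0, ?_⟩
      simp [dir, Prod.ext_iff]
      ring
    refine ⟨W.append (Walk.cons hadj Walk.nil), ?_⟩
    intro x hx
    rw [Walk.mem_support_append_iff] at hx
    rcases hx with hx | hx
    · obtain ⟨h1, h2, h3⟩ := hW x hx
      refine ⟨h1, h2, ?_⟩
      push_cast
      omega
    · rw [Walk.support_cons, Walk.support_nil, List.mem_cons, List.mem_singleton] at hx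
      rcases hx with rfl | rfl
      · simp
      · simp only [true_and]
        push_cast
        omega

/-- a vertical lattice walk upwards -/
theorem vline (x m : ℤ) (k : ℕ) : ∃ W : Lat.Walk (x, m) (x, m + k),
    ∀ p ∈ W.support, p.1 = x ∧ m ≤ p.2 ∧ p.2 ≤ m + k := by
  induction k with
  | zero =>
    refine ⟨(Walk.nil : Lat.Walk (x, m) (x, m)).copy rfl (by simp), ?_⟩
    intro p hp
    rw [Walk.support_copy, Walk.support_nil, List.mem_singleton] at hp
    subst hp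
    simp
  | succ k ih =>
    obtain ⟨W, hW⟩ := ih
    have hadj : Lat.Adj (x, m + (k : ℤ)) (x, m + ((k + 1 : ℕ) : ℤ)) := by
      refine ⟨1, ?_⟩
      simp [dir, Prod.ext_iff]
      ring
    refine ⟨W.append (Walk.cons hadj Walk.nil), ?_⟩
    intro p hp
    rw [Walk.mem_support_append_iff] at hp
    rcases hp with hp | hp
    · obtain ⟨h1, h2, h3⟩ := hW p hp
      refine ⟨h1, h2, ?_⟩
      push_cast
      omega
    · rw [Walk.support_cons, Walk.support_nil, List.mem_cons, List.mem_singleton] at hp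
      rcases hp with rfl | rfl
      · simp
      · simp only [true_and]
        push_cast
        omega

theorem hseg (y m n : ℤ) : ∃ W : Lat.Walk (m, y) (n, y),
    ∀ x ∈ W.support, x.2 = y ∧ min m n ≤ x.1 ∧ x.1 ≤ max m n := by
  rcases le_total m n with h | h
  · obtain ⟨W, hW⟩ := hline y m (n - m).toNat
    refine ⟨W.copy rfl (by rw [Int.toNat_of_nonneg (by omega)]; simp), ?_⟩
    intro x hx
    rw [Walk.support_copy] at hx
    obtain ⟨h1, h2, h3⟩ := hW x hx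
    rw [Int.toNat_of_nonneg (by omega)] at h3
    refine ⟨h1, ?_, ?_⟩ <;> omega
  · obtain ⟨W, hW⟩ := hline y n (m - n).toNat
    refine ⟨(W.copy rfl (by rw [Int.toNat_of_nonneg (by omega)]; simp) :
      Lat.Walk (n, y) (m, y)).reverse, ?_⟩
    intro x hx
    rw [Walk.support_reverse, List.mem_reverse, Walk.support_copy] at hx
    obtain ⟨h1, h2, h3⟩ := hW x hx
    rw [Int.toNat_of_nonneg (by omega)] at h3
    refine ⟨h1, ?_, ?_⟩ <;> omega

theorem vseg (x m n : ℤ) : ∃ W : Lat.Walk (x, m) (x, n),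
    ∀ p ∈ W.support, p.1 = x ∧ min m n ≤ p.2 ∧ p.2 ≤ max m n := by
  rcases le_total m n with h | h
  · obtain ⟨W, hW⟩ := vline x m (n - m).toNat
    refine ⟨W.copy rfl (by rw [Int.toNat_of_nonneg (by omega)]; simp), ?_⟩
    intro p hp
    rw [Walk.support_copy] at hp
    obtain ⟨h1, h2, h3⟩ := hW p hp
    rw [Int.toNat_of_nonneg (by omega)] at h3
    refine ⟨h1, ?_, ?_⟩ <;> omega
  · obtain ⟨W, hW⟩ := vline x n (m - n).toNat
    refine ⟨(W.copy rfl (by rw [Int.toNat_of_nonneg (by omega)]; simp) :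
      Lat.Walk (x, n) (x, m)).reverse, ?_⟩
    intro p hp
    rw [Walk.support_reverse, List.mem_reverse, Walk.support_copy] at hp
    obtain ⟨h1, h2, h3⟩ := hW p hp
    rw [Int.toNat_of_nonneg (by omega)] at h3
    refine ⟨h1, ?_, ?_⟩ <;> omega

/-- two lattice points are joined inside the box they span -/
theorem walk_box (a b : ℤ × ℤ) : ∃ W : Lat.Walk a b, ∀ x ∈ W.support,
    (min a.1 b.1 ≤ x.1 ∧ x.1 ≤ max a.1 b.1) ∧ (min a.2 b.2 ≤ x.2 ∧ x.2 ≤ max a.2 b.2) := by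
  obtain ⟨a1, a2⟩ := a
  obtain ⟨b1, b2⟩ := b
  obtain ⟨W, hW⟩ := hseg a2 a1 b1
  obtain ⟨W', hW'⟩ := vseg b1 a2 b2
  refine ⟨W.append W', ?_⟩
  intro x hx
  rw [Walk.mem_support_append_iff] at hx
  rcases hx with hx | hx
  · obtain ⟨h1, h2, h3⟩ := hW x hx
    refine ⟨⟨h2, h3⟩, ?_, ?_⟩ <;> simp only [h1] <;> omega
  · obtain ⟨h1, h2, h3⟩ := hW' x hx
    refine ⟨⟨?_, ?_⟩, h2, h3⟩ <;> simp only [h1] <;> omega

theorem dist_emb_le {ε : ℝ} {a : ℤ × ℤ} {c : ℝ × ℝ} {r : ℝ} :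
    dist (emb ε a) c ≤ r ↔ |ε * a.1 - c.1| ≤ r ∧ |ε * a.2 - c.2| ≤ r := by
  rw [Prod.dist_eq, max_le_iff, Real.dist_eq, Real.dist_eq]
  rfl

theorem between {ε : ℝ} (hε : 0 < ε) {m n x : ℤ} {c r : ℝ} (hm : |ε * m - c| ≤ r)
    (hn : |ε * n - c| ≤ r) (h1 : min m n ≤ x) (h2 : x ≤ max m n) : |ε * x - c| ≤ r := by
  rw [abs_le] at *
  have hx : ((min m n : ℤ) : ℝ) ≤ (x : ℝ) := by exact_mod_cast h1
  have hx' : (x : ℝ) ≤ ((max m n : ℤ) : ℝ) := by exact_mod_cast h2
  rcases le_total m n with h | h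
  · rw [min_eq_left h] at hx
    rw [max_eq_right h] at hx'
    constructor
    · nlinarith [hm.1, mul_le_mul_of_nonneg_left hx hε.le]
    · nlinarith [hn.2, mul_le_mul_of_nonneg_left hx' hε.le]
  · rw [min_eq_right h] at hx
    rw [max_eq_left h] at hx'
    constructor
    · nlinarith [hn.1, mul_le_mul_of_nonneg_left hx hε.le]
    · nlinarith [hm.2, mul_le_mul_of_nonneg_left hx' hε.le]

/-- ROW T3: the lattice points of a square are connected by lattice walks in the square. -/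
theorem ball_walk (ε : ℝ) (hε : 0 < ε) (c : ℝ × ℝ) (r : ℝ) (a b : ℤ × ℤ)
    (ha : dist (emb ε a) c ≤ r) (hb : dist (emb ε b) c ≤ r) :
    ∃ W : Lat.Walk a b, ∀ x ∈ W.support, dist (emb ε x) c ≤ r := by
  obtain ⟨W, hW⟩ := walk_box a b
  refine ⟨W, fun x hx => ?_⟩
  obtain ⟨⟨h1, h2⟩, h3, h4⟩ := hW x hx
  rw [dist_emb_le] at ha hb ⊢
  exact ⟨between hε ha.1 hb.1 h1 h2, between hε ha.2 hb.2 h3 h4⟩

/-- ROW T3': rounding moves a point by at most `ε` -/
theorem dist_rnd (ε : ℝ) (hε : 0 < ε) (x : ℝ × ℝ) : dist (emb ε (rnd ε x)) x ≤ ε := by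
  rw [dist_emb_le]
  have key : ∀ y : ℝ, |ε * (⌊y / ε⌋ : ℝ) - y| ≤ ε := by
    intro y
    have h1 := Int.floor_le (y / ε)
    have h2 := Int.lt_floor_add_one (y / ε)
    rw [le_div_iff₀ hε] at h1
    rw [div_lt_iff₀ hε] at h2
    rw [abs_le]
    constructor <;> nlinarith
  exact ⟨key x.1, key x.2⟩

end Pool.Agent.LC
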