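import Pool.Agent.LC.TopA
import Pool.Agent.LC.TopB
import Pool.Agent.LC.TopC

namespace Pool.Agent.LC

open SimpleGraph

theorem shrink {ρ ε : ℝ} (hρ : 0 < ρ) (hε : 0 < ε) (p c : ℝ × ℝ) (h : dist p c ≤ ρ + ε) :
    ∃ x : ℝ × ℝ, dist x c ≤ ρ ∧ dist p x ≤ ε := by
  refine ⟨c + (ρ / (ρ + ε)) • (p - c), ?_, ?_⟩
  · rw [dist_eq_norm, add_sub_cancel_left, norm_smul, Real.norm_eq_abs,
      abs_of_pos (by positivity), ← dist_eq_norm]
    calc ρ / (ρ + ε) * dist p c ≤ ρ / (ρ + ε) * (ρ + ε) :=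
          mul_le_mul_of_nonneg_left h (by positivity)
      _ = ρ := by field_simp
  · have : p - (c + (ρ / (ρ + ε)) • (p - c)) = (ε / (ρ + ε)) • (p - c) := by
      have h1 : (ε / (ρ + ε)) = 1 - ρ / (ρ + ε) := by
        field_simp
        ring
      rw [h1, sub_smul, one_smul]
      abel
    rw [dist_eq_norm, this, norm_smul, Real.norm_eq_abs, abs_of_pos (by positivity),
      ← dist_eq_norm]
    calc ε / (ρ + ε) * dist p c ≤ ε / (ρ + ε) * (ρ + ε) :=
          mul_le_mul_of_nonneg_left h (by positivity)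
      _ = ε := by field_simp

/-- ROW T4: a graph drawn in the plane is a minor of the lattice. -/
theorem lattice_minor {V : Type*} [Finite V] (G : SimpleGraph V) (hG : PlaneDrawing G) :
    ∃ (B : V → Set (ℤ × ℤ)) (N : Sym2 V → Set (ℤ × ℤ)), MinorIn G Lat B N := by
  obtain ⟨f, γ, hf, h1, h2⟩ := hG
  obtain ⟨ρ, δ, A, hρ, hδ, hBB, hAB, hAA, hcur⟩ := top_separate G f γ hf h1 h2
  obtain ⟨ε, hε, hεδ⟩ : ∃ ε : ℝ, 0 < ε ∧ 8 * ε < δ := ⟨δ / 10, by positivity, by linarith⟩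
  refine ⟨fun v => {a | dist (emb ε a) (f v) ≤ ρ + ε},
    fun e => {a | ∃ x ∈ A e, dist (emb ε a) x ≤ 2 * ε}, ?_, ?_, ?_, ?_, ?_⟩
  · intro v a ha b hb
    exact ball_walk ε hε (f v) (ρ + ε) a b ha hb
  · intro u v huv x hx hx'
    obtain ⟨p, p1, p2⟩ := shrink hρ hε _ _ hx
    obtain ⟨q, q1, q2⟩ := shrink hρ hε _ _ hx'
    have := hBB u v huv p p1 q q1
    have := dist_triangle_left p q (emb ε x)
    linarith
  · intro e he e' he' hee x hx hx'
    obtain ⟨p, p1, p2⟩ := hx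
    obtain ⟨q, q1, q2⟩ := hx'
    have := hAA e he e' he' hee p p1 q q1
    have := dist_triangle_left p q (emb ε x)
    linarith
  · intro e he w hw x hx hx'
    obtain ⟨p, p1, p2⟩ := hx
    obtain ⟨q, q1, q2⟩ := shrink hρ hε _ _ hx'
    have := hAB e he w hw p p1 q q1
    have := dist_triangle_left p q (emb ε x)
    linarith
  · intro u v huv
    obtain ⟨g, g1, g2, g3, g4⟩ := hcur u v huv
    obtain ⟨W, hW⟩ := round_walk ε hε g g1
    refine ⟨_, ?_, _, ?_, W, ?_⟩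
    · exact (dist_triangle _ (g 0) _).trans (by linarith [dist_rnd ε hε (g 0)])
    · exact (dist_triangle _ (g 1) _).trans (by linarith [dist_rnd ε hε (g 1)])
    · intro x hx
      obtain ⟨t, t1, t2⟩ := hW x hx
      exact ⟨g t, g2 t t1, t2⟩

end Pool.Agent.LC
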