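import Pool.Agent.LC.PotDefs

/-!
Drawings in the plane, the square lattice, subdivisions.
-/

namespace Pool.Agent.LC

open SimpleGraph

/-- `G` is planar: it can be drawn in the plane `ℝ × ℝ` without edge crossings. The vertices are
distinct points `f v`; every edge `uv` is drawn as an injective continuous arc `γ u v` (parametrised
by `[0, 1]`) from `f u` to `f v` none of whose inner points is a vertex; inner points of the arcs of
different edges are different. -/
def PlaneDrawing {V : Type*} (G : SimpleGraph V) : Prop :=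
  ∃ (f : V → ℝ × ℝ) (γ : V → V → ℝ → ℝ × ℝ),
    Function.Injective f ∧
    (∀ u v, G.Adj u v →
      ContinuousOn (γ u v) (Set.Icc 0 1) ∧ Set.InjOn (γ u v) (Set.Icc 0 1) ∧
      γ u v 0 = f u ∧ γ u v 1 = f v ∧
      ∀ t ∈ Set.Ioo (0:ℝ) 1, ∀ w, γ u v t ≠ f w) ∧
    (∀ u v u' v', G.Adj u v → G.Adj u' v' → s(u, v) ≠ s(u', v') →
      ∀ t ∈ Set.Ioo (0:ℝ) 1, ∀ t' ∈ Set.Ioo (0:ℝ) 1, γ u v t ≠ γ u' v' t')

/-- the four directions, counterclockwise: east, north, west, south -/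
def dir : Fin 4 → ℤ × ℤ := ![(1, 0), (0, 1), (-1, 0), (0, -1)]

/-- the square lattice -/
def Lat : SimpleGraph (ℤ × ℤ) where
  Adj a b := ∃ i : Fin 4, b = a + dir i
  symm := ⟨by
    rintro a b ⟨i, rfl⟩
    refine ⟨i + 2, ?_⟩
    have h : dir i + dir (i + 2) = 0 := by
      revert i
      decide
    rw [add_assoc, h, add_zero]⟩
  loopless := ⟨by
    rintro a ⟨i, hi⟩
    have h : dir i = 0 := by
      have := hi.symm
      rwa [add_eq_left] at this
    clear hi
    revert h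
    revert i
    decide⟩

/-- the real point of a lattice point, mesh `ε` -/
def emb (ε : ℝ) (a : ℤ × ℤ) : ℝ × ℝ := (ε * a.1, ε * a.2)

/-- rounding to the lattice of mesh `ε` -/
noncomputable def rnd (ε : ℝ) (x : ℝ × ℝ) : ℤ × ℤ := (⌊x.1 / ε⌋, ⌊x.2 / ε⌋)

/-- `G` is a minor of `H` with branch sets `B` and edge sets `N` -/
structure MinorIn {V X : Type*} (G : SimpleGraph V) (H : SimpleGraph X) (B : V → Set X)
    (N : Sym2 V → Set X) : Prop where
  conn : ∀ v, ∀ a ∈ B v, ∀ b ∈ B v, ∃ W : H.Walk a b, ∀ x ∈ W.support, x ∈ B v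
  disj : ∀ u v, u ≠ v → ∀ x ∈ B u, x ∉ B v
  edisj : ∀ e ∈ G.edgeSet, ∀ e' ∈ G.edgeSet, e ≠ e' → ∀ x ∈ N e, x ∉ N e'
  evdisj : ∀ e ∈ G.edgeSet, ∀ w, w ∉ e → ∀ x ∈ N e, x ∉ B w
  walk : ∀ u v, G.Adj u v → ∃ a ∈ B u, ∃ b ∈ B v, ∃ W : H.Walk a b, ∀ x ∈ W.support, x ∈ N s(u, v)

/-- a subdivision of `G` inside `H` -/
structure Subdiv {V X : Type*} (G : SimpleGraph V) (H : SimpleGraph X) where
  z : V → X
  z_inj : Function.Injective z
  Q : ∀ u v, G.Adj u v → H.Walk (z u) (z v)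
  isPath : ∀ u v h, (Q u v h).IsPath
  symm : ∀ u v (h : G.Adj u v), Q v u h.symm = (Q u v h).reverse
  vert : ∀ u v (h : G.Adj u v) w, z w ∈ (Q u v h).support → w = u ∨ w = v
  inner : ∀ u v u' v' (h : G.Adj u v) (h' : G.Adj u' v'), s(u, v) ≠ s(u', v') →
    ∀ x ∈ (Q u v h).support, x ∈ (Q u' v' h').support → ∃ w, x = z w

namespace Subdiv

variable {V X : Type*} {G : SimpleGraph V} {H : SimpleGraph X} (s : Subdiv G H)

theorem not_nil (u v : V) (h : G.Adj u v) : ¬ (s.Q u v h).Nil := fun hn =>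
  h.ne (s.z_inj hn.eq)

/-- the first dart of the path of a dart of `G` -/
def fd (d : G.Dart) : H.Dart := (s.Q d.fst d.snd d.adj).firstDart (s.not_nil _ _ d.adj)

/-- the last dart of the path of a dart of `G` -/
def ldt (d : G.Dart) : H.Dart := (s.Q d.fst d.snd d.adj).lastDart (s.not_nil _ _ d.adj)

/-- the walk of `H` over a walk of `G` -/
def lft : {x y : V} → G.Walk x y → H.Walk (s.z x) (s.z y)
  | _, _, .nil => .nil
  | _, _, .cons h p => (s.Q _ _ h).append (lft p)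

end Subdiv

end Pool.Agent.LC
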