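import Pool.Agent.LC.TopDefs

namespace Pool.Agent.LC

open SimpleGraph

/-- one edge of a minor: a path which meets the branch sets only in its ends -/
theorem minor_cut_one {V X : Type*} (G : SimpleGraph V) (H : SimpleGraph X) (B : V → Set X)
    (N : Sym2 V → Set X) (h : MinorIn G H B N) (u v : V) (huv : G.Adj u v) :
    ∃ (a b : X) (P : H.Walk a b), a ∈ B u ∧ b ∈ B v ∧ P.IsPath ∧
      (∀ x ∈ P.support, x ∈ N s(u, v)) ∧
      ∀ x ∈ P.support, ∀ w, x ∈ B w → (x = a ∧ w = u) ∨ (x = b ∧ w = v) := by
  classical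
  let S : ℕ → Prop := fun n => ∃ (a b : X) (P : H.Walk a b), a ∈ B u ∧ b ∈ B v ∧
    (∀ x ∈ P.support, x ∈ N s(u, v)) ∧ P.length = n
  have hS : ∃ n, S n := by
    obtain ⟨a, ha, b, hb, W, hW⟩ := h.walk u v huv
    exact ⟨_, a, b, W, ha, hb, hW, rfl⟩
  obtain ⟨a, b, W, ha, hb, hW, hlen⟩ := Nat.find_spec hS
  have hmin : ∀ (a' b' : X) (P : H.Walk a' b'), a' ∈ B u → b' ∈ B v →
      (∀ x ∈ P.support, x ∈ N s(u, v)) → W.length ≤ P.length := by
    intro a' b' P h1 h2 h3
    rw [hlen]
    exact Nat.find_min' hS ⟨a', b', P, h1, h2, h3, rfl⟩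
  have hsub : ∀ x ∈ W.bypass.support, x ∈ N s(u, v) := fun x hx =>
    hW x (Walk.support_bypass_subset_support W hx)
  have hle : W.bypass.length ≤ W.length := Walk.length_bypass_le_length W
  refine ⟨a, b, W.bypass, ha, hb, Walk.bypass_isPath W, hsub, ?_⟩
  intro x hx w hw
  have hwe : w ∈ s(u, v) := by
    by_contra hcon
    exact h.evdisj s(u, v) huv w hcon x (hsub x hx) hw
  rw [Sym2.mem_iff] at hwe
  have hspec := congrArg Walk.length (Walk.take_spec W.bypass hx)
  rw [Walk.length_append] at hspec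
  rcases hwe with rfl | rfl
  · left
    refine ⟨?_, rfl⟩
    have h1 := hmin x b (W.bypass.dropUntil x hx) hw hb (fun y hy =>
      hsub y (Walk.support_dropUntil_subset_support _ hx hy))
    have h2 : (W.bypass.takeUntil x hx).length = 0 := by omega
    exact (Walk.eq_of_length_eq_zero h2).symm
  · right
    refine ⟨?_, rfl⟩
    have h1 := hmin a x (W.bypass.takeUntil x hx) ha hw (fun y hy =>
      hsub y (Walk.support_takeUntil_subset_support _ hx hy))
    have h2 : (W.bypass.dropUntil x hx).length = 0 := by omega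
    exact Walk.eq_of_length_eq_zero h2

/-- ROW T5: cut the walks of a minor: one path for every edge, same path backwards for the reversed
edge, meeting the branch sets only in its two ends. -/
theorem minor_cut {V X : Type*} [Finite V] (G : SimpleGraph V) (H : SimpleGraph X) (B : V → Set X)
    (N : Sym2 V → Set X) (h : MinorIn G H B N) :
    ∃ (a : ∀ u v, G.Adj u v → X) (P : ∀ u v (h : G.Adj u v), H.Walk (a u v h) (a v u h.symm)),
      (∀ u v h, a u v h ∈ B u) ∧ (∀ u v h, (P u v h).IsPath) ∧
      (∀ u v (h : G.Adj u v), P v u h.symm = (P u v h).reverse) ∧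
      (∀ u v h, ∀ x ∈ (P u v h).support, x ∈ N s(u, v)) ∧
      (∀ u v h, ∀ x ∈ (P u v h).support, ∀ w, x ∈ B w →
        (x = a u v h ∧ w = u) ∨ (x = a v u h.symm ∧ w = v)) := by
  classical
  obtain ⟨r, hr⟩ : ∃ r : V → ℕ, Function.Injective r := by
    have := Fintype.ofFinite V
    exact ⟨fun v => (Fintype.equivFin V v : ℕ), fun x y hxy =>
      (Fintype.equivFin V).injective (Fin.ext hxy)⟩
  choose pa pb pp q1 q2 q3 q4 q5 using minor_cut_one G H B N h
  let a : ∀ u v, G.Adj u v → X := fun u v huv =>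
    if r u < r v then pa u v huv else pb v u huv.symm
  have a1 : ∀ u v (huv : G.Adj u v), r u < r v → a u v huv = pa u v huv := fun u v huv hlt =>
    if_pos hlt
  have a2 : ∀ u v (huv : G.Adj u v), r u < r v → a v u huv.symm = pb u v huv :=
    fun u v huv hlt => if_neg (by omega)
  have hlt_or : ∀ u v, G.Adj u v → r u < r v ∨ r v < r u := fun u v huv =>
    lt_or_gt_of_ne (fun hh => huv.ne (hr hh))
  let P : ∀ u v (huv : G.Adj u v), H.Walk (a u v huv) (a v u huv.symm) := fun u v huv =>
    if hlt : r u < r v then (pp u v huv).copy (a1 u v huv hlt).symm (a2 u v huv hlt).symm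
    else ((pp v u huv.symm).reverse).copy
      (a2 v u huv.symm ((hlt_or u v huv).resolve_left hlt)).symm
      (a1 v u huv.symm ((hlt_or u v huv).resolve_left hlt)).symm
  have P1 : ∀ u v (huv : G.Adj u v) (hlt : r u < r v),
      P u v huv = (pp u v huv).copy (a1 u v huv hlt).symm (a2 u v huv hlt).symm :=
    fun u v huv hlt => dif_pos hlt
  have P2 : ∀ u v (huv : G.Adj u v) (hlt : r v < r u),
      P u v huv = ((pp v u huv.symm).reverse).copy
        (a2 v u huv.symm hlt).symm (a1 v u huv.symm hlt).symm :=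
    fun u v huv hlt => dif_neg (by omega)
  refine ⟨a, P, ?_, ?_, ?_, ?_, ?_⟩
  · intro u v huv
    rcases hlt_or u v huv with hlt | hlt
    · rw [a1 u v huv hlt]
      exact q1 u v huv
    · rw [a2 v u huv.symm hlt]
      exact q2 v u huv.symm
  · intro u v huv
    rcases hlt_or u v huv with hlt | hlt
    · rw [P1 u v huv hlt, Walk.isPath_copy]
      exact q3 u v huv
    · rw [P2 u v huv hlt, Walk.isPath_copy, Walk.isPath_reverse_iff]
      exact q3 v u huv.symm
  · intro u v huv
    rcases hlt_or u v huv with hlt | hlt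
    · rw [P1 u v huv hlt, P2 v u huv.symm hlt, Walk.reverse_copy]
    · rw [P2 u v huv hlt, P1 v u huv.symm hlt, Walk.reverse_copy, Walk.reverse_reverse]
  · intro u v huv x hx
    rcases hlt_or u v huv with hlt | hlt
    · rw [P1 u v huv hlt, Walk.support_copy] at hx
      exact q4 u v huv x hx
    · rw [P2 u v huv hlt, Walk.support_copy, Walk.support_reverse, List.mem_reverse] at hx
      rw [Sym2.eq_swap]
      exact q4 v u huv.symm x hx
  · intro u v huv x hx w hw
    rcases hlt_or u v huv with hlt | hlt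
    · rw [P1 u v huv hlt, Walk.support_copy] at hx
      rw [a1 u v huv hlt, a2 u v huv hlt]
      exact q5 u v huv x hx w hw
    · rw [P2 u v huv hlt, Walk.support_copy, Walk.support_reverse, List.mem_reverse] at hx
      rw [a2 v u huv.symm hlt, a1 v u huv.symm hlt]
      exact (q5 v u huv.symm x hx w hw).symm

end Pool.Agent.LC
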