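import Pool.Agent.LC.TopDefs
import Pool.Agent.LC.Tripod

namespace Pool.Agent.LC

open SimpleGraph

/-- the part of a walk before it meets a set -/
theorem first_hit_sub {X : Type*} {H : SimpleGraph X} (T : Set X) {x y : X} (Q : H.Walk x y)
    (hy : y ∈ T) : ∃ z ∈ T, ∃ Q' : H.Walk x z, (∀ p ∈ Q'.support, p ∈ Q.support) ∧
      ∀ p ∈ Q'.support, p ∈ T → p = z := by
  induction Q with
  | nil =>
    refine ⟨_, hy, Walk.nil, fun p hp => hp, fun p hp _ => ?_⟩
    rw [Walk.support_nil, List.mem_singleton] at hp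
    exact hp
  | @cons a b c h p ih =>
    by_cases ha : a ∈ T
    · refine ⟨a, ha, Walk.nil, fun p hp => ?_, fun p hp _ => ?_⟩
      · rw [Walk.support_nil, List.mem_singleton] at hp
        rw [hp]
        exact Walk.start_mem_support _
      · rw [Walk.support_nil, List.mem_singleton] at hp
        exact hp
    · obtain ⟨z, hz, Q', h1, hQ'⟩ := ih hy
      refine ⟨z, hz, Walk.cons h Q', fun p hp => ?_, fun p hp hpT => ?_⟩
      · rw [Walk.support_cons, List.mem_cons] at hp ⊢
        rcases hp with rfl | hp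
        · exact Or.inl rfl
        · exact Or.inr (h1 p hp)
      · rw [Walk.support_cons, List.mem_cons] at hp
        rcases hp with rfl | hp
        · exact absurd hpT ha
        · exact hQ' p hp hpT

/-- ROW T6a: a tripod in a connected set `B` (the ends may be inner vertices). -/
theorem tripod_in {X : Type*} (H : SimpleGraph X) (B : Set X)
    (hB : ∀ a ∈ B, ∀ b ∈ B, ∃ W : H.Walk a b, ∀ x ∈ W.support, x ∈ B)
    (a b d : X) (ha : a ∈ B) (hb : b ∈ B) (hd : d ∈ B) :
    ∃ z, z ∈ B ∧ ∃ (la : H.Walk z a) (lb : H.Walk z b) (ld : H.Walk z d),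
      la.IsPath ∧ lb.IsPath ∧ ld.IsPath ∧
      (∀ p ∈ la.support, p ∈ B) ∧ (∀ p ∈ lb.support, p ∈ B) ∧ (∀ p ∈ ld.support, p ∈ B) ∧
      (∀ p, p ∈ la.support → p ∈ lb.support → p = z) ∧
      (∀ p, p ∈ la.support → p ∈ ld.support → p = z) ∧
      (∀ p, p ∈ lb.support → p ∈ ld.support → p = z) := by
  classical
  obtain ⟨P₀, hP₀⟩ := hB a ha b hb
  obtain ⟨P, hP, hPB⟩ : ∃ P : H.Walk a b, P.IsPath ∧ ∀ x ∈ P.support, x ∈ B :=
    ⟨P₀.bypass, P₀.bypass_isPath, fun x hx => hP₀ x (P₀.support_bypass_subset_support hx)⟩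
  obtain ⟨Q, hQ⟩ := hB d hd a ha
  obtain ⟨z, hz, Q₁, hQ₂, hQ₁⟩ := first_hit_sub {p | p ∈ P.support} Q P.start_mem_support
  obtain ⟨Q', hQp, hQB, hQ'⟩ : ∃ Q' : H.Walk d z, Q'.IsPath ∧ (∀ x ∈ Q'.support, x ∈ B) ∧
      ∀ p ∈ Q'.support, p ∈ P.support → p = z :=
    ⟨Q₁.bypass, Q₁.bypass_isPath, fun x hx => hQ x (hQ₂ x (Q₁.support_bypass_subset_support hx)),
      fun p hp hpP => hQ₁ p (Q₁.support_bypass_subset_support hp) hpP⟩
  have hdisj : ∀ p, p ∈ (P.takeUntil z hz).support → p ∈ (P.dropUntil z hz).support → p = z := by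
    intro p hp1 hp2
    have h2 : ((P.takeUntil z hz).append (P.dropUntil z hz)).IsPath := by
      rw [P.take_spec hz]
      exact hP
    have h3 := h2.support_nodup
    rw [Walk.support_append, List.nodup_append] at h3
    rw [← Walk.cons_tail_support (P.dropUntil z hz), List.mem_cons] at hp2
    rcases hp2 with hp2 | hp2
    · exact hp2
    · exact absurd rfl (h3.2.2 p hp1 p hp2)
  refine ⟨z, hPB z hz, (P.takeUntil z hz).reverse, P.dropUntil z hz, Q'.reverse,
    (hP.takeUntil hz).reverse, hP.dropUntil hz, hQp.reverse, ?_, ?_, ?_, ?_, ?_, ?_⟩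
  · intro p hp
    rw [Walk.support_reverse, List.mem_reverse] at hp
    exact hPB p (P.support_takeUntil_subset_support hz hp)
  · intro p hp
    exact hPB p (P.support_dropUntil_subset_support hz hp)
  · intro p hp
    rw [Walk.support_reverse, List.mem_reverse] at hp
    exact hQB p hp
  · intro p hp1 hp2
    rw [Walk.support_reverse, List.mem_reverse] at hp1
    exact hdisj p hp1 hp2
  · intro p hp1 hp2
    rw [Walk.support_reverse, List.mem_reverse] at hp1 hp2
    exact hQ' p hp2 (P.support_takeUntil_subset_support hz hp1)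
  · intro p hp1 hp2
    rw [Walk.support_reverse, List.mem_reverse] at hp2
    exact hQ' p hp2 (P.support_dropUntil_subset_support hz hp1)

end Pool.Agent.LC
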