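import Pool.Agent.LC.TopE
import Pool.Agent.LC.TopE2

namespace Pool.Agent.LC

open SimpleGraph

theorem isPath_append_of {X : Type*} {H : SimpleGraph X} {x y z : X} {p : H.Walk x y}
    {q : H.Walk y z} (hp : p.IsPath) (hq : q.IsPath)
    (h : ∀ w, w ∈ p.support → w ∈ q.support → w = y) : (p.append q).IsPath := by
  rw [Walk.isPath_def, Walk.support_append, List.nodup_append]
  have h1 := hq.support_nodup
  rw [← Walk.cons_tail_support q, List.nodup_cons] at h1
  refine ⟨hp.support_nodup, h1.2, ?_⟩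
  rintro a ha b hb rfl
  have h2 := h a ha (List.mem_of_mem_tail hb)
  rw [h2] at hb
  exact h1.1 hb

/-- the legs at a vertex -/
theorem exists_legs {V X : Type*} (G : SimpleGraph V) (H : SimpleGraph X) (B : V → Set X)
    (N : Sym2 V → Set X) (h : MinorIn G H B N) (u : V) (hu : (G.neighborSet u).ncard = 3)
    (a : ∀ v, G.Adj u v → X) (ha : ∀ v h, a v h ∈ B u) :
    ∃ z ∈ B u, ∃ L : ∀ v (h : G.Adj u v), H.Walk z (a v h), (∀ v h, (L v h).IsPath) ∧
      (∀ v h, ∀ p ∈ (L v h).support, p ∈ B u) ∧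
      ∀ v v' h h', v ≠ v' → ∀ p ∈ (L v h).support, p ∈ (L v' h').support → p = z := by
  classical
  obtain ⟨v1, v2, v3, h12, h13, h23, hN⟩ := Set.ncard_eq_three.1 hu
  have hadj : ∀ v, G.Adj u v ↔ v = v1 ∨ v = v2 ∨ v = v3 := by
    intro v
    rw [← SimpleGraph.mem_neighborSet, hN]
    simp
  have a1 : G.Adj u v1 := (hadj _).2 (Or.inl rfl)
  have a2 : G.Adj u v2 := (hadj _).2 (Or.inr (Or.inl rfl))
  have a3 : G.Adj u v3 := (hadj _).2 (Or.inr (Or.inr rfl))
  obtain ⟨z, hz, l1, l2, l3, p1, p2, p3, b1, b2, b3, d12, d13, d23⟩ :=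
    tripod_in H (B u) (h.conn u) (a v1 a1) (a v2 a2) (a v3 a3) (ha _ _) (ha _ _) (ha _ _)
  set S : V → Set X := fun v => if v = v1 then {p | p ∈ l1.support} else
    if v = v2 then {p | p ∈ l2.support} else {p | p ∈ l3.support} with hS
  have hS1 : S v1 = {p | p ∈ l1.support} := by simp [hS]
  have hS2 : S v2 = {p | p ∈ l2.support} := by simp [hS, h12.symm]
  have hS3 : S v3 = {p | p ∈ l3.support} := by simp [hS, h13.symm, h23.symm]
  have hL : ∀ v (hv : G.Adj u v), ∃ L : H.Walk z (a v hv), L.IsPath ∧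
      (∀ p ∈ L.support, p ∈ B u) ∧ ∀ p ∈ L.support, p ∈ S v := by
    intro v hv
    rcases (hadj v).1 hv with rfl | rfl | rfl
    · exact ⟨l1, p1, b1, fun p hp => by rw [hS1]; exact hp⟩
    · exact ⟨l2, p2, b2, fun p hp => by rw [hS2]; exact hp⟩
    · exact ⟨l3, p3, b3, fun p hp => by rw [hS3]; exact hp⟩
  choose L hL1 hL2 hL3 using hL
  refine ⟨z, hz, L, hL1, hL2, ?_⟩
  intro v v' hv hv' hne p hp hp'
  have q1 := hL3 v hv p hp
  have q2 := hL3 v' hv' p hp'
  rcases (hadj v).1 hv with rfl | rfl | rfl <;> rcases (hadj v').1 hv' with rfl | rfl | rfl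
  · exact absurd rfl hne
  · rw [hS1] at q1; rw [hS2] at q2; exact d12 p q1 q2
  · rw [hS1] at q1; rw [hS3] at q2; exact d13 p q1 q2
  · rw [hS2] at q1; rw [hS1] at q2; exact d12 p q2 q1
  · exact absurd rfl hne
  · rw [hS2] at q1; rw [hS3] at q2; exact d23 p q1 q2
  · rw [hS3] at q1; rw [hS1] at q2; exact d13 p q2 q1
  · rw [hS3] at q1; rw [hS2] at q2; exact d23 p q2 q1
  · exact absurd rfl hne

/-- ROW T6b: a cubic graph that is a minor is subdivided. -/
theorem subdiv_of_minor {V X : Type*} [Finite V] (G : SimpleGraph V)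
    (hcubic : ∀ v : V, (G.neighborSet v).ncard = 3) (H : SimpleGraph X) (B : V → Set X)
    (N : Sym2 V → Set X) (h : MinorIn G H B N) : Nonempty (Subdiv G H) := by
  obtain ⟨a, P, haB, hP, hPs, hPN, hPB⟩ := minor_cut G H B N h
  choose z hz L hL1 hL2 hL3 using fun u => exists_legs G H B N h u (hcubic u) (a u) (haB u)
  have hdis : ∀ {u v x}, x ∈ B u → x ∈ B v → u = v := by
    intro u v x h1 h2
    by_contra hne
    exact h.disj u v hne x h1 h2
  -- membership in the middle part
  have hmem : ∀ u v (hv : G.Adj u v) x, x ∈ (((L u v hv).append (P u v hv)).append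
      (L v u hv.symm).reverse).support →
      x ∈ (L u v hv).support ∨ x ∈ (L v u hv.symm).support ∨
        (x ∈ N s(u, v) ∧ ∀ w, x ∉ B w) := by
    intro u v hv x hx
    rw [Walk.mem_support_append_iff, Walk.mem_support_append_iff, Walk.support_reverse,
      List.mem_reverse] at hx
    rcases hx with (hx | hx) | hx
    · exact Or.inl hx
    · by_cases hw : ∃ w, x ∈ B w
      · obtain ⟨w, hw⟩ := hw
        rcases hPB u v hv x hx w hw with ⟨h1, h2⟩ | ⟨h1, h2⟩
        · left
          rw [h1]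
          exact Walk.end_mem_support _
        · right; left
          rw [h1]
          exact Walk.end_mem_support _
      · push Not at hw
        exact Or.inr (Or.inr ⟨hPN u v hv x hx, hw⟩)
    · exact Or.inr (Or.inl hx)
  have hLL : ∀ u v u' v' (hv : G.Adj u v) (hv' : G.Adj u' v'), s(u, v) ≠ s(u', v') →
      ∀ x ∈ (L u v hv).support, x ∈ (L u' v' hv').support → x = z u := by
    intro u v u' v' hv hv' hne x hx hx'
    obtain rfl := hdis (hL2 u v hv x hx) (hL2 u' v' hv' x hx')
    refine hL3 u v v' hv hv' ?_ x hx hx'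
    rintro rfl
    exact hne rfl
  refine ⟨{
    z := z
    z_inj := ?_
    Q := fun u v hv => ((L u v hv).append (P u v hv)).append (L v u hv.symm).reverse
    isPath := ?_
    symm := ?_
    vert := ?_
    inner := ?_ }⟩
  · intro u v huv
    exact hdis (hz u) (by rw [huv]; exact hz v)
  · intro u v hv
    refine isPath_append_of (isPath_append_of (hL1 u v hv) (hP u v hv) ?_)
      (hL1 v u hv.symm).reverse ?_
    · intro x hx hx'
      rcases hPB u v hv x hx' u (hL2 u v hv x hx) with ⟨h1, -⟩ | ⟨-, h2⟩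
      · exact h1
      · exact absurd h2 hv.ne
    · intro x hx hx'
      rw [Walk.support_reverse, List.mem_reverse] at hx'
      have hxB := hL2 v u hv.symm x hx'
      rw [Walk.mem_support_append_iff] at hx
      rcases hx with hx | hx
      · exact absurd (hdis (hL2 u v hv x hx) hxB) hv.ne
      · rcases hPB u v hv x hx v hxB with ⟨-, h2⟩ | ⟨h1, -⟩
        · exact absurd h2 hv.ne'
        · exact h1
  · intro u v hv
    rw [hPs u v hv, Walk.reverse_append, Walk.reverse_append, Walk.reverse_reverse,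
      Walk.append_assoc]
  · intro u v hv w hw
    rcases hmem u v hv _ hw with h1 | h1 | h1
    · exact Or.inl (hdis (hz w) (hL2 u v hv _ h1))
    · exact Or.inr (hdis (hz w) (hL2 v u hv.symm _ h1))
    · exact absurd (hz w) (h1.2 w)
  · intro u v u' v' hv hv' hne x hx hx'
    have hne1 : s(u, v) ≠ s(v', u') := by rw [Sym2.eq_swap (a := v')]; exact hne
    have hne2 : s(v, u) ≠ s(u', v') := by rw [Sym2.eq_swap (a := v)]; exact hne
    have hne3 : s(v, u) ≠ s(v', u') := by
      rw [Sym2.eq_swap (a := v), Sym2.eq_swap (a := v')]; exact hne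
    rcases hmem u v hv x hx with h1 | h1 | h1 <;> rcases hmem u' v' hv' x hx' with h2 | h2 | h2
    · exact ⟨_, hLL _ _ _ _ hv hv' hne x h1 h2⟩
    · exact ⟨_, hLL _ _ _ _ hv hv'.symm hne1 x h1 h2⟩
    · exact absurd (hL2 _ _ _ _ h1) (h2.2 _)
    · exact ⟨_, hLL _ _ _ _ hv.symm hv' hne2 x h1 h2⟩
    · exact ⟨_, hLL _ _ _ _ hv.symm hv'.symm hne3 x h1 h2⟩
    · exact absurd (hL2 _ _ _ _ h1) (h2.2 _)
    · exact absurd (hL2 _ _ _ _ h2) (h1.2 _)
    · exact absurd (hL2 _ _ _ _ h2) (h1.2 _)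
    · exact absurd h2.1 (h.edisj _ hv _ hv' hne x h1.1)

end Pool.Agent.LC
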