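import Pool.Agent.LC.TopDefs

/-! The square lattice: counterclockwise rotation and face functions of closed walks. -/

namespace Pool.Agent.LC

open SimpleGraph

theorem lat_adj {a b : ℤ × ℤ} : Lat.Adj a b ↔ (a.1 = b.1 ∧ (b.2 = a.2 + 1 ∨ a.2 = b.2 + 1)) ∨
    (a.2 = b.2 ∧ (b.1 = a.1 + 1 ∨ a.1 = b.1 + 1)) := by
  obtain ⟨a1, a2⟩ := a
  obtain ⟨b1, b2⟩ := b
  constructor
  · rintro ⟨i, hi⟩
    fin_cases i <;> simp [dir] at hi <;> simp only <;> omega
  · intro h
    simp only at h
    rcases h with ⟨h1, h2 | h2⟩ | ⟨h1, h2 | h2⟩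
    · exact ⟨1, by simp [dir]; omega⟩
    · exact ⟨3, by simp [dir]; omega⟩
    · exact ⟨0, by simp [dir]; omega⟩
    · exact ⟨2, by simp [dir]; omega⟩

/-- a horizontal edge above the unit square with lower left corner `s` -/
def hv (s p q : ℤ × ℤ) : ZMod 2 :=
  if p.2 = q.2 ∧ s.2 < p.2 ∧ ((p.1 = s.1 ∧ q.1 = s.1 + 1) ∨ (q.1 = s.1 ∧ p.1 = s.1 + 1)) then 1 else 0

/-- number mod 2 of the horizontal edges of the walk above the unit square `s` -/
def val (s : ℤ × ℤ) : {a b : ℤ × ℤ} → Lat.Walk a b → ZMod 2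
  | _, _, Walk.nil => 0
  | _, _, @Walk.cons _ _ a b _ _ p => hv s a b + val s p

def ind (s p : ℤ × ℤ) : ZMod 2 := if p.1 = s.1 ∧ s.2 < p.2 then 1 else 0

theorem hv_step {x y : ℤ} {p q : ℤ × ℤ} (h : Lat.Adj p q) :
    hv (x - 1, y) p q + hv (x, y) p q + (if s(p, q) = s((x, y), (x, y + 1)) then 1 else 0)
      = ind (x, y) p + ind (x, y) q := by
  obtain ⟨p1, p2⟩ := p
  obtain ⟨q1, q2⟩ := q
  rw [lat_adj] at h
  unfold hv ind
  simp only [Sym2.eq_iff, Prod.mk.injEq]
  simp only at h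
  split_ifs <;> first | (exfalso; omega) | decide

theorem hv_step' {x y : ℤ} {p q : ℤ × ℤ} (h : Lat.Adj p q) :
    hv (x, y - 1) p q + hv (x, y) p q = (if s(p, q) = s((x, y), (x + 1, y)) then 1 else 0) := by
  obtain ⟨p1, p2⟩ := p
  obtain ⟨q1, q2⟩ := q
  rw [lat_adj] at h
  unfold hv
  simp only [Sym2.eq_iff, Prod.mk.injEq]
  simp only at h
  split_ifs <;> first | (exfalso; omega) | decide

theorem count_cons_cast (e f : Sym2 (ℤ × ℤ)) (l : List (Sym2 (ℤ × ℤ))) :
    (((f :: l).count e : ℕ) : ZMod 2) = (if f = e then 1 else 0) + ((l.count e : ℕ) : ZMod 2) := by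
  rw [List.count_cons]
  by_cases h : f = e
  · simp [h, add_comm]
  · simp [h]

theorem val_V {a b : ℤ × ℤ} (w : Lat.Walk a b) (x y : ℤ) :
    val (x - 1, y) w + val (x, y) w + ((w.edges.count s((x, y), (x, y + 1)) : ℕ) : ZMod 2)
      = ind (x, y) a + ind (x, y) b := by
  induction w with
  | nil =>
    simp only [val, Walk.edges_nil, List.count_nil, Nat.cast_zero, add_zero]
    exact (CharTwo.add_self_eq_zero _).symm
  | @cons a c b h p ih =>
    simp only [val, Walk.edges_cons]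
    rw [count_cons_cast]
    have h1 := hv_step (x := x) (y := y) h
    have h2 : ind (x, y) c + ind (x, y) c = 0 := CharTwo.add_self_eq_zero _
    linear_combination h1 + ih + h2

theorem val_H {a b : ℤ × ℤ} (w : Lat.Walk a b) (x y : ℤ) :
    val (x, y - 1) w + val (x, y) w = ((w.edges.count s((x, y), (x + 1, y)) : ℕ) : ZMod 2) := by
  induction w with
  | nil => simp [val]
  | @cons a c b h p ih =>
    simp only [val, Walk.edges_cons]
    rw [count_cons_cast]
    have h1 := hv_step' (x := x) (y := y) h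
    linear_combination h1 + ih

/-- the unit square to the right of a dart -/
def rsq (a b : ℤ × ℤ) : ℤ × ℤ :=
  (a.1 + ((b.1 - a.1) + (b.2 - a.2) - 1) / 2, a.2 + ((b.2 - a.2) - (b.1 - a.1) - 1) / 2)

theorem jump {u : ℤ × ℤ} (w : Lat.Walk u u) {a b : ℤ × ℤ} (h : Lat.Adj a b) :
    val (rsq a b) w + val (rsq b a) w = ((w.edges.count s(a, b) : ℕ) : ZMod 2) := by
  have key : ∀ x y : ℤ, val (x - 1, y) w + val (x, y) w
      = ((w.edges.count s((x, y), (x, y + 1)) : ℕ) : ZMod 2) := by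
    intro x y
    have h1 := val_V w x y
    have h2 : ind (x, y) u + ind (x, y) u = 0 := CharTwo.add_self_eq_zero _
    have h3 : ∀ z : ZMod 2, z + z = 0 := fun z => CharTwo.add_self_eq_zero z
    linear_combination h1 + h2 - h3 ((w.edges.count s((x, y), (x, y + 1)) : ℕ) : ZMod 2)
  obtain ⟨a1, a2⟩ := a
  obtain ⟨b1, b2⟩ := b
  rw [lat_adj] at h
  simp only at h
  rcases h with ⟨rfl, rfl | rfl⟩ | ⟨rfl, rfl | rfl⟩
  · -- up
    have e1 : rsq (a1, a2) (a1, a2 + 1) = (a1, a2) := by
      unfold rsq; simp only [Prod.mk.injEq]; omega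
    have e2 : rsq (a1, a2 + 1) (a1, a2) = (a1 - 1, a2) := by
      unfold rsq; simp only [Prod.mk.injEq]; omega
    rw [e1, e2, add_comm]
    exact key a1 a2
  · have e1 : rsq (a1, b2) (a1, b2 + 1) = (a1, b2) := by
      unfold rsq; simp only [Prod.mk.injEq]; omega
    have e2 : rsq (a1, b2 + 1) (a1, b2) = (a1 - 1, b2) := by
      unfold rsq; simp only [Prod.mk.injEq]; omega
    rw [e1, e2, Sym2.eq_swap]
    exact key a1 b2
  · have e1 : rsq (a1, a2) (a1 + 1, a2) = (a1, a2 - 1) := by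
      unfold rsq; simp only [Prod.mk.injEq]; omega
    have e2 : rsq (a1 + 1, a2) (a1, a2) = (a1, a2) := by
      unfold rsq; simp only [Prod.mk.injEq]; omega
    rw [e1, e2]
    exact val_H w a1 a2
  · have e1 : rsq (b1, a2) (b1 + 1, a2) = (b1, a2 - 1) := by
      unfold rsq; simp only [Prod.mk.injEq]; omega
    have e2 : rsq (b1 + 1, a2) (b1, a2) = (b1, a2) := by
      unfold rsq; simp only [Prod.mk.injEq]; omega
    rw [e1, e2, Sym2.eq_swap, add_comm]
    exact val_H w b1 a2

/-- direction of a dart turned counterclockwise -/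
def ccw (a b : ℤ × ℤ) : ℤ × ℤ := (a.1 - (b.2 - a.2), a.2 + (b.1 - a.1))

def cw (a b : ℤ × ℤ) : ℤ × ℤ := (a.1 + (b.2 - a.2), a.2 - (b.1 - a.1))

theorem adj_ccw {a b : ℤ × ℤ} (h : Lat.Adj a b) : Lat.Adj a (ccw a b) := by
  rw [lat_adj] at h ⊢
  unfold ccw
  simp only
  omega

theorem adj_cw {a b : ℤ × ℤ} (h : Lat.Adj a b) : Lat.Adj a (cw a b) := by
  rw [lat_adj] at h ⊢
  unfold cw
  simp only
  omega

theorem cw_ccw (a b : ℤ × ℤ) : cw a (ccw a b) = b := by
  unfold cw ccw
  ext <;> simp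

theorem ccw_cw (a b : ℤ × ℤ) : ccw a (cw a b) = b := by
  unfold cw ccw
  ext <;> simp

/-- counterclockwise rotation of the lattice -/
def latNext : Equiv.Perm Lat.Dart where
  toFun d := ⟨(d.fst, ccw d.fst d.snd), adj_ccw d.adj⟩
  invFun d := ⟨(d.fst, cw d.fst d.snd), adj_cw d.adj⟩
  left_inv d := by
    apply SimpleGraph.Dart.ext
    apply Prod.ext
    · rfl
    · exact cw_ccw _ _
  right_inv d := by
    apply SimpleGraph.Dart.ext
    apply Prod.ext
    · rfl
    · exact ccw_cw _ _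

theorem latNext_fst (d : Lat.Dart) : (latNext d).fst = d.fst := rfl

theorem latNext_snd (d : Lat.Dart) : (latNext d).snd = ccw d.fst d.snd := rfl

theorem lat_cases (d d' : Lat.Dart) (h : d.fst = d'.fst) :
    d' = d ∨ d' = latNext d ∨ d' = latNext (latNext d) ∨ d' = latNext (latNext (latNext d)) := by
  have h1 := d.adj
  have h2 := d'.adj
  rw [lat_adj] at h1 h2
  have key : d'.snd = d.snd ∨ d'.snd = (latNext d).snd ∨ d'.snd = (latNext (latNext d)).snd ∨
      d'.snd = (latNext (latNext (latNext d))).snd := by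
    simp only [latNext_snd, latNext_fst, ccw]
    rw [← h] at h2
    generalize d.fst = a at *
    generalize d.snd = b at *
    generalize d'.snd = c at *
    obtain ⟨a1, a2⟩ := a
    obtain ⟨b1, b2⟩ := b
    obtain ⟨c1, c2⟩ := c
    simp only [Prod.mk.injEq] at *
    omega
  have ext' : ∀ e : Lat.Dart, e.fst = d.fst → d'.snd = e.snd → d' = e := by
    intro e he hs
    apply SimpleGraph.Dart.ext
    apply Prod.ext
    · exact h.symm.trans he.symm
    · exact hs
  rcases key with k | k | k | k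
  · exact Or.inl (ext' _ rfl k)
  · exact Or.inr (Or.inl (ext' _ rfl k))
  · exact Or.inr (Or.inr (Or.inl (ext' _ rfl k)))
  · exact Or.inr (Or.inr (Or.inr (ext' _ rfl k)))

/-- the counterclockwise rotation of the lattice -/
def RL : Rotation Lat where
  next := latNext
  fst_next := latNext_fst
  cyclic := by
    intro d d' h
    rcases lat_cases d d' h with k | k | k | k
    · exact ⟨0, by simp [k]⟩
    · exact ⟨1, by simp [k]⟩
    · exact ⟨2, by rw [k]; rfl⟩
    · exact ⟨3, by rw [k]; rfl⟩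

theorem rsq_face (d : Lat.Dart) :
    rsq (RL.face d).fst (RL.face d).snd = rsq d.fst d.snd := by
  have h1 := d.adj
  rw [lat_adj] at h1
  have e1 : (RL.face d).fst = d.snd := rfl
  have e2 : (RL.face d).snd = ccw d.snd d.fst := rfl
  rw [e1, e2]
  generalize d.fst = a at *
  generalize d.snd = b at *
  obtain ⟨a1, a2⟩ := a
  obtain ⟨b1, b2⟩ := b
  unfold rsq ccw
  simp only [Prod.mk.injEq] at *
  omega

theorem RL_fin (D : Lat.Dart) : ∃ n : ℕ, 0 < n ∧ (RL.next ^ n) D = D := by
  refine ⟨4, by norm_num, ?_⟩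
  have h : (RL.next ^ 4) D = latNext (latNext (latNext (latNext D))) := rfl
  rw [h]
  apply SimpleGraph.Dart.ext
  apply Prod.ext
  · rfl
  · have e2 : (latNext (latNext (latNext (latNext D)))).snd = D.snd := by
      simp only [latNext_snd, latNext_fst, ccw]
      apply Prod.ext <;> simp only <;> omega
    exact e2

/-- face functions in the lattice -/
theorem hasPot_RL : HasPot RL := by
  intro x p
  refine ⟨fun d => val (rsq d.fst d.snd) p, fun d => ?_, fun d => ?_⟩
  · simp only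
    rw [rsq_face]
  · exact jump p d.adj


end Pool.Agent.LC
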