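import Pool.Agent.LC.TopDefs

namespace Pool.Agent.LC

open SimpleGraph

variable {V X : Type*} {G : SimpleGraph V} {H : SimpleGraph X}

theorem rev_first {x y : X} (p : H.Walk x y) (hp : ¬ p.Nil) (q : H.Walk y x) (hq : ¬ q.Nil)
    (h : q = p.reverse) : q.firstDart hq = (p.lastDart hp).symm := by
  subst h
  apply Dart.ext
  simp [Dart.symm, Walk.snd_reverse]

namespace Subdiv

variable (s : Subdiv G H)

theorem fd_fst (d : G.Dart) : (s.fd d).fst = s.z d.fst := rfl

theorem ldt_symm (d : G.Dart) : (s.ldt d).symm = s.fd d.symm :=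
  (rev_first (s.Q d.fst d.snd d.adj) (s.not_nil _ _ d.adj)
    (s.Q d.symm.fst d.symm.snd d.symm.adj) (s.not_nil _ _ d.symm.adj)
    (s.symm d.fst d.snd d.adj)).symm

theorem fd_snd_mem (d : G.Dart) : (s.fd d).snd ∈ (s.Q d.fst d.snd d.adj).support :=
  Walk.getVert_mem_support _ _

/-- ROW T8a: -/
theorem fd_inj (d d' : G.Dart) (h : s.fd d = s.fd d') : d = d' := by
  have h1 : d.fst = d'.fst := s.z_inj (by rw [← s.fd_fst, ← s.fd_fst, h])
  by_cases he : s(d.fst, d.snd) = s(d'.fst, d'.snd)
  · apply Dart.ext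
    rw [h1] at he
    have h2 : d.snd = d'.snd := by
      rwa [Sym2.congr_right] at he
    exact Prod.ext h1 h2
  · exfalso
    have hx := s.fd_snd_mem d
    have hx' := s.fd_snd_mem d'
    rw [← h] at hx'
    obtain ⟨w, hw⟩ := s.inner _ _ _ _ d.adj d'.adj he _ hx hx'
    rw [hw] at hx hx'
    have hne : w ≠ d.fst := by
      rintro rfl
      have := (s.fd d).adj
      rw [hw, s.fd_fst] at this
      exact this.ne rfl
    have e1 := (s.vert _ _ d.adj w hx).resolve_left hne
    have e2 := (s.vert _ _ d'.adj w hx').resolve_left (h1 ▸ hne)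
    exact he (by rw [h1, ← e1, ← e2])

end Subdiv

theorem next_pow_fst (RH : Rotation H) (n : ℕ) (D : H.Dart) : ((RH.next ^ n) D).fst = D.fst := by
  induction n with
  | zero => rfl
  | succ n ih => rw [pow_succ', Equiv.Perm.mul_apply, RH.fst_next, ih]

theorem exists_nat_pow (RH : Rotation H)
    (hfin : ∀ D, ∃ n : ℕ, 0 < n ∧ (RH.next ^ n) D = D) (D D' : H.Dart) (h : D.fst = D'.fst) :
    ∃ m : ℕ, (RH.next ^ m) D = D' := by
  obtain ⟨i, hi⟩ := RH.cyclic D D' h
  obtain ⟨n, hn, hD⟩ := hfin D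
  have hn' : (0 : ℤ) < n := by exact_mod_cast hn
  refine ⟨(i % n).toNat, ?_⟩
  have h1 : ∀ q : ℤ, ((RH.next ^ (n : ℤ)) ^ q) D = D := by
    intro q
    apply Equiv.Perm.zpow_apply_eq_self_of_apply_eq_self
    rw [zpow_natCast]
    exact hD
  have h2 : i = i % n + n * (i / n) := (Int.emod_add_mul_ediv i n).symm
  rw [h2, zpow_add, Equiv.Perm.mul_apply, zpow_mul, h1] at hi
  rw [← hi, ← zpow_natCast, Int.toNat_of_nonneg (Int.emod_nonneg _ hn'.ne')]

/-- ROW T8b: the rotation of `G`: first used dart in the orbit. -/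
theorem exists_rotation [Finite V] (s : Subdiv G H) (RH : Rotation H)
    (hfin : ∀ D, ∃ n : ℕ, 0 < n ∧ (RH.next ^ n) D = D) :
    ∃ R : Rotation G, ∀ d : G.Dart, ∃ j : ℕ, 0 < j ∧
      (RH.next ^ j) (s.fd d) = s.fd (R.next d) ∧
      ∀ i : ℕ, 0 < i → i < j → ∀ d', (RH.next ^ i) (s.fd d) ≠ s.fd d' := by
  classical
  have hex : ∀ d : G.Dart, ∃ n : ℕ, 0 < n ∧ ∃ d', (RH.next ^ n) (s.fd d) = s.fd d' := by
    intro d
    obtain ⟨n, hn, h⟩ := hfin (s.fd d)
    exact ⟨n, hn, d, h⟩
  let k : G.Dart → ℕ := fun d => Nat.find (hex d)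
  have hk0 : ∀ d, 0 < k d := fun d => (Nat.find_spec (hex d)).1
  choose st hst using fun d => (Nat.find_spec (hex d)).2
  have hst' : ∀ d, (RH.next ^ k d) (s.fd d) = s.fd (st d) := hst
  have hmin : ∀ d (m : ℕ), 0 < m → m < k d → ∀ d', (RH.next ^ m) (s.fd d) ≠ s.fd d' := by
    intro d m hm hlt d' hcon
    exact Nat.find_min (hex d) hlt ⟨hm, d', hcon⟩
  have hinj : Function.Injective st := by
    have key : ∀ d d', st d = st d' → k d ≤ k d' → d = d' := by
      intro d d' h hle
      have h1 : (RH.next ^ k d) (s.fd d) = (RH.next ^ k d') (s.fd d') := by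
        rw [hst', hst', h]
      have h2 : k d' = k d + (k d' - k d) := by omega
      rw [h2, pow_add, Equiv.Perm.mul_apply] at h1
      have h3 := (RH.next ^ k d).injective h1
      by_cases h0 : k d' - k d = 0
      · rw [h0, pow_zero, Equiv.Perm.one_apply] at h3
        exact s.fd_inj _ _ h3
      · exact absurd h3.symm (hmin d' _ (by omega) (by have := hk0 d; omega) d)
    intro d d' h
    rcases le_total (k d) (k d') with hle | hle
    · exact key d d' h hle
    · exact (key d' d h.symm hle).symm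
  have : Finite G.Dart := Finite.of_injective (fun d : G.Dart => d.toProd)
    (fun a b h => Dart.ext a b h)
  let e : Equiv.Perm G.Dart := Equiv.ofBijective st (Finite.injective_iff_bijective.1 hinj)
  have he : ∀ d, e d = st d := fun d => rfl
  have hfst : ∀ d, (st d).fst = d.fst := by
    intro d
    apply s.z_inj
    rw [← s.fd_fst, ← s.fd_fst, ← hst', next_pow_fst]
  have hcyc : ∀ (m : ℕ) (d d' : G.Dart), (RH.next ^ m) (s.fd d) = s.fd d' → e.SameCycle d d' := by
    intro m
    induction m using Nat.strong_induction_on with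
    | _ m ih =>
      intro d d' h
      rcases Nat.eq_zero_or_pos m with rfl | hm
      · rw [pow_zero, Equiv.Perm.one_apply] at h
        rw [s.fd_inj _ _ h]
      · have hle : k d ≤ m := by
          by_contra hcon
          exact hmin d m hm (by omega) d' h
        have h2 : m = (m - k d) + k d := by omega
        rw [h2, pow_add, Equiv.Perm.mul_apply, hst'] at h
        have := ih (m - k d) (by have := hk0 d; omega) (st d) d' h
        rw [← he] at this
        exact (Equiv.Perm.sameCycle_apply_left).1 this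
  refine ⟨⟨e, hfst, ?_⟩, ?_⟩
  · intro d d' h
    obtain ⟨m, hm⟩ := exists_nat_pow RH hfin (s.fd d) (s.fd d') (by
      rw [s.fd_fst, s.fd_fst, h])
    exact hcyc m d d' hm
  · intro d
    exact ⟨k d, hk0 d, hst' d, hmin d⟩

end Pool.Agent.LC
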