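import Pool.Agent.LC.TopH

namespace Pool.Agent.LC

open SimpleGraph

variable {V X : Type*} {G : SimpleGraph V} {H : SimpleGraph X}

/-- ROW T8c: passing over unused darts -/
theorem pass_over (RH : Rotation H) (φ : H.Dart → ZMod 2) (hφ : ∀ d, φ (RH.face d) = φ d)
    (D : H.Dart) (j : ℕ) (hj : 0 < j)
    (h0 : ∀ i : ℕ, 0 < i → i < j → φ ((RH.next ^ i) D) = φ ((RH.next ^ i) D).symm) :
    φ D.symm = φ ((RH.next ^ j) D) := by
  have hn : ∀ E : H.Dart, φ (RH.next E) = φ E.symm := by
    intro E
    have := hφ E.symm
    rwa [Rotation.face_apply, Dart.symm_symm] at this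
  induction j with
  | zero => omega
  | succ j ih =>
    rw [pow_succ', Equiv.Perm.mul_apply, hn]
    rcases Nat.eq_zero_or_pos j with rfl | hj'
    · rfl
    · rw [← h0 j hj' (by omega)]
      exact ih hj' (fun i h1 h2 => h0 i h1 (by omega))

/-- ROW T8d: the face value is constant along a path whose inner vertices carry no other edge
with `φ D ≠ φ D.symm`. -/
theorem along_path (RH : Rotation H) (φ : H.Dart → ZMod 2) (hφ : ∀ d, φ (RH.face d) = φ d)
    (hfin : ∀ D, ∃ n : ℕ, 0 < n ∧ (RH.next ^ n) D = D)
    {x y : X} (W : H.Walk x y) (hW : W.IsPath) (hn : ¬ W.Nil)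
    (h0 : ∀ D : H.Dart, D.fst ∈ W.support → D.fst ≠ x → D.fst ≠ y → D.edge ∉ W.edges →
      φ D = φ D.symm) :
    φ (W.firstDart hn) = φ (W.lastDart hn) := by
  classical
  induction W with
  | nil => exact absurd Walk.Nil.nil hn
  | @cons a b c hab p ih =>
    by_cases hp : p.Nil
    · cases hp
      rfl
    · rw [Walk.cons_isPath_iff] at hW
      obtain ⟨hpp, hap⟩ := hW
      have hlast : (Walk.cons hab p).lastDart hn = p.lastDart hp := by
        apply Dart.ext
        rw [Walk.lastDart_toProd, Walk.lastDart_toProd, Walk.penultimate_cons_of_not_nil _ _ hp]
      rw [hlast]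
      have hih := ih hpp hp (fun D h1 h2 h3 h4 => by
        refine h0 D (by rw [Walk.support_cons]; exact List.mem_cons_of_mem _ h1) ?_ h3 ?_
        · intro hcon
          exact hap (hcon ▸ h1)
        · rw [Walk.edges_cons, List.mem_cons, not_or]
          refine ⟨?_, h4⟩
          intro hcon
          have h5 : D.fst ∈ s(a, b) := by
            rw [← hcon]
            exact Sym2.mem_mk_left _ _
          rw [Sym2.mem_iff] at h5
          rcases h5 with h5 | h5
          · exact hap (h5 ▸ h1)
          · exact h2 h5)
      rw [← hih]
      -- the turn at `b`
      set D : H.Dart := ((Walk.cons hab p).firstDart hn).symm with hD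
      set E : H.Dart := p.firstDart hp with hE
      have hDf : D.fst = b := by
        rw [hD]
        simp [Dart.symm, Walk.firstDart]
      have hDs : D.snd = a := rfl
      have hEf : E.fst = b := rfl
      have hbc : b ≠ c := by
        rintro rfl
        exact hp (Walk.isPath_iff_nil.1 hpp)
      have hex : ∃ m : ℕ, (RH.next ^ m) D = E :=
        exists_nat_pow RH hfin D E (by rw [hDf, hEf])
      have hspec := Nat.find_spec hex
      set j := Nat.find hex with hj
      have hEa : E.snd ≠ a := by
        intro hcon
        apply hap
        rw [← hcon]
        exact Walk.getVert_mem_support _ _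
      have hj0 : 0 < j := by
        rcases Nat.eq_zero_or_pos j with h | h
        · exfalso
          rw [h, pow_zero, Equiv.Perm.one_apply] at hspec
          exact hEa (by rw [← hspec, hDs])
        · exact h
      have hmain := pass_over RH φ hφ D j hj0 ?_
      · rw [hspec] at hmain
        rw [← hmain, hD, Dart.symm_symm]
      · intro i hi hij
        have hFf : ((RH.next ^ i) D).fst = b := by rw [next_pow_fst, hDf]
        refine h0 _ ?_ ?_ ?_ ?_
        · rw [hFf, Walk.support_cons]
          exact List.mem_cons_of_mem _ p.start_mem_support
        · rw [hFf]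
          exact hab.ne'
        · rw [hFf]
          exact hbc
        · intro hmem
          rw [Walk.edges_cons, List.mem_cons] at hmem
          rcases hmem with hmem | hmem
          · -- then it is D
            have h5 : (RH.next ^ i) D = D := by
              apply Dart.ext
              have h6 : s(((RH.next ^ i) D).fst, ((RH.next ^ i) D).snd) = s(a, b) := hmem
              rw [hFf, Sym2.eq_swap, Sym2.congr_left] at h6
              exact Prod.ext (by rw [hFf, hDf]) (by rw [h6, hDs])
            have h7 : (RH.next ^ (j - i)) D = E := by
              have h8 : j = (j - i) + i := by omega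
              rw [h8, pow_add, Equiv.Perm.mul_apply, h5] at hspec
              exact hspec
            exact Nat.find_min hex (show j - i < Nat.find hex by omega) h7
          · -- then it is E
            have h5 : (RH.next ^ i) D = E := by
              apply Dart.ext
              have h6 : s(((RH.next ^ i) D).fst, ((RH.next ^ i) D).snd) ∈ p.edges := hmem
              rw [hFf] at h6
              refine Prod.ext (by rw [hFf, hEf]) ?_
              cases p with
              | nil => exact absurd Walk.Nil.nil hp
              | @cons _ b' _ hb' p' =>
                rw [Walk.edges_cons, List.mem_cons] at h6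
                rcases h6 with h6 | h6
                · rw [Sym2.congr_right] at h6
                  rw [h6, hE, Walk.firstDart_toProd, Walk.snd_cons]
                · exfalso
                  rw [Walk.cons_isPath_iff] at hpp
                  exact hpp.2 (Walk.fst_mem_support_of_mem_edges _ h6)
            exact Nat.find_min hex hij h5

end Pool.Agent.LC
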