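import Pool.Agent.LC.TopH
import Pool.Agent.LC.TopI

namespace Pool.Agent.LC

open SimpleGraph

variable {V X : Type*} [DecidableEq V] [DecidableEq X] {G : SimpleGraph V} {H : SimpleGraph X}

namespace Subdiv

variable (s : Subdiv G H)

omit [DecidableEq V] [DecidableEq X] in
/-- the paths of different edges have no common edge -/
theorem edge_unique (d d' : G.Dart) (e : Sym2 X) (he : e ∈ (s.Q d.fst d.snd d.adj).edges)
    (he' : e ∈ (s.Q d'.fst d'.snd d'.adj).edges) : d.edge = d'.edge := by
  by_contra hne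
  have hne' : s(d.fst, d.snd) ≠ s(d'.fst, d'.snd) := hne
  induction e using Sym2.ind with
  | _ x y =>
    have hxy : x ≠ y := (Walk.adj_of_mem_edges _ he).ne
    have x1 := Walk.fst_mem_support_of_mem_edges _ he
    have y1 := Walk.snd_mem_support_of_mem_edges _ he
    have x2 := Walk.fst_mem_support_of_mem_edges _ he'
    have y2 := Walk.snd_mem_support_of_mem_edges _ he'
    obtain ⟨w, rfl⟩ := s.inner _ _ _ _ d.adj d'.adj hne' _ x1 x2
    obtain ⟨w', rfl⟩ := s.inner _ _ _ _ d.adj d'.adj hne' _ y1 y2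
    have hww : w ≠ w' := fun h => hxy (h ▸ rfl)
    have a1 : w ∈ s(d.fst, d.snd) := Sym2.mem_iff.2 (s.vert _ _ d.adj w x1)
    have a2 : w' ∈ s(d.fst, d.snd) := Sym2.mem_iff.2 (s.vert _ _ d.adj w' y1)
    have b1 : w ∈ s(d'.fst, d'.snd) := Sym2.mem_iff.2 (s.vert _ _ d'.adj w x2)
    have b2 : w' ∈ s(d'.fst, d'.snd) := Sym2.mem_iff.2 (s.vert _ _ d'.adj w' y2)
    have e1 := (Sym2.mem_and_mem_iff hww).1 ⟨a1, a2⟩
    have e2 := (Sym2.mem_and_mem_iff hww).1 ⟨b1, b2⟩
    exact hne' (e1.trans e2.symm)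

omit [DecidableEq V] [DecidableEq X] in
theorem mem_edges_of_edge_eq (d d' : G.Dart) (h : d.edge = d'.edge) (e : Sym2 X) :
    e ∈ (s.Q d.fst d.snd d.adj).edges ↔ e ∈ (s.Q d'.fst d'.snd d'.adj).edges := by
  rcases (dart_edge_eq_iff d d').1 h with rfl | rfl
  · rfl
  · have h1 := s.symm d'.fst d'.snd d'.adj
    change e ∈ (s.Q d'.snd d'.fst d'.adj.symm).edges ↔ e ∈ (s.Q d'.fst d'.snd d'.adj).edges
    rw [h1, Walk.edges_reverse, List.mem_reverse]

/-- ROW T8e: an edge of `H` on the path of `d` is used as often as the edge of `d`. -/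
theorem count_lft (d : G.Dart) (e : Sym2 X) (he : e ∈ (s.Q d.fst d.snd d.adj).edges)
    {x y : V} (p : G.Walk x y) : (s.lft p).edges.count e = p.edges.count d.edge := by
  induction p with
  | nil => rfl
  | @cons a b c h p ih =>
    have h1 : (s.lft (Walk.cons h p)).edges = (s.Q a b h).edges ++ (s.lft p).edges :=
      Walk.edges_append _ _
    rw [h1, List.count_append, ih, Walk.edges_cons, List.count_cons]
    let d' : G.Dart := ⟨(a, b), h⟩
    by_cases hd : d.edge = d'.edge
    · have h2 : e ∈ (s.Q a b h).edges := (s.mem_edges_of_edge_eq d d' hd e).1 he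
      have h3 : (s.Q a b h).edges.count e = 1 :=
        List.count_eq_one_of_mem (s.isPath a b h).isTrail.edges_nodup h2
      have h4 : (s(a, b) == d.edge) = true := by
        rw [beq_iff_eq]
        exact hd.symm
      rw [h3, h4, if_pos rfl, add_comm]
    · have h2 : e ∉ (s.Q a b h).edges := fun hcon => hd (s.edge_unique d d' e he hcon)
      have h3 : (s.Q a b h).edges.count e = 0 := List.count_eq_zero_of_not_mem h2
      have h4 : ¬ (s(a, b) == d.edge) = true := by
        rw [beq_iff_eq]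
        exact fun hcon => hd hcon.symm
      rw [h3, if_neg h4, add_comm]

omit [DecidableEq V] in
/-- ROW T8e: an edge of `H` which is on no path is not used. -/
theorem count_lft_zero (e : Sym2 X) (he : ∀ d : G.Dart, e ∉ (s.Q d.fst d.snd d.adj).edges)
    {x y : V} (p : G.Walk x y) : (s.lft p).edges.count e = 0 := by
  induction p with
  | nil => rfl
  | @cons a b c h p ih =>
    have h1 : (s.lft (Walk.cons h p)).edges = (s.Q a b h).edges ++ (s.lft p).edges :=
      Walk.edges_append _ _
    rw [h1, List.count_append, ih, List.count_eq_zero_of_not_mem (he ⟨(a, b), h⟩)]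

omit [DecidableEq V] [DecidableEq X] in
/-- the only dart at the start of a path whose edge is on the path is the first one -/
theorem first_only {x y : X} (W : H.Walk x y) (hW : W.IsPath) (hn : ¬ W.Nil) (D : H.Dart)
    (hD : D.fst = x) (he : D.edge ∈ W.edges) : D = W.firstDart hn := by
  cases W with
  | nil => exact absurd Walk.Nil.nil hn
  | @cons _ b _ hb p =>
    rw [Walk.edges_cons, List.mem_cons] at he
    rw [Walk.cons_isPath_iff] at hW
    have he' : s(D.fst, D.snd) = s(x, b) ∨ s(D.fst, D.snd) ∈ p.edges := he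
    rw [hD] at he'
    rcases he' with h | h
    · rw [Sym2.congr_right] at h
      apply Dart.ext
      rw [Walk.firstDart_toProd, Walk.snd_cons]
      exact Prod.ext hD h
    · exact absurd (Walk.fst_mem_support_of_mem_edges _ h) hW.2

omit [DecidableEq V] [DecidableEq X] in
/-- ROW T8f: a dart of `H` at `s.z v` whose edge is used is a first dart. -/
theorem eq_fd (D : H.Dart) (v : V) (hD : D.fst = s.z v) (d : G.Dart)
    (he : D.edge ∈ (s.Q d.fst d.snd d.adj).edges) : ∃ d' : G.Dart, D = s.fd d' := by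
  have hmem : s.z v ∈ (s.Q d.fst d.snd d.adj).support := by
    rw [← hD]
    exact Walk.fst_mem_support_of_mem_edges _ (show s(D.fst, D.snd) ∈ _ from he)
  rcases s.vert _ _ d.adj v hmem with h | h
  · refine ⟨d, first_only _ (s.isPath _ _ d.adj) (s.not_nil _ _ d.adj) D (by rw [hD, h]) he⟩
  · refine ⟨d.symm, first_only _ (s.isPath _ _ d.symm.adj) (s.not_nil _ _ d.symm.adj) D
      (by rw [hD, h]; rfl) ?_⟩
    exact (s.mem_edges_of_edge_eq d d.symm (by rw [Dart.edge_symm]) _).1 he

omit [DecidableEq V] [DecidableEq X] in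
/-- ROW T8f: at an inner vertex of the path of `d` only edges of that path are used. -/
theorem inner_used (d : G.Dart) (D : H.Dart) (hD : D.fst ∈ (s.Q d.fst d.snd d.adj).support)
    (h1 : D.fst ≠ s.z d.fst) (h2 : D.fst ≠ s.z d.snd) (d' : G.Dart)
    (he : D.edge ∈ (s.Q d'.fst d'.snd d'.adj).edges) :
    D.edge ∈ (s.Q d.fst d.snd d.adj).edges := by
  by_cases h : d.edge = d'.edge
  · exact (s.mem_edges_of_edge_eq d d' h _).2 he
  · exfalso
    have hne : s(d.fst, d.snd) ≠ s(d'.fst, d'.snd) := h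
    have hD' : D.fst ∈ (s.Q d'.fst d'.snd d'.adj).support :=
      Walk.fst_mem_support_of_mem_edges _ (show s(D.fst, D.snd) ∈ _ from he)
    obtain ⟨w, hw⟩ := s.inner _ _ _ _ d.adj d'.adj hne _ hD hD'
    rw [hw] at hD
    rcases s.vert _ _ d.adj w hD with h3 | h3
    · exact h1 (by rw [hw, h3])
    · exact h2 (by rw [hw, h3])

end Subdiv

theorem zmod2_add_eq_zero {a b : ZMod 2} (h : a + b = 0) : a = b := by
  revert a b
  decide

/-- ROW T8g: face functions are inherited by subdivided graphs. -/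
theorem hasPot_of_subdiv [Finite V] (s : Subdiv G H) (RH : Rotation H) (hRH : HasPot RH)
    (hfin : ∀ D, ∃ n : ℕ, 0 < n ∧ (RH.next ^ n) D = D) : ∃ R : Rotation G, HasPot R := by
  obtain ⟨R, hR⟩ := exists_rotation s RH hfin
  refine ⟨R, fun x p => ?_⟩
  obtain ⟨φ, hφ, hcount⟩ := hRH (s.z x) (s.lft p)
  -- darts on no path
  have hunused : ∀ D : H.Dart, (∀ d : G.Dart, D.edge ∉ (s.Q d.fst d.snd d.adj).edges) →
      φ D = φ D.symm := by
    intro D hD
    apply zmod2_add_eq_zero
    rw [hcount D, s.count_lft_zero _ hD]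
    rfl
  -- constant along the paths
  have halong : ∀ d : G.Dart, φ (s.fd d) = φ (s.ldt d) := by
    intro d
    refine along_path RH φ hφ hfin _ (s.isPath _ _ d.adj) (s.not_nil _ _ d.adj) ?_
    intro D h1 h2 h3 h4
    apply hunused
    intro d' hd'
    exact h4 (s.inner_used d D h1 h2 h3 d' hd')
  refine ⟨fun d => φ (s.fd d), ?_, ?_⟩
  · intro d
    obtain ⟨j, hj, hj1, hj2⟩ := hR d.symm
    have h1 := pass_over RH φ hφ (s.fd d.symm) j hj (fun i hi hij => by
      apply hunused
      intro d' hd'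
      obtain ⟨d'', hd''⟩ := s.eq_fd _ d.snd (by rw [next_pow_fst, s.fd_fst]; rfl) d' hd'
      exact hj2 i hi hij d'' hd'')
    show φ (s.fd (R.face d)) = φ (s.fd d)
    rw [Rotation.face_apply, ← hj1, ← h1, ← s.ldt_symm, Dart.symm_symm, halong]
  · intro d
    show φ (s.fd d) + φ (s.fd d.symm) = _
    rw [halong, ← s.ldt_symm, hcount]
    congr 1
    refine s.count_lft d _ ?_ p
    exact Walk.mk_penultimate_end_mem_edges (s.not_nil _ _ d.adj)

end Pool.Agent.LC
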