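import Pool.Agent.LC.TopD
import Pool.Agent.LC.TopF
import Pool.Agent.LC.TopG
import Pool.Agent.LC.TopJ

namespace Pool.Agent.LC

open SimpleGraph

/-- A cubic graph drawn in the plane has a rotation with face functions. -/
theorem hasPot_of_drawing {V : Type*} [Finite V] [DecidableEq V] (G : SimpleGraph V)
    (hcubic : ∀ v : V, (G.neighborSet v).ncard = 3) (hG : PlaneDrawing G) :
    ∃ R : Rotation G, HasPot R := by
  obtain ⟨B, N, h⟩ := lattice_minor G hG
  obtain ⟨s⟩ := subdiv_of_minor G hcubic Lat B N h
  exact hasPot_of_subdiv s RL hasPot_RL RL_fin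

end Pool.Agent.LC
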